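import Pool.Agent.P.MP_06bfdf_gt.X.Cnt

/-! Cross-caps with a general profile, and a profile with antiholomorphic saddle points. -/

open Set Topology Filter
open scoped ContDiff

namespace Pool.Agent.P.MP_06bfdf_gt.Y

open X

/-- The properties of a profile. -/
structure Good (G : ℝ → ℝ) : Prop where
  pos : ∀ s, 0 < G s
  le : ∀ s, s ≤ G s
  lip : ∀ {s t}, s ≤ t → G t ≤ G s + (t - s)
  mid : ∀ {s t r}, 2 * r ≤ s + t → 2 * G r ≤ G s + G t
  smooth : ContDiff ℝ ∞ G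

lemma good_gg : Good gg := ⟨gg_pos, le_gg, gg_lip, gg_mid, gg_smooth⟩

/-- The cross-cap with profile `G`. -/
noncomputable def capG (G : ℝ → ℝ) (x u v : ℝ) : R4 :=
  (x * u, x * v, G (x ^ 2 * (u ^ 2 + v ^ 2)) * ((u ^ 2 - v ^ 2) / (u ^ 2 + v ^ 2)),
    G (x ^ 2 * (u ^ 2 + v ^ 2)) * (2 * u * v / (u ^ 2 + v ^ 2)))

/-- Change of profile. -/
noncomputable def sc (G H : ℝ → ℝ) (y : R4) : R4 :=
  (y.1, y.2.1, H (nq y) / G (nq y) * y.2.2.1, H (nq y) / G (nq y) * y.2.2.2)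

variable {G H : ℝ → ℝ}

lemma sc_smooth (hG : Good G) (hH : Good H) : ContDiff ℝ ∞ (sc G H) := by
  have h1 : ∀ y : R4, G (nq y) ≠ 0 := fun y => (hG.pos _).ne'
  have h2 := hG.smooth
  have h3 := hH.smooth
  unfold sc
  fun_prop (disch := assumption)

lemma sc_sc (hG : Good G) (hH : Good H) (y : R4) : sc G H (sc H G y) = y := by
  have h1 := (hG.pos (nq y)).ne'
  have h2 := (hH.pos (nq y)).ne'
  have e : nq (sc H G y) = nq y := rfl
  rw [sc, e]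
  refine Prod.ext rfl (Prod.ext rfl (Prod.ext ?_ ?_)) <;> simp only [sc] <;> field_simp

lemma sc_cap (hG : Good G) (H : ℝ → ℝ) (x u v : ℝ) : sc G H (capG G x u v) = capG H x u v := by
  have e : nq (capG G x u v) = x ^ 2 * (u ^ 2 + v ^ 2) := by simp only [nq, capG]; ring
  have h1 := (hG.pos (x ^ 2 * (u ^ 2 + v ^ 2))).ne'
  simp only [sc, e]
  simp only [capG, ← mul_assoc, div_mul_cancel₀ _ h1]

/-- The graph function of the cross-cap away from its core. -/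
noncomputable def ph (G : ℝ → ℝ) (w : R2) : R2 :=
  (G (w.1 ^ 2 + w.2 ^ 2) * (w.1 ^ 2 - w.2 ^ 2) / (w.1 ^ 2 + w.2 ^ 2),
    G (w.1 ^ 2 + w.2 ^ 2) * (2 * w.1 * w.2) / (w.1 ^ 2 + w.2 ^ 2))

lemma ph_smooth (hG : Good G) {w : R2} (h : w.1 ^ 2 + w.2 ^ 2 ≠ 0) : ContDiffAt ℝ ∞ (ph G) w := by
  have h2 := hG.smooth
  unfold ph
  fun_prop (disch := assumption)

lemma sc_graph (hG : Good G) {y : R4} (h : nq y ≠ 0) :
    sc G gg y ∈ K ↔ y.2.2 = ph G (y.1, y.2.1) := by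
  have h1 := (hG.pos (nq y)).ne'
  have h2 := (gg_pos (nq y)).ne'
  have e : nq (sc G gg y) = nq y := rfl
  have e' : y.1 ^ 2 + y.2.1 ^ 2 = nq y := rfl
  simp only [K, mem_ofPred_eq, e]
  simp only [sc, ph, e', Prod.ext_iff, eq_div_iff h]
  constructor
  · rintro ⟨-, a, b⟩
    field_simp at a b
    exact ⟨by linarith, by linarith⟩
  · rintro ⟨a, b⟩
    refine ⟨?_, ?_, ?_⟩
    · field_simp
      refine mul_right_cancel₀ (pow_ne_zero 2 h) ?_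
      linear_combination (y.2.2.1 * nq y + G (nq y) * (y.1 ^ 2 - y.2.1 ^ 2)) * a +
        (y.2.2.2 * nq y + G (nq y) * (2 * y.1 * y.2.1)) * b +
        G (nq y) ^ 2 * (y.1 ^ 2 + y.2.1 ^ 2 + nq y) * e'
    · field_simp; linarith
    · field_simp; linarith

theorem KG_saddle (hG : Good G) (a : R4) {y : R4} (hy : sc G gg y ∈ K) :
    ¬ Slm {y | sc G gg y ∈ K} a y := by
  obtain ⟨x, u, v, hN, e0⟩ := K_par hy
  obtain rfl : capG G x u v = y := by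
    rw [← sc_sc good_gg hG y, ← e0]; exact (sc_cap good_gg G x u v).symm
  have mem : ∀ x {u v : ℝ}, u ^ 2 + v ^ 2 ≠ 0 → capG G x u v ∈ {y | sc G gg y ∈ K} :=
    fun x u v h => by rw [mem_ofPred_eq, sc_cap hG]; exact cap_mem x h
  have cG := hG.smooth.continuous
  intro h
  have hN' : 0 < u ^ 2 + v ^ 2 := lt_of_le_of_ne (by positivity) hN.symm
  obtain ⟨β, hβ⟩ : ∃ β, β = (a.2.2.1 * (u ^ 2 - v ^ 2) + a.2.2.2 * (2 * u * v)) / (u ^ 2 + v ^ 2) :=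
    ⟨_, rfl⟩
  have e : ∀ x, ht a (capG G x u v) =
      x * (a.1 * u + a.2.1 * v) + G (x ^ 2 * (u ^ 2 + v ^ 2)) * β := by
    intro x; simp only [ht, capG, hβ]; ring
  have ne1 : ∀ μ, μ ≠ 0 → capG G (x + μ) u v ≠ capG G x u v := fun μ hμ e => by
    simp only [capG, Prod.mk.injEq] at e
    refine mul_ne_zero hμ hN ?_
    linear_combination u * e.1 + v * e.2.1
  obtain ⟨μ, hμ, h1, h2⟩ := exists_pm (along h (fun μ => capG G (x + μ) u v)
    (by unfold capG; fun_prop) (by simp))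
  have h1 := h1 (mem _ hN) (ne1 _ hμ.ne')
  have h2 := h2 (mem _ hN) (ne1 _ (neg_ne_zero.2 hμ.ne'))
  rw [e, e] at h1 h2
  have h3 := hG.mid (s := (x + μ) ^ 2 * (u ^ 2 + v ^ 2)) (t := (x + -μ) ^ 2 * (u ^ 2 + v ^ 2))
    (r := x ^ 2 * (u ^ 2 + v ^ 2)) (by nlinarith [mul_nonneg (sq_nonneg μ) hN'.le])
  have β0 : 0 < β := by
    by_contra hc
    nlinarith [mul_nonneg (sub_nonneg.2 h3) (neg_nonneg.2 (not_lt.1 hc))]
  have N2 : ∀ μ : ℝ, (u - μ * v) ^ 2 + (v + μ * u) ^ 2 = (u ^ 2 + v ^ 2) * (1 + μ ^ 2) :=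
    fun μ => by ring
  have ne2 : ∀ μ, μ ≠ 0 → capG G x (u - μ * v) (v + μ * u) ≠ capG G x u v := fun μ hμ e => by
    have e1 := congrArg (fun y : R4 => y.2.2.2 * (u ^ 2 - v ^ 2) - y.2.2.1 * (2 * u * v)) e
    simp only [capG, N2] at e1
    have hg := hG.pos (x ^ 2 * ((u ^ 2 + v ^ 2) * (1 + μ ^ 2)))
    refine (show G (x ^ 2 * ((u ^ 2 + v ^ 2) * (1 + μ ^ 2))) * (2 * μ * (u ^ 2 + v ^ 2) ^ 2 /
      ((u ^ 2 + v ^ 2) * (1 + μ ^ 2))) ≠ 0 by positivity) ?_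
    linear_combination e1
  have cont : ContinuousAt (fun μ => capG G x (u - μ * v) (v + μ * u)) 0 := by
    have : (u - 0 * v) ^ 2 + (v + 0 * u) ^ 2 ≠ 0 := by simpa using hN
    unfold capG
    fun_prop (disch := assumption)
  obtain ⟨μ, hμ, h1, h2⟩ := exists_pm (along h _ cont (by simp))
  have h1 := h1 (mem _ (by rw [N2]; positivity)) (ne2 _ hμ.ne')
  have h2 := h2 (mem _ (by rw [N2]; positivity)) (ne2 _ (neg_ne_zero.2 hμ.ne'))
  have h4 := add_lt_add h1 h2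
  have e2 : ht a (capG G x (u - μ * v) (v + μ * u)) + ht a (capG G x (u - -μ * v) (v + -μ * u)) =
      2 * x * (a.1 * u + a.2.1 * v) + 2 * (G (x ^ 2 * ((u ^ 2 + v ^ 2) * (1 + μ ^ 2))) /
        (1 + μ ^ 2) * (1 - μ ^ 2)) * β := by
    simp only [ht, capG, N2, hβ, neg_sq]
    field_simp
    ring
  rw [e2, e] at h4
  have h5 := hG.lip (s := x ^ 2 * (u ^ 2 + v ^ 2)) (t := x ^ 2 * ((u ^ 2 + v ^ 2) * (1 + μ ^ 2)))
    (by nlinarith [mul_nonneg (mul_nonneg (sq_nonneg x) hN'.le) (sq_nonneg μ)])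
  have h6 := mul_le_mul_of_nonneg_right (hG.le (x ^ 2 * (u ^ 2 + v ^ 2))) (sq_nonneg μ)
  have h7 : G (x ^ 2 * ((u ^ 2 + v ^ 2) * (1 + μ ^ 2))) / (1 + μ ^ 2) ≤
      G (x ^ 2 * (u ^ 2 + v ^ 2)) := by
    rw [div_le_iff₀ (by positivity)]; linarith
  have h8 : 0 ≤ G (x ^ 2 * ((u ^ 2 + v ^ 2) * (1 + μ ^ 2))) / (1 + μ ^ 2) * μ ^ 2 := by
    have := hG.pos (x ^ 2 * ((u ^ 2 + v ^ 2) * (1 + μ ^ 2)))
    positivity
  nlinarith

/-- The large profile. -/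
noncomputable def Gh (h s : ℝ) : ℝ :=
  h ^ 2 * (ramp (s / (2 * h ^ 2) + 1) + 1 + ramp (s / (2 * h ^ 2) - 2))

lemma good_Gh {h : ℝ} (hh : 0 < h) : Good (Gh h) := by
  have p : 0 < 2 * h ^ 2 := by positivity
  have key : ∀ s, h ^ 2 * (s / (2 * h ^ 2)) = s / 2 := fun s => by field_simp
  refine ⟨fun s => ?_, fun s => ?_, fun {s t} hst => ?_, fun {s t r} hr => ?_, ?_⟩
  · have := ramp_nonneg (s / (2 * h ^ 2) + 1)
    have := ramp_nonneg (s / (2 * h ^ 2) - 2)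
    unfold Gh; positivity
  · have h1 := le_ramp (s / (2 * h ^ 2) + 1)
    have h2 := le_ramp (s / (2 * h ^ 2) - 2)
    unfold Gh; nlinarith [key s]
  · have h0 : s / (2 * h ^ 2) ≤ t / (2 * h ^ 2) := by gcongr
    have h1 := ramp_lip (show s / (2 * h ^ 2) + 1 ≤ t / (2 * h ^ 2) + 1 by linarith)
    have h2 := ramp_lip (show s / (2 * h ^ 2) - 2 ≤ t / (2 * h ^ 2) - 2 by linarith)
    unfold Gh; nlinarith [key s, key t]
  · have h0 : 2 * (r / (2 * h ^ 2)) ≤ s / (2 * h ^ 2) + t / (2 * h ^ 2) := by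
      rw [← add_div, ← mul_div_assoc]; gcongr
    have h1 := gg_mid (s := s / (2 * h ^ 2) + 2) (t := t / (2 * h ^ 2) + 2)
      (r := r / (2 * h ^ 2) + 2) (by linarith)
    have h2 := gg_mid (s := s / (2 * h ^ 2) - 1) (t := t / (2 * h ^ 2) - 1)
      (r := r / (2 * h ^ 2) - 1) (by linarith)
    simp only [gg, add_sub_assoc, sub_sub] at h1 h2
    norm_num at h1 h2
    unfold Gh; nlinarith
  · unfold Gh; fun_prop

lemma Gh_in {h s : ℝ} (hh : 0 < h) (h0 : 0 ≤ s) (h1 : s ≤ 2 * h ^ 2) :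
    Gh h s = s / 2 + 2 * h ^ 2 := by
  have p : 0 < 2 * h ^ 2 := by positivity
  have a := div_nonneg h0 p.le
  have b := (div_le_one p).2 h1
  unfold Gh
  rw [ramp_of_ge (by linarith), ramp_of_le (by linarith)]
  field_simp; ring

lemma Gh_out {h s : ℝ} (hh : 0 < h) (h1 : 6 * h ^ 2 ≤ s) : Gh h s = s := by
  have p : 0 < 2 * h ^ 2 := by positivity
  have b : 3 ≤ s / (2 * h ^ 2) := by rw [le_div_iff₀ p]; linarith
  unfold Gh
  rw [ramp_of_ge (by linarith), ramp_of_ge (by linarith)]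
  field_simp; ring

end Pool.Agent.P.MP_06bfdf_gt.Y
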