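import Pool.Agent.P.MP_06bfdf_gt.Y.Surf

/-! The topology and the smooth structure of the closed surface over an inner surface. -/

open Set Topology Filter
open scoped Manifold ContDiff

namespace Pool.Agent.P.MP_06bfdf_gt.Y

open X

theorem exists_cocycle_three' {Z : Type*} [TopologicalSpace Z] {U V W : Set Z} (hU : IsOpen U)
    (hV : IsOpen V) (hW : IsOpen W)
    (cov : ∀ x, x ∈ U ∨ x ∈ V ∨ x ∈ W) {f g k : Z → ℝ} (hf : Continuous f) (hg : Continuous g)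
    (hk : ContinuousOn k (V ∩ W)) (f0 : ∀ x ∈ U, x ∈ V → f x ≠ 0) (g0 : ∀ x ∈ U, x ∈ W → g x ≠ 0)
    (k0 : ∀ x ∈ V, x ∈ W → k x ≠ 0) (h : ∀ x ∈ U, x ∈ V → x ∈ W → 0 < f x * g x * k x) :
    ∃ (c : Cocycle Z) (u v w : Z → ZMod 2), c.Cob u U ∧ c.Cob v V ∧ c.Cob w W ∧
      (∀ x ∈ U ∩ V, u x + v x = sg (f x)) ∧ ∀ x ∈ V ∩ W, v x + w x = sg (k x) := by
  have hk' : ContinuousOn k (W ∩ V) := inter_comm V W ▸ hk
  obtain ⟨c, u, h1, h2⟩ := exists_cocycle_of_signs (![U, V, W] : Fin 3 → Set Z)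
    (fun i => by fin_cases i <;> assumption)
    (fun x => (cov x).elim (fun h => ⟨0, h⟩) fun h => h.elim (fun h => ⟨1, h⟩) fun h => ⟨2, h⟩)
    ![![fun _ => 1, f, g], ![f, fun _ => 1, k], ![g, k, fun _ => 1]]
    (fun i j => by
      fin_cases i <;> fin_cases j <;>
        first
        | exact continuousOn_const
        | exact hf.continuousOn
        | exact hg.continuousOn
        | exact hk
        | exact hk')
    (by
      rintro i j l x ⟨⟨hi, hj⟩, hl⟩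
      fin_cases i <;> fin_cases j <;> fin_cases l <;> simp at hi hj hl ⊢ <;>
        first
        | exact f0 x ‹_› ‹_›
        | exact g0 x ‹_› ‹_›
        | exact k0 x ‹_› ‹_›
        | linarith [h x ‹_› ‹_› ‹_›])
  exact ⟨c, u 0, u 1, u 2, h1 0, h1 1, h1 2, h2 0 1, h2 1 2⟩

namespace Cr

variable {n : ℕ} (P : Cr n) (x₀ : P.S)

/-- The finite part. -/
def Fn : Set P.S := {x | 0 < x.1.2.1}
/-- The part to the left of a vertical line. -/
def Hf (m : ℕ) : Set P.S := {x | 0 < x.1.2.1 ∧ (dn x.1).1 < 4 * m - 3 / 2}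
/-- The first piece of a strip. -/
def pA {j : ℕ} (hj : j < n) : Set P.S := (P.up (P.I.cA hj)).pc x₀ (St (25 / 4))
/-- The second piece of a strip. -/
def pB {j : ℕ} (hj : j < n) : Set P.S := (P.up (P.I.cB hj)).pc x₀ (St 4)
/-- First neighbourhood at infinity. -/
def N1 : Set P.S := P.n1.pc x₀ P.n1.W
/-- Second neighbourhood at infinity. -/
def N2 : Set P.S := P.n2.pc x₀ P.n2.W

lemma mem_pc_W {E : Type} [NormedAddCommGroup E] [NormedSpace ℝ E] {S : Set E} (C : Chart S)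
    (x₀ : S) {x : S} : x ∈ C.pc x₀ C.W ↔ x.1 ∈ C.O :=
  ⟨fun h => h.1, fun h => ⟨h, (C.inv x x.2 h).1⟩⟩

variable {j : ℕ} (hj : j < n) {x : P.S}

lemma mem_pA : x ∈ P.pA x₀ hj ↔
    0 < x.1.2.1 ∧ ((dn x.1).1 - 4 * j) ^ 2 < 25 / 4 ∧ P.I.τ j (dn x.1) ∈ kA.O :=
  mem_pc_W (P.up (P.I.cA hj)) x₀

lemma mem_pB : x ∈ P.pB x₀ hj ↔
    0 < x.1.2.1 ∧ ((dn x.1).1 - 4 * j) ^ 2 < 25 / 4 ∧ P.I.τ j (dn x.1) ∈ kB.O :=
  mem_pc_W (P.up (P.I.cB hj)) x₀

include hj in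
lemma memK (h0 : 0 < x.1.2.1) (h : ((dn x.1).1 - 4 * j) ^ 2 < 25 / 4) :
    P.I.τ j (dn x.1) ∈ K := (P.I.strip j hj _ h).1 (P.S_fin x.2 h0).1

lemma mem_AB : x ∈ P.pA x₀ hj ∪ P.pB x₀ hj ↔
    0 < x.1.2.1 ∧ ((dn x.1).1 - 4 * j) ^ 2 < 25 / 4 := by
  rw [mem_union, mem_pA, mem_pB, ← and_or_left, ← and_or_left]
  exact and_congr_right fun h0 =>
    ⟨fun h => h.1, fun h => ⟨h, k_cover (P.memK hj h0 h) (by rwa [P.I.τ_fst])⟩⟩

lemma pA_open : IsOpen (P.pA x₀ hj) := Chart.pc_open _ _ (St_open _)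
lemma pB_open : IsOpen (P.pB x₀ hj) := Chart.pc_open _ _ (St_open _)
lemma Fn_open : IsOpen P.Fn := isOpen_lt (by fun_prop) (by fun_prop)
lemma N1_open : IsOpen (P.N1 x₀) := Chart.pc_open _ _ P.n1.oW
lemma N2_open : IsOpen (P.N2 x₀) := Chart.pc_open _ _ P.n2.oW

/-- Gluing along the strips. -/
lemma Fn_ind (Φ : Set P.S → Prop)
    (gl : ∀ U V, IsOpen U → IsOpen V → Φ U → Φ V → IsPathConnected (U ∩ V) → Φ (U ∪ V))
    (cv : ∀ (C : Chart P.S), Convex ℝ C.W → C.W.Nonempty → Φ (C.pc x₀ C.W))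
    (hT : ∀ j (hj : j < n), Φ (P.pA x₀ hj ∪ P.pB x₀ hj)) : Φ P.Fn := by
  have ind : ∀ m ≤ n, IsOpen (P.Hf m) ∧ Φ (P.Hf m) := by
    intro m
    induction m with
    | zero =>
      have e : P.Hf 0 = (P.up P.I.cL).pc x₀ (P.up P.I.cL).W := by
        ext x; rw [mem_pc_W]; simp [Hf, up, Inn.cL, Inn.cG, Hp]
      rw [e]
      exact fun _ => ⟨Chart.pc_open _ _ (Chart.oW _),
        cv _ (Hp_convex _ _ _) ⟨(-2, 0), by norm_num [up, Inn.cL, Inn.cG, Hp]⟩⟩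
    | succ m ih =>
      intro hm
      obtain ⟨h1, h2⟩ := ih (by omega)
      have e : P.Hf (m + 1) = P.Hf m ∪ (P.pA x₀ hm ∪ P.pB x₀ hm) := by
        ext x
        rw [mem_union, mem_AB]
        simp only [Hf, mem_ofPred_eq, ← and_or_left]
        push_cast
        refine and_congr_right fun _ => ⟨fun h => ?_, fun h => h.elim (fun h => by linarith)
          fun h => by nlinarith⟩
        by_contra! h3
        nlinarith [h3.1, h3.2]
      have o := (P.pA_open x₀ hm).union (P.pB_open x₀ hm)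
      rw [e]
      refine ⟨h1.union o, gl _ _ h1 o h2 (hT m hm) ?_⟩
      convert (P.up (P.I.cA hm)).pc_pc x₀ inter_subset_left (((St_convex (25 / 4)).inter
        (Hp_convex 1 0 (-(3 / 2)))).isPathConnected ⟨(-2, 0), by norm_num [St, Hp]⟩) using 1
      ext x
      rw [mem_inter_iff, mem_AB]
      have t1 := P.I.τ_fst m (dn x.1)
      constructor
      · rintro ⟨⟨h0, h3⟩, -, h4⟩
        have h5 : (P.I.τ m (dn x.1)).1 < -(3 / 2) := by linarith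
        have h6 : (P.I.τ m (dn x.1)).1 ^ 2 < 25 / 4 := by rwa [t1]
        exact ⟨⟨h0, h4, kA_of_ne (P.memK hm h0 h4) h6 (by linarith)⟩, h6,
          by simpa [Hp, up, Inn.cA, Inn.mv, kA] using h5⟩
      · rintro ⟨⟨h0, h3, -⟩, -, h4⟩
        have h5 : (P.I.τ m (dn x.1)).1 < -(3 / 2) := by
          simpa [Hp, up, Inn.cA, Inn.mv, kA] using h4
        exact ⟨⟨h0, by linarith⟩, h0, h3⟩
  obtain ⟨h1, h2⟩ := ind n le_rfl
  have e : ∀ x, x ∈ (P.up P.I.cR).pc x₀ (P.up P.I.cR).W ↔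
      0 < x.1.2.1 ∧ 4 * n - 5 / 2 < (dn x.1).1 := fun x => by
    rw [mem_pc_W]
    simp only [up, Inn.cR, Inn.cG, Hp, mem_inter_iff, mem_ofPred_eq, mem_preimage]
    exact and_congr_right fun _ => ⟨fun h => by linarith, fun h => by linarith⟩
  convert gl _ _ h1 (Chart.pc_open _ _ (Chart.oW _)) h2 (cv (P.up P.I.cR) (Hp_convex _ _ _)
    ⟨(4 * n, 0), by norm_num [up, Inn.cR, Inn.cG, Hp]⟩) ?_ using 1
  · ext x
    rw [mem_union, e]
    simp only [Fn, Hf, mem_ofPred_eq, ← and_or_left]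
    exact (and_iff_left (by by_contra! h; linarith [h.1, h.2])).symm
  · convert (P.up P.I.cR).pc_pc x₀ inter_subset_left (((Hp_convex (-1) 0 (5 / 2 - 4 * n)).inter
      (Hp_convex 1 0 (4 * n - 3 / 2))).isPathConnected ⟨(4 * n - 2, 0), by
        simp only [Hp, mem_inter_iff, mem_ofPred_eq]; constructor <;> linarith⟩) using 1
    ext x
    constructor
    · rintro ⟨h3, h4⟩
      exact ⟨h4.1, h4.2, by simpa [Hp, up, Inn.cR, Inn.cG] using h3.2⟩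
    · rintro ⟨h3, h4, h5⟩
      exact ⟨⟨h3.1, by simpa [Hp, up, Inn.cR, Inn.cG] using h5⟩, h3, h4⟩

lemma τ_dn (j : ℕ) {x : E7} (h : 0 < x.2.1) :
    x.1.1 - 4 * j * x.2.1 = (P.I.τ j (dn x)).1 * x.2.1 ∧
      x.1.2.1 - P.I.o j * x.2.1 = (P.I.τ j (dn x)).2.1 * (P.I.μ j * x.2.1) := by
  have := (P.I.μ_pos j).ne'
  simp only [P.I.τ_fst, P.I.τ_snd, dn]
  refine ⟨?_, ?_⟩ <;> field_simp

lemma τ_cont : ContinuousOn (fun x : P.S => (P.I.τ j (dn x.1)).2.2.2) (P.pA x₀ hj) := by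
  have h1 : ContinuousOn (fun x : P.S => dn x.1) (P.pA x₀ hj) := by
    have h : ∀ x ∈ P.pA x₀ hj, x.1.2.1 ≠ 0 := fun x hx => ne_of_gt hx.1.1
    unfold dn
    fun_prop (disch := assumption)
  exact ((P.I.τ_smooth j hj).continuousOn.comp h1 fun x hx => hx.1.2.1).snd.snd.snd

lemma lo_cap : IsPathConnected (P.pA x₀ hj ∪ P.pB x₀ hj) ∧ ∃ L : Lo P.S,
    (∀ c : Cocycle P.S, L.ok c → c.Triv (P.pA x₀ hj ∪ P.pB x₀ hj)) ∧
    (∀ c : Cocycle P.S, c.Triv (P.pA x₀ hj ∪ P.pB x₀ hj) → L.ok c) ∧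
    ∃ c : Cocycle P.S, ¬ L.ok c ∧
      ∀ i (hi : i < n), i ≠ j → c.Triv (P.pA x₀ hi ∪ P.pB x₀ hi) := by
  have sgn : ∀ (a : ℝ) (x : P.S), x ∈ (P.up (P.I.cB hj)).pc x₀ (St 4 ∩ Hp a 0 0) ↔
      x ∈ P.pB x₀ hj ∧ a * (P.I.τ j (dn x.1)).2.2.2 < 0 := fun a x => by
    have e : x ∈ (P.up (P.I.cB hj)).pc x₀ (St 4 ∩ Hp a 0 0) ↔ x ∈ P.pB x₀ hj ∧
        a * (kB.ρ (P.I.τ j (dn x.1))).1 + 0 * (kB.ρ (P.I.τ j (dn x.1))).2 < 0 :=
      and_assoc.symm
    rw [e]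
    refine and_congr_right fun h => ?_
    simp only [kB, zero_mul, add_zero]
    rw [← mul_div_assoc, div_lt_iff₀ h.1.2.2.2.1, zero_mul, mul_left_comm, ← neg_pos, ← mul_neg,
      mul_pos_iff_of_pos_left (by positivity), neg_pos]
  obtain ⟨h1, L, h2, h3, h4⟩ := exists_lo (P.pA_open x₀ hj) (P.pB_open x₀ hj)
    (Chart.pc_pc _ _ Subset.rfl ((St_convex _).isPathConnected ⟨0, by norm_num [St]⟩))
    (Chart.pc_pc _ _ Subset.rfl ((St_convex _).isPathConnected ⟨0, by norm_num [St]⟩))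
    ((P.up (P.I.cB hj)).pc_pc x₀ (W := St 4 ∩ Hp (-1) 0 0) inter_subset_left (((St_convex 4).inter
      (Hp_convex (-1) 0 0)).isPathConnected ⟨(1, 0), by norm_num [St, Hp]⟩))
    ((P.up (P.I.cB hj)).pc_pc x₀ (W := St 4 ∩ Hp 1 0 0) inter_subset_left (((St_convex 4).inter
      (Hp_convex 1 0 0)).isPathConnected ⟨(-1, 0), by norm_num [St, Hp]⟩))
    (by
      ext x
      rw [mem_union, sgn, sgn, ← and_or_left, mem_inter_iff, and_comm]
      refine and_congr_right fun h => ?_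
      rw [mem_pA, and_iff_right (show 0 < x.1.2.1 from h.1.1),
        and_iff_right (show ((dn x.1).1 - 4 * j) ^ 2 < 25 / 4 from h.1.2.1),
        kB_A (P.memK hj h.1.1 h.1.2.1) h.1.2.2, ne_iff_lt_or_gt, or_comm]
      simp)
    (f := fun x : P.S => (P.I.τ j (dn x.1)).2.2.2)
    (fun x hx => by linarith [((sgn _ _).1 hx).2])
    (fun x hx => by linarith [((sgn _ _).1 hx).2])
  refine ⟨h1, L, fun c => h2 c (Chart.pc_triv _ _ c Subset.rfl (St_convex _))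
    (Chart.pc_triv _ _ c Subset.rfl (St_convex _)), h3, ?_⟩
  let E : Set P.S := {x | x.1.1.1 - 4 * j * x.1.2.1 = 0 ∧ x.1.1.2.1 - P.I.o j * x.1.2.1 = 0 ∧
    x.1.2.2.1 + x.1.2.2.2 ≤ ((4 * j) ^ 2 + P.I.o j ^ 2) * x.1.2.1}
  have cE : IsClosed E := by
    refine IsClosed.and (isClosed_eq ?_ ?_) (IsClosed.and (isClosed_eq ?_ ?_) (isClosed_le ?_ ?_)) <;>
      fun_prop
  have hμ := P.I.μ_pos j
  have mE : ∀ x : P.S, 0 < x.1.2.1 → (P.I.τ j (dn x.1)).1 = 0 →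
      (P.I.τ j (dn x.1)).2.1 = 0 → x ∈ E := fun x h0 a b => by
    refine ⟨by rw [(P.τ_dn j h0).1, a, zero_mul], by rw [(P.τ_dn j h0).2, b, zero_mul], ?_⟩
    rw [← (P.S_fin x.2 h0).2]
    generalize dn x.1 = y at *
    rw [P.I.τ_fst, sub_eq_zero] at a
    rw [P.I.τ_snd, div_eq_zero_iff, or_iff_left hμ.ne', sub_eq_zero] at b
    simp only [lf, a, b, mul_one_div, ← add_div]
    exact le_rfl
  have fA : ∀ x ∈ Eᶜ, x ∈ P.pA x₀ hj → (P.I.τ j (dn x.1)).1 ≠ 0 := fun x hx h a =>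
    hx (mE x h.1.1 a (kA_ne (P.memK hj h.1.1 h.1.2.1) h.1.2.2 a))
  have fB : ∀ x ∈ Eᶜ, x ∈ P.pB x₀ hj → (P.I.τ j (dn x.1)).2.1 ≠ 0 := fun x hx h a =>
    hx (mE x h.1.1 (kB_ne (P.memK hj h.1.1 h.1.2.1) h.1.2.2 a) a)
  obtain ⟨c, u, v, w, c1, c2, c3, -, c4⟩ := exists_cocycle_three' cE.isOpen_compl
    (P.pA_open x₀ hj) (P.pB_open x₀ hj)
    (fun x => or_iff_not_imp_left.2 fun hx => by
      obtain ⟨a, -, b⟩ := not_not.1 hx
      obtain ⟨y, -, -, e⟩ := P.S_near x.2 b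
      have h0 : 0 < x.1.2.1 := e ▸ P.lf_pos y
      rw [(P.τ_dn j h0).1, mul_eq_zero, or_iff_left h0.ne', P.I.τ_fst] at a
      exact (P.mem_AB x₀ hj).2 ⟨h0, by rw [a]; norm_num⟩)
    (f := fun x : P.S => x.1.1.1 - 4 * j * x.1.2.1)
    (g := fun x : P.S => x.1.1.2.1 - P.I.o j * x.1.2.1)
    (k := fun x : P.S => (P.I.τ j (dn x.1)).2.2.2)
    (by fun_prop) (by fun_prop) ((P.τ_cont x₀ hj).mono inter_subset_left)
    (fun x hx h => by rw [(P.τ_dn j h.1.1).1]; exact mul_ne_zero (fA x hx h) (ne_of_gt h.1.1))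
    (fun x hx h => by
      rw [(P.τ_dn j h.1.1).2]; exact mul_ne_zero (fB x hx h) (ne_of_gt (mul_pos hμ h.1.1)))
    (fun x hx h => (kB_A (P.memK hj h.1.1 h.1.2.1) h.1.2.2).1 hx.1.2.2)
    (fun x hx h h' => by
      have h0 : 0 < x.1.2.1 := h.1.1
      have := mul_pos (K_sign (P.memK hj h0 h.1.2.1) (fA x hx h) (fB x hx h'))
        (mul_pos h0 (mul_pos hμ h0))
      rw [(P.τ_dn j h0).1, (P.τ_dn j h0).2]
      linarith)
  refine ⟨c, h4 c v w c2 c3 c4, fun i hi hij => ⟨u, c1.mono fun x hx hE => ?_⟩⟩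
  obtain ⟨h0, h5⟩ := (P.mem_AB x₀ hi).1 hx
  have h6 : 2 < ((dn x.1).1 - 4 * j) ^ 2 := far_of_ne hij.symm (y := dn x.1) h5
  have h7 := hE.1
  rw [(P.τ_dn j h0).1, mul_eq_zero, or_iff_left h0.ne', P.I.τ_fst] at h7
  rw [h7] at h6
  norm_num at h6

lemma J_of {x : P.S} (h : x ∈ P.N1 x₀ ∨ x ∈ P.N2 x₀) :
    ∃ s : R3, 0 < s.1 ^ 2 + s.2.1 ^ 2 ∧ x.1 = P.J s :=
  have h' := h.imp (·.1.1) (·.1.1)
  P.M_J_of (P.far_of x.2 h') h'

lemma N1_Fn {x : P.S} {w : R2} (e : x.1 = P.J (1, w.1, w.2)) : x ∈ P.Fn ↔ w.2 ≠ 0 := by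
  have hD := P.D_pos (s := (1, w.1, w.2)) (by positivity)
  simp only [Fn, mem_ofPred_eq, e, Par.J, lt_div_iff₀ hD, zero_mul, sq_pos_iff]

lemma N2_inter : IsPathConnected ((P.Fn ∪ P.N1 x₀) ∩ P.N2 x₀) := by
  have key : ∀ x : P.S, ∀ w : R2, x.1 = P.J (w.1, 1, w.2) → (x ∈ P.Fn ∪ P.N1 x₀ ↔
      w ∈ Hp 0 (-1) 0 ∪ Hp (-1) 0 0 ∪ Hp 0 1 0 ∪ Hp 1 0 0) := by
    intro x w e
    have hD := P.D_pos (s := (w.1, 1, w.2)) (by positivity)
    have h1 : x ∈ P.Fn ↔ w.2 ≠ 0 := by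
      simp only [Fn, mem_ofPred_eq, e, Par.J, lt_div_iff₀ hD, zero_mul, sq_pos_iff]
    have h2 : w ∈ Hp 0 (-1) 0 ∪ Hp (-1) 0 0 ∪ Hp 0 1 0 ∪ Hp 1 0 0 ↔ w.2 ≠ 0 ∨ w.1 ≠ 0 := by
      simp only [Hp, mem_union, mem_ofPred_eq, ne_iff_lt_or_gt, zero_mul, one_mul, neg_mul,
        zero_add, add_zero, neg_lt_zero]
      tauto
    rw [mem_union, h1, h2]
    refine or_congr_right' fun h0 => ?_
    rw [not_not] at h0
    constructor
    · intro h h3
      have : 0 < x.1.2.2.1 := h.1.2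
      simp [e, Par.J, h3] at this
    · intro h3
      have : 0 < w.1 ^ 2 / P.D (w.1, 1, w.2) := by positivity
      exact (mem_pc_W P.n1 x₀).2
        ⟨by simpa [e, Par.J, h0] using this, by simpa [e, Par.J] using this⟩
  convert P.n2.pc_pc x₀ inter_subset_left P.pc_punct using 1
  ext x
  constructor
  · rintro ⟨h1, h2⟩
    obtain ⟨w, hw, -, e⟩ := Chart.pc_param _ _ h2
    exact Chart.mem_pc_of _ _ hw ⟨hw, (key x w e).1 h1⟩ e
  · intro h
    obtain ⟨w, hw, hw', e⟩ := Chart.pc_param _ _ h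
    exact ⟨(key x w e).2 hw'.2, Chart.mem_pc_of _ _ hw hw e⟩

lemma all_eq : P.Fn ∪ P.N1 x₀ ∪ P.N2 x₀ = univ :=
  eq_univ_of_forall fun x => (P.inf_cov x.2).elim (fun h => Or.inl (Or.inl h)) fun h =>
    h.elim (fun h => Or.inl (Or.inr ((mem_pc_W _ _).2 h))) fun h => Or.inr ((mem_pc_W _ _).2 h)

lemma lo_inf (pF : IsPathConnected P.Fn) : IsPathConnected (univ : Set P.S) ∧ ∃ L : Lo P.S,
    (∀ c : Cocycle P.S, c.Triv P.Fn → L.ok c → c.Triv univ) ∧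
    (∀ c : Cocycle P.S, c.Triv (P.Fn ∪ P.N1 x₀) → L.ok c) ∧
    ∃ c : Cocycle P.S, ¬ L.ok c ∧ c.Triv P.Fn := by
  have hb : 0 < P.b + 2 := by linarith [P.b_ge]
  have t1 : (P.b + 2) * (P.b + 2)⁻¹ ^ 2 < 1 := by
    rw [sq, ← mul_assoc, mul_inv_cancel₀ hb.ne', one_mul]
    exact inv_lt_one_of_one_lt₀ (by linarith [P.b_ge])
  have pN : ∀ C : Chart P.S, C.W = {w : R2 | (P.b + 2) * w.2 ^ 2 < 1} →
      IsPathConnected (C.pc x₀ C.W) ∧ ∀ c : Cocycle P.S, c.Triv (C.pc x₀ C.W) := fun C e =>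
    ⟨C.pc_pc _ Subset.rfl (e ▸ P.strip_convex.isPathConnected ⟨(0, 0), by simp⟩),
      fun c => C.pc_triv _ c Subset.rfl (e ▸ P.strip_convex)⟩
  have sgn : ∀ (a : ℝ) (x : P.S), x ∈ P.n1.pc x₀ (P.n1.W ∩ Hp 0 a 0) ↔
      x ∈ P.N1 x₀ ∧ a * x.1.1.1 < 0 := fun a x => by
    have e : x ∈ P.n1.pc x₀ (P.n1.W ∩ Hp 0 a 0) ↔ x ∈ P.N1 x₀ ∧
        0 * (x.1.1.2.2.2 / (2 * x.1.2.2.1)) + a * (x.1.1.1 / x.1.2.2.1) < 0 := and_assoc.symm
    rw [e]
    refine and_congr_right fun h => ?_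
    rw [zero_mul, zero_add, ← mul_div_assoc, div_lt_iff₀ h.1.2, zero_mul]
  have f0 : ∀ x ∈ P.N1 x₀, x ∈ P.Fn ↔ x.1.1.1 ≠ 0 := fun x h => by
    obtain ⟨w, -, -, e⟩ := Chart.pc_param _ _ h
    have hD := P.D_pos (s := (1, w.1, w.2)) (by positivity)
    rw [P.N1_Fn e, show x.1 = P.J (1, w.1, w.2) from e]
    simp [Par.J, hD.ne']
  obtain ⟨h1, L, h2, h3, h4⟩ := exists_lo P.Fn_open (P.N1_open x₀) pF (pN P.n1 rfl).1
    (P.n1.pc_pc x₀ (W := P.n1.W ∩ Hp 0 (-1) 0) inter_subset_left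
      ((P.strip_convex.inter (Hp_convex 0 (-1) 0)).isPathConnected
        ⟨(0, (P.b + 2)⁻¹), t1, by simpa [Hp] using hb⟩))
    (P.n1.pc_pc x₀ (W := P.n1.W ∩ Hp 0 1 0) inter_subset_left
      ((P.strip_convex.inter (Hp_convex 0 1 0)).isPathConnected
        ⟨(0, -(P.b + 2)⁻¹), by simpa using t1, by simpa [Hp] using hb⟩))
    (by
      ext x
      rw [mem_union, sgn, sgn, ← and_or_left, mem_inter_iff, and_comm]
      refine and_congr_right fun h => ?_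
      rw [f0 x h, ne_iff_lt_or_gt, or_comm]
      simp)
    (f := fun x : P.S => x.1.1.1) (fun x hx => by linarith [((sgn _ _).1 hx).2])
    (fun x hx => by linarith [((sgn _ _).1 hx).2])
  have e := P.all_eq x₀
  obtain ⟨c, u, v, w, c1, c2, -, c4, -⟩ := exists_cocycle_three P.Fn_open (P.N1_open x₀)
    (P.N2_open x₀) (fun x => by simpa only [mem_union, or_assoc] using e.ge (mem_univ x))
    (f := fun x : P.S => x.1.1.1) (g := fun x : P.S => x.1.1.2.1)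
    (k := fun x : P.S => x.1.1.2.2.2) (by fun_prop) (by fun_prop) (by fun_prop)
    (fun x hx h => (f0 x h).1 hx)
    (fun x hx h => by
      obtain ⟨s, hs, e⟩ := P.J_of x₀ (Or.inr h)
      have a : 0 < x.1.2.1 := hx
      have b : 0 < x.1.2.2.2 := h.1.2
      have hD := P.D_pos hs
      simp only [e, Par.J, div_pos_iff_of_pos_right hD, sq_pos_iff] at a b ⊢
      positivity)
    (fun x hx h => by
      obtain ⟨s, hs, e⟩ := P.J_of x₀ (Or.inr h)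
      have a : 0 < x.1.2.2.1 := hx.1.2
      have b : 0 < x.1.2.2.2 := h.1.2
      have hD := P.D_pos hs
      simp only [e, Par.J, div_pos_iff_of_pos_right hD, sq_pos_iff] at a b ⊢
      positivity)
    (fun x hx h h' => by
      obtain ⟨s, hs, e⟩ := P.J_of x₀ (Or.inl h)
      have a : 0 < x.1.2.1 := hx
      have b : 0 < x.1.2.2.1 := h.1.2
      have d : 0 < x.1.2.2.2 := h'.1.2
      have hD := P.D_pos hs
      simp only [e, Par.J, div_pos_iff_of_pos_right hD, sq_pos_iff] at a b d ⊢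
      rw [show s.1 * s.2.2 / P.D s * (s.2.1 * s.2.2 / P.D s) * (2 * s.1 * s.2.1 / P.D s) =
        2 * (s.1 * s.2.1 * s.2.2) ^ 2 / P.D s ^ 3 by field_simp]
      positivity)
  refine ⟨e ▸ h1.union (pN P.n2 rfl).1 (P.N2_inter x₀).nonempty, L, fun c a b => ?_, h3,
    c, h4 c u v c1 c2 c4, u, c1⟩
  exact e ▸ (h2 c a ((pN P.n1 rfl).2 c) b).glue1 (P.Fn_open.union (P.N1_open x₀)) (P.N2_open x₀)
    ((pN P.n2 rfl).2 c) (P.N2_inter x₀)

theorem count : ∃ _ : PathConnectedSpace P.S,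
    Nat.card (FundamentalGroup P.S x₀ →* Multiplicative (ZMod 2)) = 2 ^ (n + 1) := by
  choose pT L l1 l2 l3 using fun j : Fin n => P.lo_cap x₀ j.2
  obtain ⟨pU, L', m1, -, c, m2, m3⟩ := P.lo_inf x₀ (P.Fn_ind x₀ IsPathConnected
    (fun U V _ _ a b h => a.union b h.nonempty)
    (fun C a b => C.pc_pc _ Subset.rfl (a.isPathConnected b)) fun j hj => pT ⟨j, hj⟩)
  have inst : PathConnectedSpace P.S := pathConnectedSpace_iff_univ.2 pU
  refine ⟨inst, (card_hom x₀ L L' (fun c a b => m1 c (P.Fn_ind x₀ c.Triv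
    (fun U V o o' a b h => a.glue1 o o' b h) (fun C a _ => C.pc_triv _ c Subset.rfl a)
    fun j hj => l1 ⟨j, hj⟩ c (a _)) b) (fun j => ?_) ⟨c, m2, fun j => l2 j c (m3.mono
      fun x hx => ((P.mem_AB x₀ j.2).1 hx).1)⟩).trans (by rw [Fintype.card_fin])⟩
  obtain ⟨c, a, b⟩ := l3 j
  exact ⟨c, a, fun i hi => l2 i c (b i i.2 (Fin.val_ne_of_ne hi))⟩

open Real in
/-- A Möbius band along the curve at infinity. -/
theorem mobius : ∃ g : ℝ × ℝ → P.S, Continuous g ∧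
    ∀ p q, g p = g q ↔ ∃ m : ℤ, q = (p.1 + m, (-1) ^ m * p.2) := by
  have hb : 2 ≤ P.b + 2 := by linarith [P.b_ge]
  let s : ℝ × ℝ → R3 := fun p => (cos (π * p.1), sin (π * p.1), arctan p.2 / (2 * (P.b + 2)))
  have s1 : ∀ p, (s p).1 ^ 2 + (s p).2.1 ^ 2 = 1 := fun p => cos_sq_add_sin_sq _
  have s0 : ∀ p, 0 < (s p).1 ^ 2 + (s p).2.1 ^ 2 := fun p => by rw [s1]; norm_num
  have mem : ∀ p, P.J (s p) ∈ P.S := fun p => P.J_mem' (s0 p) (by
    have h1 := arctan_lt_pi_div_two p.2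
    have h2 := neg_pi_div_two_lt_arctan p.2
    have h3 := pi_le_four
    rw [s1, show (P.b + 2) * (s p).2.2 ^ 2 = arctan p.2 ^ 2 / (4 * (P.b + 2)) by
      simp only [s]; field_simp; ring, div_le_one (by positivity)]
    nlinarith)
  refine ⟨fun p => ⟨_, mem p⟩, Continuous.subtype_mk ?_ _, fun p q => ⟨fun h => ?_, ?_⟩⟩
  · have hD : ∀ p, P.D (s p) ≠ 0 := fun p => (P.D_pos (s0 p)).ne'
    have hs : Continuous s := by simp only [s]; fun_prop
    have hc : Continuous fun p => P.D (s p) := by unfold Par.D; fun_prop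
    unfold Par.J
    fun_prop (disch := assumption)
  · have h := congrArg Subtype.val h
    have a1 := s1 p
    have a2 := s1 q
    have d1 := P.D_pos (s0 p)
    have d2 := P.D_pos (s0 q)
    simp only [Par.J, Prod.mk.injEq] at h
    obtain ⟨⟨e1, e2, -, e4⟩, -, e6, e7⟩ := h
    have eD : P.D (s p) = P.D (s q) := by
      have : 1 / P.D (s p) = 1 / P.D (s q) := by rw [← a1, add_div, e6, e7, ← add_div, a2, a1]
      simpa using this
    rw [eD, div_left_inj' d2.ne'] at e1 e2 e4 e6 e7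
    obtain ⟨m, hm⟩ := sin_eq_zero_iff.1 (show sin (π * q.1 - π * p.1) = 0 by
      rw [sin_sub, ← sq_eq_zero_iff]
      change ((s q).2.1 * (s p).1 - (s q).1 * (s p).2.1) ^ 2 = 0
      linear_combination (-(s q).1 * (s q).2.1) * e4 + (s q).2.1 ^ 2 * e6 + (s q).1 ^ 2 * e7)
    have hq : q.1 = p.1 + m := by
      have := pi_pos
      refine mul_left_cancel₀ pi_pos.ne' ?_
      linarith
    have hc : (s q).1 = (-1) ^ m * (s p).1 := by
      simp only [s, hq, mul_add, mul_comm π m, cos_add_int_mul_pi]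
    have hs : (s q).2.1 = (-1) ^ m * (s p).2.1 := by
      simp only [s, hq, mul_add, mul_comm π m, sin_add_int_mul_pi]
    have hz : (s p).2.2 = (-1) ^ m * (s q).2.2 := by
      rw [hc] at e1
      rw [hs] at e2
      linear_combination (s p).1 * e1 + (s p).2.1 * e2 -
        ((s p).2.2 - (-1) ^ m * (s q).2.2) * a1
    refine ⟨m, Prod.ext hq (arctan_injective ?_)⟩
    simp only [s, ← mul_div_assoc, div_left_inj' (show 2 * (P.b + 2) ≠ 0 by positivity)] at hz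
    rcases Int.even_or_odd m with h | h <;> simp [h.neg_one_zpow, arctan_neg] at hz ⊢ <;> linarith
  · rintro ⟨m, rfl⟩
    refine Subtype.ext ?_
    change P.J (s p) = P.J (s _)
    rw [← P.J_smul (Par.ne_zero_of_pos (s0 p)) (c := (-1) ^ m) (by positivity)]
    congr 1
    simp only [s, mul_add, mul_comm π m, cos_add_int_mul_pi, sin_add_int_mul_pi]
    rcases Int.even_or_odd m with h | h <;> simp [h.neg_one_zpow, arctan_neg, neg_div]

theorem main :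
    letI := charted (fun C : {C : Chart P.S // P.Imm C} => C.1) x₀ P.cover
    IsManifold (𝓡 2) ∞ P.S ∧ CompactSpace P.S ∧ ConnectedSpace P.S ∧
      ContMDiff (𝓡 2) 𝓘(ℝ, EuclideanSpace ℝ (Fin 4)) ∞
        (fun x : P.S => c4 (ContinuousLinearMap.fst ℝ R4 R3 x)) ∧
      Topology.IsEmbedding (fun x : P.S => c4 (ContinuousLinearMap.fst ℝ R4 R3 x)) ∧
      (∀ x : P.S, Function.Injective (mfderiv (𝓡 2) 𝓘(ℝ, EuclideanSpace ℝ (Fin 4))
        (fun x : P.S => c4 (ContinuousLinearMap.fst ℝ R4 R3 x)) x)) ∧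
      (∀ x : P.S, Nat.card (FundamentalGroup P.S x →* Multiplicative (ZMod 2)) = 2 ^ (n + 1)) ∧
      (∃ g : ℝ × ℝ → P.S, Continuous g ∧
        ∀ p q, g p = g q ↔ ∃ m : ℤ, q = (p.1 + m, (-1) ^ m * p.2)) ∧
      ∀ (u : EuclideanSpace ℝ (Fin 4)) (c : ℝ),
        IsPreconnected ((fun x : P.S => c4 (ContinuousLinearMap.fst ℝ R4 R3 x)) ⁻¹'
          {y : EuclideanSpace ℝ (Fin 4) | inner ℝ u y ≤ c}) := by
  let _ := charted (fun C : {C : Chart P.S // P.Imm C} => C.1) x₀ P.cover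
  obtain ⟨h1, h2, h3⟩ := package' (fun C : {C : Chart P.S // P.Imm C} => C.1) x₀ P.cover
    (ContinuousLinearMap.fst ℝ R4 R3) fun C => C.2
  obtain ⟨inst, -⟩ := P.count x₀
  have hc : CompactSpace P.S := isCompact_iff_compactSpace.1 P.isCompact_S
  have finj : Function.Injective fun x : P.S => c4 (ContinuousLinearMap.fst ℝ R4 R3 x) :=
    fun x y h => Subtype.ext (P.inj x.2 y.2 (by simpa only [d4_c4] using congrArg d4 h))
  refine ⟨h1, hc, inferInstance, h2, (h2.continuous.isClosedEmbedding finj).isEmbedding, h3,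
    fun x => (P.count x).2, P.mobius, fun u c => ?_⟩
  convert P.tpp' (u 0, u 1, u 2, u 3) c using 1
  ext x
  simp only [mem_preimage, mem_ofPred_eq, inner_c4, ht]

end Cr

end Pool.Agent.P.MP_06bfdf_gt.Y
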