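import Pool.Agent.P.MP_06bfdf_gt.X.Cnt

/-! An abstract parabola surface with cross-caps, one in each vertical strip. -/

open Set Topology Filter
open scoped ContDiff

namespace Pool.Agent.P.MP_06bfdf_gt.Y

open X

/-- A surface that is the parabola far out and looks like `K` in each strip. -/
structure Inn (n : ℕ) where
  Sg : Set R4
  c0 : ℝ
  τ : ℕ → R4 → R4
  σ : ℕ → R4 → R4
  Φ : R2 → R2
  μ : ℕ → ℝ
  o : ℕ → ℝ
  n_pos : 0 < n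
  far : ∀ y, c0 ≤ nq y → (y ∈ Sg ↔ Pb y)
  cpt : ∀ r, IsCompact (Sg ∩ {y | nq y ≤ r})
  saddle : ∀ a, ∀ y ∈ Sg, ¬ Slm Sg a y
  μ_pos : ∀ j, 0 < μ j
  τ_fst : ∀ (j : ℕ) (y : R4), (τ j y).1 = y.1 - 4 * j
  τ_snd : ∀ (j : ℕ) (y : R4), (τ j y).2.1 = (y.2.1 - o j) / μ j
  τ_smooth : ∀ j < n, ContDiffOn ℝ ∞ (τ j) {y : R4 | (y.1 - 4 * j) ^ 2 < 25 / 4}
  σ_smooth : ∀ j < n, ContDiffOn ℝ ∞ (σ j) {y : R4 | y.1 ^ 2 < 25 / 4}
  τσ : ∀ j < n, ∀ y : R4, y.1 ^ 2 < 25 / 4 → τ j (σ j y) = y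
  στ : ∀ j < n, ∀ y : R4, (y.1 - 4 * j) ^ 2 < 25 / 4 → σ j (τ j y) = y
  strip : ∀ j < n, ∀ y : R4, (y.1 - 4 * j) ^ 2 < 25 / 4 → (y ∈ Sg ↔ τ j y ∈ K)
  Φ_smooth : ContDiffOn ℝ ∞ Φ {w | w.1 ≠ 0}
  side : ∀ y : R4, y.1 < -(3 / 2) ∨ 4 * n - 5 / 2 < y.1 → (y ∈ Sg ↔ y.2.2 = Φ (y.1, y.2.1))

namespace Inn

variable {n : ℕ} (I : Inn n)

lemma σ_fst {j : ℕ} (hj : j < n) {y : R4} (h : y.1 ^ 2 < 25 / 4) : (I.σ j y).1 = y.1 + 4 * j := by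
  have := I.τ_fst j (I.σ j y)
  rw [I.τσ j hj y h] at this
  linarith

lemma σ_snd {j : ℕ} (hj : j < n) {y : R4} (h : y.1 ^ 2 < 25 / 4) :
    (I.σ j y).2.1 = I.μ j * y.2.1 + I.o j := by
  have := I.τ_snd j (I.σ j y)
  rw [I.τσ j hj y h, eq_div_iff (I.μ_pos j).ne'] at this
  linarith

/-- A chart of the cross-cap moved to its place. -/
noncomputable def mv (C : Chart K) (hC : ∀ y ∈ C.O, y.1 ^ 2 < 25 / 4) {j : ℕ} (hj : j < n) :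
    Chart I.Sg where
  W := C.W
  O := {y : R4 | (y.1 - 4 * j) ^ 2 < 25 / 4} ∩ I.τ j ⁻¹' C.O
  ψ w := I.σ j (C.ψ w)
  ρ y := C.ρ (I.τ j y)
  oW := C.oW
  oO := (I.τ_smooth j hj).continuousOn.isOpen_inter_preimage
    (isOpen_lt (by fun_prop) (by fun_prop)) C.oO
  sψ := (I.σ_smooth j hj).comp C.sψ fun w hw => hC _ (C.mem w hw).2.1
  sρ := C.sρ.comp ((I.τ_smooth j hj).mono inter_subset_left) fun _ hy => hy.2
  mem w hw := by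
    obtain ⟨h1, h2, h3⟩ := C.mem w hw
    have h4 : ((I.σ j (C.ψ w)).1 - 4 * j) ^ 2 < 25 / 4 := by
      rw [I.σ_fst hj (hC _ h2), add_sub_cancel_right]; exact hC _ h2
    rw [I.strip j hj _ h4, mem_inter_iff, mem_preimage, I.τσ j hj _ (hC _ h2)]
    exact ⟨h1, ⟨h4, h2⟩, h3⟩
  inv y hy hO := by
    obtain ⟨h1, h2⟩ := C.inv _ ((I.strip j hj y hO.1).1 hy) hO.2
    exact ⟨h1, by rw [h2, I.στ j hj y hO.1]⟩

/-- The two charts of the cross-cap number `j`. -/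
noncomputable def cA {j : ℕ} (hj : j < n) : Chart I.Sg := I.mv kA (fun _ h => h.1) hj
@[inherit_doc cA]
noncomputable def cB {j : ℕ} (hj : j < n) : Chart I.Sg := I.mv kB (fun _ h => h.1) hj

/-- A chart on the graph part. -/
def cG (W : Set R2) (hW : IsOpen W) (h : ∀ w ∈ W, w.1 < -(3 / 2) ∨ 4 * n - 5 / 2 < w.1) :
    Chart I.Sg where
  W := W
  O := {y | (y.1, y.2.1) ∈ W}
  ψ w := (w.1, w.2, I.Φ w)
  ρ y := (y.1, y.2.1)
  oW := hW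
  oO := hW.preimage (by fun_prop)
  sψ := by
    have : (1 : ℝ) ≤ n := by exact_mod_cast I.n_pos
    refine contDiffOn_fst.prodMk (contDiffOn_snd.prodMk (I.Φ_smooth.mono fun w hw h0 => ?_))
    rcases h w hw with h | h <;> linarith
  sρ := by fun_prop
  mem w hw := ⟨(I.side _ (h w hw)).2 rfl, hw, rfl⟩
  inv y hy hO := ⟨hO, by rw [← (I.side _ (h _ hO)).1 hy]⟩

/-- The left half plane. -/
def cL : Chart I.Sg := I.cG (Hp 1 0 (-(3 / 2))) (Hp_open _ _ _) fun w h =>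
  Or.inl (by simpa [Hp] using h)

/-- The right half plane. -/
def cR : Chart I.Sg := I.cG (Hp (-1) 0 (5 / 2 - 4 * n)) (Hp_open _ _ _) fun w h =>
  Or.inr (by simp only [Hp, mem_ofPred_eq] at h; linarith)

/-- The chart on the far part of the parabola. -/
def cF : Chart I.Sg where
  W := {w | I.c0 < w.1 ^ 2 + w.2 ^ 2}
  O := {y | I.c0 < nq y}
  ψ := pb
  ρ y := (y.1, y.2.1)
  oW := isOpen_lt (by fun_prop) (by fun_prop)
  oO := isOpen_lt (by fun_prop) (by fun_prop)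
  sψ := by unfold pb; fun_prop
  sρ := by fun_prop
  mem w hw := ⟨(I.far (pb w) (le_of_lt hw)).2 (Pb_pb w), hw, rfl⟩
  inv y hy hO := ⟨hO, ((I.far _ (le_of_lt hO)).1 hy).eq⟩

lemma cov {y : R4} (hy : y ∈ I.Sg) :
    y ∈ I.cL.O ∨ y ∈ I.cR.O ∨ ∃ j, ∃ hj : j < n, y ∈ (I.cA hj).O ∨ y ∈ (I.cB hj).O := by
  by_cases h1 : y.1 < 4 * n - 3 / 2
  · rcases strip_cover n h1 with h2 | ⟨j, hj, h2⟩
    · exact Or.inl (by simpa [cL, cG, Hp] using h2)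
    · have h2 : (y.1 - 4 * j) ^ 2 < 25 / 4 := h2
      exact Or.inr (Or.inr ⟨j, hj, (k_cover ((I.strip j hj y h2).1 hy)
        (by rwa [I.τ_fst])).imp (fun h => ⟨h2, h⟩) fun h => ⟨h2, h⟩⟩)
  · exact Or.inr (Or.inl (by simp only [cR, cG, Hp, mem_ofPred_eq]; linarith))

end Inn

/-- All parameters of the closed surface. -/
structure Cr (n : ℕ) extends Par where
  I : Inn n
  c : ℝ
  hca : a ≤ c
  hc0 : I.c0 < c
  hcb : c < b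
  hS : ∀ y ∈ I.Sg, nq y ≤ c → y.2.2.1 ^ 2 + y.2.2.2 ^ 2 < b ^ 2

end Pool.Agent.P.MP_06bfdf_gt.Y
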