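import Pool.Agent.P.MP_06bfdf_gt.Y.Flat
import Pool.Agent.P.MP_06bfdf_gt.Y.Inn

/-! The parabola surface with cross-caps of both kinds. -/

open Set Topology Filter
open scoped ContDiff

namespace Pool.Agent.P.MP_06bfdf_gt.Y

open X

/-- Data of an affine map of 4-space that preserves the vertical planes. -/
structure Af where
  p : ℝ
  μ : ℝ
  o : ℝ
  m1 : ℝ
  m2 : ℝ
  a1 : ℝ
  b1 : ℝ
  c1 : ℝ
  a2 : ℝ
  b2 : ℝ
  c2 : ℝ
  μ_pos : 0 < μ
  m1_pos : 0 < m1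
  m2_ne : m2 ≠ 0

namespace Af

variable (A : Af)

/-- The affine map. -/
def app (y : R4) : R4 := (y.1 + A.p, A.μ * y.2.1 + A.o,
  A.m1 * y.2.2.1 + (A.a1 + A.b1 * y.1 + A.c1 * y.2.1),
  A.m2 * y.2.2.2 + (A.a2 + A.b2 * y.1 + A.c2 * y.2.1))

/-- Its inverse. -/
noncomputable def inv (y : R4) : R4 := (y.1 - A.p, (y.2.1 - A.o) / A.μ,
  (y.2.2.1 - (A.a1 + A.b1 * (y.1 - A.p) + A.c1 * ((y.2.1 - A.o) / A.μ))) / A.m1,
  (y.2.2.2 - (A.a2 + A.b2 * (y.1 - A.p) + A.c2 * ((y.2.1 - A.o) / A.μ))) / A.m2)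

@[fun_prop] lemma app_cont : Continuous A.app := by unfold app; fun_prop
@[fun_prop] lemma inv_cont : Continuous A.inv := by unfold inv; fun_prop

lemma inv_app (y : R4) : A.inv (A.app y) = y := by
  have := A.μ_pos.ne'
  have := A.m1_pos.ne'
  have := A.m2_ne
  simp only [inv, app]
  refine Prod.ext (by simp) (Prod.ext ?_ (Prod.ext ?_ ?_)) <;> simp only <;> field_simp <;> ring

lemma app_inv (y : R4) : A.app (A.inv y) = y := by
  have := A.μ_pos.ne'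
  have := A.m1_pos.ne'
  have := A.m2_ne
  simp only [inv, app]
  refine Prod.ext (by simp) (Prod.ext ?_ (Prod.ext ?_ ?_)) <;> simp only <;> field_simp <;> ring

lemma saddle {S : Set R4} (a : R4) {y : R4} (hy : A.inv y ∈ K)
    (h2 : ∀ᶠ y' in 𝓝 y, A.inv y' ∈ K → y' ∈ S) : ¬ Slm S a y := by
  refine fun h => K_saddle (a.1 + A.b1 * a.2.2.1 + A.b2 * a.2.2.2,
    A.μ * a.2.1 + A.c1 * a.2.2.1 + A.c2 * a.2.2.2, A.m1 * a.2.2.1, A.m2 * a.2.2.2) hy ?_
  have t := A.app_cont.tendsto (A.inv y)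
  rw [A.app_inv] at t
  filter_upwards [t.eventually h, t.eventually h2] with z h3 h4 h5 h6
  have := h3 (h4 (by rwa [A.inv_app])) fun e => h6 (by rw [← e, A.inv_app])
  rw [← A.app_inv y] at this
  simp only [ht, app] at this ⊢
  linarith

/-- The sheared map. -/
def sg (Φ : R2 → R2) (y : R4) : R4 := (y.1 + A.p, A.μ * y.2.1 + A.o,
  (Φ (y.1 + A.p, A.μ * y.2.1 + A.o)).1 + A.m1 * (y.2.2.1 - (y.1 ^ 2 - y.2.1 ^ 2)),
  (Φ (y.1 + A.p, A.μ * y.2.1 + A.o)).2 + A.m2 * (y.2.2.2 - 2 * y.1 * y.2.1))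

/-- Its inverse. -/
noncomputable def ta (Φ : R2 → R2) (y : R4) : R4 := (y.1 - A.p, (y.2.1 - A.o) / A.μ,
  (y.2.2.1 - (Φ (y.1, y.2.1)).1) / A.m1 + ((y.1 - A.p) ^ 2 - ((y.2.1 - A.o) / A.μ) ^ 2),
  (y.2.2.2 - (Φ (y.1, y.2.1)).2) / A.m2 + 2 * (y.1 - A.p) * ((y.2.1 - A.o) / A.μ))

variable (Φ : R2 → R2)

lemma ta_sg (y : R4) : A.ta Φ (A.sg Φ y) = y := by
  have := A.μ_pos.ne'
  have := A.m1_pos.ne'
  have := A.m2_ne
  simp only [ta, sg]
  refine Prod.ext (by simp) (Prod.ext ?_ (Prod.ext ?_ ?_)) <;> simp only <;> field_simp <;> ring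

lemma sg_ta (y : R4) : A.sg Φ (A.ta Φ y) = y := by
  have := A.m1_pos.ne'
  have := A.m2_ne
  simp only [ta, sg, sub_add_cancel, mul_div_cancel₀ _ A.μ_pos.ne']
  refine Prod.ext ?_ (Prod.ext ?_ (Prod.ext ?_ ?_)) <;> simp only <;> field_simp <;> ring

/-- The graph is the image of the parabola near the centre. -/
def Loc : Prop := ∀ η : R2, η.1 ^ 2 + η.2 ^ 2 ≤ 3 → Φ (η.1 + A.p, A.μ * η.2 + A.o) =
  (A.m1 * (η.1 ^ 2 - η.2 ^ 2) + (A.a1 + A.b1 * η.1 + A.c1 * η.2),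
    A.m2 * (2 * η.1 * η.2) + (A.a2 + A.b2 * η.1 + A.c2 * η.2))

variable {A Φ}

lemma Loc.sg_eq (h : A.Loc Φ) {y : R4} (hy : nq y ≤ 3) : A.sg Φ y = A.app y := by
  have := h (y.1, y.2.1) hy
  simp only [sg, app, this]
  refine Prod.ext rfl (Prod.ext rfl (Prod.ext ?_ ?_)) <;> simp only <;> ring

lemma Loc.ta_eq (h : A.Loc Φ) {y : R4} (hy : nq (A.inv y) ≤ 3) : A.ta Φ y = A.inv y := by
  rw [← A.ta_sg Φ (A.inv y), h.sg_eq hy, A.app_inv]

lemma ta_graph {y : R4} (hy : 2 ≤ nq (A.inv y)) : A.ta Φ y ∈ K ↔ y.2.2 = Φ (y.1, y.2.1) := by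
  rw [K_far (y := A.ta Φ y) hy]
  simp only [Pb, ta, add_eq_right, div_eq_zero_iff, A.m1_pos.ne', A.m2_ne, or_false, sub_eq_zero,
    Prod.ext_iff]

lemma ta_smooth {U : Set R4} (h : ContDiffOn ℝ ∞ (fun y : R4 => Φ (y.1, y.2.1)) U) :
    ContDiffOn ℝ ∞ (A.ta Φ) U := by
  obtain ⟨g, hg⟩ : ∃ g : R4 → R2, ∀ y : R4, Φ (y.1, y.2.1) = g y := ⟨_, fun _ => rfl⟩
  unfold ta
  simp only [hg] at h ⊢
  fun_prop

lemma sg_smooth {U : Set R4}
    (h : ContDiffOn ℝ ∞ (fun y : R4 => Φ (y.1 + A.p, A.μ * y.2.1 + A.o)) U) :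
    ContDiffOn ℝ ∞ (A.sg Φ) U := by
  obtain ⟨g, hg⟩ : ∃ g : R4 → R2, ∀ y : R4, Φ (y.1 + A.p, A.μ * y.2.1 + A.o) = g y :=
    ⟨_, fun _ => rfl⟩
  unfold sg
  simp only [hg] at h ⊢
  fun_prop

end Af

/-- The surface with the form of its cores. -/
structure InnE (n : ℕ) extends Inn n where
  A : ℕ → Af
  G : ℕ → ℝ → ℝ
  good : ∀ j, Good (G j)
  core : ∀ j < n, ∀ x u v : ℝ, x ^ 2 * (u ^ 2 + v ^ 2) < 2 →
    σ j (cap x u v) = (A j).app (capG (G j) x u v)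

lemma isCompact_K (r : ℝ) : IsCompact (K ∩ {y | nq y ≤ r}) := by
  obtain ⟨R, h0, h1, h2⟩ : ∃ R : ℝ, 1 ≤ R ∧ r ≤ R ∧ gg r ≤ R :=
    ⟨max 1 (max r (gg r)), le_max_left _ _, le_max_of_le_right (le_max_left _ _),
      le_max_of_le_right (le_max_right _ _)⟩
  refine (isCompact_Icc (a := (-R, -R, -R, -R)) (b := (R, R, R, R))).of_isClosed_subset
    (isClosed_K.inter (isClosed_le (by fun_prop) (by fun_prop))) ?_
  rintro ⟨a, b, c, d⟩ ⟨⟨h3, -⟩, h⟩
  have h4 := (gg_mono h).trans h2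
  have h5 := gg_pos (nq (a, b, c, d))
  have h : a ^ 2 + b ^ 2 ≤ R := le_trans h h1
  generalize gg _ = G at *
  simp only at h3
  have ha := abs_le_of_sq_le_sq' (by nlinarith : a ^ 2 ≤ R ^ 2) (by linarith)
  have hb := abs_le_of_sq_le_sq' (by nlinarith : b ^ 2 ≤ R ^ 2) (by linarith)
  have hc := abs_le_of_sq_le_sq' (by nlinarith : c ^ 2 ≤ R ^ 2) (by linarith)
  have hd := abs_le_of_sq_le_sq' (by nlinarith : d ^ 2 ≤ R ^ 2) (by linarith)
  simp only [mem_Icc, Prod.mk_le_mk, ha, hb, hc, hd, and_self]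

lemma Ph_far {h l : ℝ} (hl : 0 < l) (hh : 5 * l ≤ h) {w : R2} (hw : 9 * h ^ 2 ≤ w.1 ^ 2 + w.2 ^ 2) :
    Ph h l w = (w.1 ^ 2 - w.2 ^ 2, 2 * w.1 * w.2) := by
  have h0 : 0 < h := by linarith
  have h1 : w.1 ^ 2 + w.2 ^ 2 ≠ 0 := ne_of_gt (lt_of_lt_of_le (by positivity) hw)
  rw [Ph, rho_out hl (by nlinarith [sq_nonneg (w.2 - 2 * h), sq_nonneg w.1]), sub_zero, ph,
    Gh_out h0 (by nlinarith), mul_div_cancel_left₀ _ h1, mul_div_cancel_left₀ _ h1]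

/-- Parameters of the construction. -/
structure Pr (n : ℕ) where
  h : ℝ
  l : ℝ
  A : ℕ → Af
  n_pos : 0 < n
  hl : 4 * n + 8 ≤ l
  hh : 5 * l ≤ h
  flat : ∀ (a : R4) (w : R2), w.1 ^ 2 + (w.2 - h) ^ 2 < 3 * l ^ 2 →
    ¬ ∀ᶠ w' in 𝓝 w, w' ≠ w → ht a (w.1, w.2, Ph h l w) < ht a (w'.1, w'.2, Ph h l w')
  hp : ∀ j, (A j).p = 4 * j
  loc : ∀ j < n, j ≠ 0 → (A j).Loc (Ph h l)
  bd : ∀ j < n, ∀ y, nq ((A j).inv y) < 2 → nq y < 36 * h ^ 2

namespace Pr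

variable {n : ℕ} (P : Pr n)

lemma l_pos : 0 < P.l := by have := P.hl; have : (0 : ℝ) ≤ n := n.cast_nonneg; linarith
lemma h_ge : 40 ≤ P.h := by
  have := P.hl; have := P.hh; have : (0 : ℝ) ≤ n := n.cast_nonneg; linarith
lemma h_pos : 0 < P.h := by linarith [P.h_ge]
lemma good : Good (Gh P.h) := good_Gh P.h_pos

/-- The chart map of the large cross-cap. -/
noncomputable def t0 (y : R4) : R4 :=
  sc (Gh P.h) gg (y.1, y.2.1, y.2.2 + rho P.h P.l (y.1, y.2.1))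

/-- Its inverse. -/
noncomputable def s0 (y : R4) : R4 :=
  (y.1, y.2.1, (sc gg (Gh P.h) y).2.2 - rho P.h P.l (y.1, y.2.1))

lemma t0_smooth : ContDiff ℝ ∞ P.t0 := by
  have := rho_smooth P.l_pos P.hh
  have := sc_smooth P.good good_gg
  unfold t0; fun_prop

lemma s0_smooth : ContDiff ℝ ∞ P.s0 := by
  exact contDiff_fst.prodMk (contDiff_snd.fst.prodMk ((sc_smooth good_gg P.good).snd.snd.sub
    ((rho_smooth P.l_pos P.hh).comp (by fun_prop))))

lemma t0_s0 (y : R4) : P.t0 (P.s0 y) = y := by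
  simp only [t0, s0, sub_add_cancel]
  exact sc_sc P.good good_gg y

lemma s0_t0 (y : R4) : P.s0 (P.t0 y) = y := by
  rw [s0, t0, sc_sc good_gg P.good]
  simp [sc]

lemma t0_graph {y : R4} (h : nq y ≠ 0) : P.t0 y ∈ K ↔ y.2.2 = Ph P.h P.l (y.1, y.2.1) := by
  rw [t0, sc_graph P.good (by exact h), Ph, eq_sub_iff_add_eq]

lemma Ph_smooth : ContDiffOn ℝ ∞ (Ph P.h P.l) {w | w.1 ≠ 0} := fun w hw =>
  ((ph_smooth P.good (by have : w.1 ≠ 0 := hw; positivity)).sub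
    (rho_smooth P.l_pos P.hh).contDiffAt).contDiffWithinAt

/-- The surface. -/
def Sg : Set R4 := {y | (∀ j < n, j ≠ 0 → 2 ≤ nq ((P.A j).inv y)) ∧ P.t0 y ∈ K} ∪
  {y | ∃ j < n, j ≠ 0 ∧ nq ((P.A j).inv y) ≤ 2 ∧ (P.A j).inv y ∈ K}

lemma sq_le (j : ℕ) (y : R4) : (y.1 - 4 * j) ^ 2 ≤ nq ((P.A j).inv y) := by
  rw [← P.hp]; exact sq_le_nq ((P.A j).inv y)

lemma nq_ne {j : ℕ} (hj : j ≠ 0) {y : R4} (h : (y.1 - 4 * j) ^ 2 < 25 / 4) : y.1 ≠ 0 := by
  have : (1 : ℝ) ≤ j := by exact_mod_cast Nat.pos_of_ne_zero hj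
  intro e
  rw [e] at h
  nlinarith

lemma nq_ne' {y : R4} (h : y.1 ≠ 0) : nq y ≠ 0 := by unfold nq; positivity

lemma Sg_far {y : R4} (h : ∀ j < n, j ≠ 0 → 2 ≤ nq ((P.A j).inv y)) : y ∈ P.Sg ↔ P.t0 y ∈ K := by
  refine ⟨?_, fun h' => Or.inl ⟨h, h'⟩⟩
  rintro (h' | ⟨j, hj, j0, h1, h'⟩)
  · exact h'.2
  · rw [← (P.loc j hj j0).ta_eq (by linarith), Af.ta_graph (h j hj j0)] at h'
    exact (P.t0_graph (nq_ne' (nq_ne j0 (by linarith [P.sq_le j y])))).2 h'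

lemma far_ne {i j : ℕ} (hij : i ≠ j) {y : R4} (h : (y.1 - 4 * j) ^ 2 < 25 / 4) :
    2 < nq ((P.A i).inv y) := (far_of_ne hij (y := y) h).trans_le (P.sq_le i y)

lemma Sg_strip {j : ℕ} (hj : j < n) (j0 : j ≠ 0) {y : R4} (h : (y.1 - 4 * j) ^ 2 < 25 / 4) :
    y ∈ P.Sg ↔ (P.A j).ta (Ph P.h P.l) y ∈ K := by
  have g := P.t0_graph (nq_ne' (nq_ne j0 h))
  rcases le_total 2 (nq ((P.A j).inv y)) with h2 | h2
  · rw [Af.ta_graph h2, ← g, P.Sg_far fun i _ _ => ?_]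
    rcases eq_or_ne i j with rfl | hi
    exacts [h2, (P.far_ne hi h).le]
  · have e := (P.loc j hj j0).ta_eq (y := y) (by linarith)
    refine ⟨?_, fun h' => Or.inr ⟨j, hj, j0, h2, e ▸ h'⟩⟩
    rintro (h' | ⟨i, -, -, h3, h'⟩)
    · exact (Af.ta_graph (h'.1 j hj j0)).2 (g.1 h'.2)
    · rwa [e, ← by_contra fun hi => (P.far_ne hi h).not_ge h3]

lemma isClosed_Sg : IsClosed P.Sg := by
  refine IsClosed.union (IsClosed.and ?_ (isClosed_K.preimage P.t0_smooth.continuous)) ?_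
  · simp only [ofPred_forall]
    exact isClosed_iInter fun j => isClosed_iInter fun _ => isClosed_iInter fun _ =>
      isClosed_le (by fun_prop) (by fun_prop)
  have : {y : R4 | ∃ j < n, j ≠ 0 ∧ nq ((P.A j).inv y) ≤ 2 ∧ (P.A j).inv y ∈ K} =
      ⋃ j ∈ Iio n \ {0}, {y | nq ((P.A j).inv y) ≤ 2} ∩ (P.A j).inv ⁻¹' K := by
    ext; simp only [mem_iUnion, exists_prop, mem_ofPred_eq, Set.mem_sdiff, mem_Iio, mem_singleton_iff,
      and_assoc, mem_inter_iff, mem_preimage]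
  rw [this]
  exact ((finite_Iio n).sdiff).isClosed_biUnion fun j _ =>
    (isClosed_le (by fun_prop) (by fun_prop)).inter (isClosed_K.preimage (Af.inv_cont _))

lemma isCompact_Sg (r : ℝ) : IsCompact (P.Sg ∩ {y | nq y ≤ r}) := by
  refine (((isCompact_K r).image P.s0_smooth.continuous).union
    ((finite_Iio n).isCompact_biUnion fun j _ =>
      (isCompact_K 2).image (P.A j).app_cont)).of_isClosed_subset
    (P.isClosed_Sg.inter (isClosed_le (by fun_prop) (by fun_prop))) ?_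
  rintro y ⟨h | ⟨j, hj, -, h1, h2⟩, hr⟩
  · exact Or.inl ⟨_, ⟨h.2, hr⟩, P.s0_t0 y⟩
  · exact Or.inr (mem_biUnion hj ⟨_, ⟨h2, h1⟩, Af.app_inv _ y⟩)

theorem Sg_saddle (a : R4) {y : R4} (hy : y ∈ P.Sg) : ¬ Slm P.Sg a y := by
  by_cases h : ∃ j < n, j ≠ 0 ∧ nq ((P.A j).inv y) < 3
  · obtain ⟨j, hj, j0, h⟩ := h
    have c : ContinuousAt (fun y => nq ((P.A j).inv y)) y := by fun_prop
    have key : ∀ z, nq ((P.A j).inv z) < 3 → (z ∈ P.Sg ↔ (P.A j).inv z ∈ K) := fun z hz => by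
      rw [P.Sg_strip hj j0 (by linarith [P.sq_le j z]), (P.loc j hj j0).ta_eq hz.le]
    exact (P.A j).saddle a ((key y h).1 hy)
      ((c.eventually (gt_mem_nhds h)).mono fun z hz => (key z hz).2)
  push Not at h
  have ev : ∀ᶠ z in 𝓝 y, (z ∈ P.Sg ↔ P.t0 z ∈ K) := by
    have : ∀ᶠ z in 𝓝 y, ∀ j ∈ Iio n, j ≠ 0 → 2 ≤ nq ((P.A j).inv z) := by
      refine (eventually_all_finite (finite_Iio n)).2 fun j hj => ?_
      by_cases j0 : j = 0
      · exact Eventually.of_forall fun _ h => absurd j0 h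
      have c : ContinuousAt (fun y => nq ((P.A j).inv y)) y := by fun_prop
      exact (c.eventually (lt_mem_nhds (show 2 < _ by linarith [h j hj j0]))).mono
        fun _ a _ => a.le
    exact this.mono fun z hz => P.Sg_far hz
  intro hs
  have hK := ev.self_of_nhds.1 hy
  have hl := P.l_pos
  have hh := P.hh
  by_cases h2 : y.1 ^ 2 + (y.2.1 - P.h) ^ 2 < 3 * P.l ^ 2
  · have h3 : y.2.1 ≠ 0 := fun e => by rw [e] at h2; nlinarith [sq_nonneg y.1]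
    have h4 : nq y ≠ 0 := by unfold nq; positivity
    have e := (P.t0_graph h4).1 hK
    have c : ContinuousAt (fun w : R2 => ((w.1, w.2, Ph P.h P.l w) : R4)) (y.1, y.2.1) := by
      have := ((ph_smooth P.good (w := (y.1, y.2.1)) h4).sub
        (rho_smooth P.l_pos P.hh).contDiffAt).continuousAt
      exact continuousAt_fst.prodMk (continuousAt_snd.prodMk this)
    have t : Tendsto (fun w : R2 => ((w.1, w.2, Ph P.h P.l w) : R4)) (𝓝 (y.1, y.2.1)) (𝓝 y) := by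
      simpa only [ContinuousAt, ← e] using c
    refine P.flat a (y.1, y.2.1) h2 ?_
    filter_upwards [t.eventually hs, t.eventually ev,
      t.eventually (nq_cont.continuousAt.eventually_ne h4)] with w b1 b2 b3 b4
    simp only [← e]
    exact b1 (b2.2 ((P.t0_graph b3).2 rfl)) fun e' => b4 (by rw [← e'])
  · have c : ContinuousAt (fun y : R4 => y.1 ^ 2 + (y.2.1 - P.h) ^ 2) y := by fun_prop
    have ev2 : ∀ᶠ z in 𝓝 y, P.t0 z = sc (Gh P.h) gg z :=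
      (c.eventually (lt_mem_nhds (show 2 * P.l ^ 2 < _ by nlinarith))).mono fun z hz => by
        rw [t0, rho_out (w := (z.1, z.2.1)) hl hz.le, add_zero]
    refine KG_saddle P.good a (ev2.self_of_nhds ▸ hK) ?_
    filter_upwards [hs, ev, ev2] with z b1 b2 b3 b4
    exact b1 (b2.2 (b3 ▸ b4))

/-- The identity as affine data. -/
def one : Af := ⟨0, 1, 0, 1, 1, 0, 0, 0, 0, 0, 0, one_pos, one_pos, one_ne_zero⟩

/-- The surface with its charts. -/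
noncomputable def inn : InnE n where
  Sg := P.Sg
  c0 := 36 * P.h ^ 2
  τ j := if j = 0 then P.t0 else (P.A j).ta (Ph P.h P.l)
  σ j := if j = 0 then P.s0 else (P.A j).sg (Ph P.h P.l)
  Φ := Ph P.h P.l
  μ j := if j = 0 then 1 else (P.A j).μ
  o j := if j = 0 then 0 else (P.A j).o
  n_pos := P.n_pos
  far y hy := by
    have h0 := P.h_pos
    rw [P.Sg_far fun j hj _ => not_lt.1 fun h => (P.bd j hj y h).not_ge hy,
      P.t0_graph (ne_of_gt (lt_of_lt_of_le (by positivity) hy)),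
      Ph_far P.l_pos P.hh (w := (y.1, y.2.1)) (le_trans (by nlinarith) hy), Prod.ext_iff]
    rfl
  cpt := P.isCompact_Sg
  saddle a _ hy := P.Sg_saddle a hy
  μ_pos j := by split_ifs; exacts [one_pos, Af.μ_pos _]
  τ_fst j y := by
    split_ifs with h
    · simp [h, t0, sc]
    · rw [← P.hp]; rfl
  τ_snd j y := by
    split_ifs with h
    · simp [t0, sc]
    · rfl
  τ_smooth j hj := by
    split_ifs with h
    · exact P.t0_smooth.contDiffOn
    · have : ContDiffOn ℝ ∞ (fun y : R4 => Ph P.h P.l (y.1, y.2.1))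
          {y : R4 | (y.1 - 4 * j) ^ 2 < 25 / 4} :=
        P.Ph_smooth.comp (by fun_prop) fun y hy => nq_ne h hy
      exact Af.ta_smooth this
  σ_smooth j hj := by
    split_ifs with h
    · exact P.s0_smooth.contDiffOn
    · have : ContDiffOn ℝ ∞ (fun y : R4 => Ph P.h P.l
          (y.1 + (P.A j).p, (P.A j).μ * y.2.1 + (P.A j).o)) {y : R4 | y.1 ^ 2 < 25 / 4} :=
        P.Ph_smooth.comp (by fun_prop) fun y hy => nq_ne h (y := (y.1 + (P.A j).p, y.2))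
          (by simpa [P.hp] using hy)
      exact Af.sg_smooth this
  τσ j _ y _ := by split_ifs; exacts [P.t0_s0 y, Af.ta_sg _ _ y]
  στ j _ y _ := by split_ifs; exacts [P.s0_t0 y, Af.sg_ta _ _ y]
  strip j hj y hy := by
    split_ifs with h
    · exact P.Sg_far fun i _ i0 => (P.far_ne (h ▸ i0) hy).le
    · exact P.Sg_strip hj h hy
  Φ_smooth := P.Ph_smooth
  side y hy := by
    have : (1 : ℝ) ≤ n := by exact_mod_cast P.n_pos
    rw [P.Sg_far fun j hj _ => le_trans ?_ (P.sq_le j y),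
      P.t0_graph (nq_ne' fun e => by rcases hy with h | h <;> linarith)]
    have : (j : ℝ) + 1 ≤ n := by exact_mod_cast hj
    have : (0 : ℝ) ≤ j := j.cast_nonneg
    rcases hy with h | h <;> nlinarith
  A j := if j = 0 then one else P.A j
  G j := if j = 0 then Gh P.h else gg
  good j := by split_ifs; exacts [P.good, good_gg]
  core j hj x u v hx := by
    have e := nq_cap x u v
    split_ifs with h
    · have hl := P.l_pos
      have hh := P.hh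
      have h4 := P.h_ge
      rw [s0, rho_out (w := ((cap x u v).1, (cap x u v).2.1)) hl (by
        unfold nq at e
        nlinarith [sq_nonneg ((cap x u v).2.1 - 2), sq_nonneg (cap x u v).1]), sub_zero,
        show cap x u v = capG gg x u v from rfl, sc_cap good_gg]
      simp [Af.app, one, capG]
    · exact (P.loc j hj h).sg_eq (by linarith)

end Pr

theorem exists_inn (n b : ℕ) (hn : 0 < n) :
    ∃ I : InnE n, ∀ j, (I.A j).m2 < 0 ↔ 1 ≤ j ∧ j ≤ b := by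
  obtain ⟨ε, ε0, ε1, H⟩ := flat_saddle
  have n0 : (0 : ℝ) ≤ n := n.cast_nonneg
  obtain ⟨h, hh⟩ : ∃ h : ℝ, 4 * n + 8 = ε * h := ⟨(4 * n + 8) / ε, by field_simp⟩
  have h0 : 0 < h := (mul_pos_iff_of_pos_left ε0).1 (by linarith)
  have h5 : 5 * (4 * n + 8) ≤ h := by nlinarith
  let A : ℕ → Af := fun j => if j ≤ b then
    ⟨4 * j, 3, h, 9 / 2, -(9 / 2), -(5 / 2) * h ^ 2 + 72 * j ^ 2, 36 * j, -3 * h, 20 * h * j, 5 * h,
      -36 * j, by norm_num, by norm_num, by norm_num⟩ else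
    ⟨4 * j, 1, 4 * h, 1, 1, 16 * j ^ 2 - 16 * h ^ 2, 8 * j, -8 * h, 32 * j * h, 8 * h, 8 * j,
      one_pos, one_pos, one_ne_zero⟩
  refine ⟨Pr.inn ⟨h, 4 * n + 8, A, hn, le_rfl, h5, H _ _ (by linarith) hh.le, fun j => ?_,
    fun j hj _ η hη => ?_, fun j hj y hy => ?_⟩, fun j => ?_⟩
  · simp only [A]; split_ifs <;> rfl
  · have j1 : (j : ℝ) ≤ n := by exact_mod_cast hj.le
    have j0 : (0 : ℝ) ≤ j := j.cast_nonneg
    have e1 := abs_le_of_sq_le_sq' (show η.1 ^ 2 ≤ 2 ^ 2 by nlinarith) (by norm_num)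
    have e2 := abs_le_of_sq_le_sq' (show η.2 ^ 2 ≤ 2 ^ 2 by nlinarith) (by norm_num)
    simp only [A]
    split_ifs
    · rw [Ph_in (by linarith) (by simp only; nlinarith [e1.2])]
      simp only [Qh]
      refine Prod.ext ?_ ?_ <;> simp only <;> ring
    · rw [Ph_far (by linarith) h5 (by simp only; nlinarith [e2.1, sq_nonneg (η.1 + 4 * j)])]
      refine Prod.ext ?_ ?_ <;> simp only <;> ring
  · have j1 : (j : ℝ) ≤ n := by exact_mod_cast hj.le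
    have j0 : (0 : ℝ) ≤ j := j.cast_nonneg
    have key : ∀ o : ℝ, o ≤ 4 * h → 0 ≤ o → (y.1 - 4 * j) ^ 2 ≤ 2 ^ 2 → (y.2.1 - o) ^ 2 ≤ 6 ^ 2 →
        nq y < 36 * h ^ 2 := fun o a b c d => by
      have e1 := abs_le_of_sq_le_sq' c (by norm_num)
      have e2 := abs_le_of_sq_le_sq' d (by norm_num)
      have f1 : y.1 ^ 2 ≤ h ^ 2 := sq_le_sq' (by linarith [e1.1]) (by linarith [e1.2])
      have f2 : y.2.1 ^ 2 ≤ (5 * h) ^ 2 := sq_le_sq' (by linarith [e2.1]) (by linarith [e2.2])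
      unfold nq; nlinarith
    simp only [A] at hy
    split_ifs at hy <;> simp only [nq, Af.inv] at hy
    · exact key h (by linarith) h0.le (by nlinarith) (by nlinarith)
    · exact key (4 * h) le_rfl (by linarith) (by nlinarith) (by nlinarith)
  · simp only [Pr.inn, A]
    split_ifs with a b
    · simp [Pr.one, a]
    · simp [b]; omega
    · simp [b]

end Pool.Agent.P.MP_06bfdf_gt.Y
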