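import Pool.Agent.P.MP_06bfdf_gt.Y.Loc
import Pool.Agent.P.MP_06bfdf_gt.Y.Inst
import Pool.Agent.P.MP_06bfdf_gt.Y.Cnt

/-! The zeros of the normal field on the closed surface and the sum of their signs. -/

open Set Topology Filter
open scoped ContDiff Manifold

namespace Pool.Agent.P.MP_06bfdf_gt.Y

open X

/-- The chart with the two coordinates exchanged. -/
def swp {S : Set E7} (C : Chart S) : Chart S where
  W := Prod.swap ⁻¹' C.W
  O := C.O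
  ψ w := C.ψ (w.2, w.1)
  ρ x := ((C.ρ x).2, (C.ρ x).1)
  oW := C.oW.preimage continuous_swap
  oO := C.oO
  sψ := C.sψ.comp (f := fun w : R2 => (w.2, w.1)) (by fun_prop) fun _ h => h
  sρ := C.sρ.snd.prodMk C.sρ.fst
  mem w hw := by
    obtain ⟨h1, h2, h3⟩ := C.mem _ hw
    exact ⟨h1, h2, congrArg Prod.swap h3⟩
  inv x hx hO := C.inv x hx hO

/-- Third chart of the cross-cap. -/
noncomputable def kC : Chart K where
  W := {w | (w.1 * w.2) ^ 2 < 25 / 4}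
  O := {y | y.1 ^ 2 < 25 / 4 ∧ 0 < gg (nq y) - y.2.2.1}
  ψ w := cap w.1 w.2 1
  ρ y := (y.2.1, y.2.2.2 / (gg (nq y) - y.2.2.1))
  oW := isOpen_lt (by fun_prop) (by fun_prop)
  oO := by refine IsOpen.and (isOpen_lt ?_ ?_) (isOpen_lt ?_ ?_) <;> fun_prop
  sψ := by
    have : ∀ w : R2, w.2 ^ 2 + 1 ^ 2 ≠ 0 := fun w => by positivity
    refine ContDiff.contDiffOn ?_
    unfold cap
    fun_prop (disch := assumption)
  sρ := by
    have : ∀ y ∈ {y : R4 | y.1 ^ 2 < 25 / 4 ∧ 0 < gg (nq y) - y.2.2.1},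
      gg (nq y) - y.2.2.1 ≠ 0 := fun y hy => hy.2.ne'
    fun_prop (disch := assumption)
  mem w hw := by
    have hg := gg_pos (w.1 ^ 2 * (w.2 ^ 2 + 1 ^ 2))
    have e : gg (nq (cap w.1 w.2 1)) - (cap w.1 w.2 1).2.2.1 =
        2 * gg (w.1 ^ 2 * (w.2 ^ 2 + 1 ^ 2)) / (w.2 ^ 2 + 1 ^ 2) := by
      rw [nq_cap]; simp only [cap]; field_simp; ring
    refine ⟨cap_mem _ (by positivity), ⟨hw, by rw [e]; positivity⟩, ?_⟩
    rw [e]
    simp only [cap]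
    generalize gg _ = G at *
    refine Prod.ext ?_ ?_ <;> simp only <;> field_simp
  inv y hy hO := ⟨lt_of_eq_of_lt (congrArg (fun z : R4 => z.1 ^ 2) (K_B hy hO.2)) hO.1, K_B hy hO.2⟩

/-- The two charts around the core of the cross-cap. -/
noncomputable def kk (β : Bool) : Chart K := if β then kA else kC

lemma kk_O (β : Bool) : ∀ y ∈ (kk β).O, y.1 ^ 2 < 25 / 4 := by cases β <;> exact fun _ h => h.1

lemma kk_W (β : Bool) (T : ℝ) : ((0, T) : R2) ∈ (kk β).W := by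
  cases β <;> simp [kk, kA, kC, St]

lemma kk_core (β : Bool) (T : ℝ) : ((kk β).ψ (0, T)).1 = 0 ∧ ((kk β).ψ (0, T)).2.1 = 0 := by
  cases β <;> simp [kk, kA, kC, cap]

lemma kk_ne : (kk true).ψ (0, 0) ≠ (kk false).ψ (0, 0) := fun h => by
  have := congrArg (fun y : R4 => y.2.2.1) h
  simp [kk, kA, kC, cap] at this
  linarith [gg_pos 0]

lemma kk_cover {y : R4} (hy : y ∈ K) (h : y.1 ^ 2 < 25 / 4) : ∃ β, y ∈ (kk β).O :=
  (k_cover hy h).elim (fun h => ⟨true, h⟩) fun h => ⟨false, h.1, h.2.1⟩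

namespace Inn

variable {n : ℕ} (I : Inn n) {j : ℕ} (hj : j < n)

/-- The charts around the core of cross-cap number `j`. -/
noncomputable def cK (β : Bool) : Chart I.Sg := I.mv (kk β) (kk_O β) hj

lemma cK_core (β : Bool) (T : ℝ) :
    (((I.cK hj β).ψ (0, T)).1, ((I.cK hj β).ψ (0, T)).2.1) = (4 * (j : ℝ), I.o j) := by
  have h := kk_O β _ ((kk β).mem _ (kk_W β T)).2.1
  simp only [cK, mv, I.σ_fst hj h, I.σ_snd hj h, kk_core, zero_add, mul_zero]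

lemma cK_ne : (I.cK hj true).ψ (0, 0) ≠ (I.cK hj false).ψ (0, 0) := fun h => by
  have := congrArg (I.τ j) h
  simp only [cK, mv, I.τσ j hj _ (kk_O _ _ ((kk _).mem _ (kk_W _ 0)).2.1)] at this
  exact kk_ne this

lemma cK_lt (β : Bool) (T : ℝ) : nq ((I.cK hj β).ψ (0, T)) < I.c0 := by
  have e : ∀ β T, nq ((I.cK hj β).ψ (0, T)) = (4 * (j : ℝ)) ^ 2 + I.o j ^ 2 := fun β T =>
    congrArg (fun w : R2 => w.1 ^ 2 + w.2 ^ 2) (I.cK_core hj β T)
  by_contra h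
  rw [e, not_lt] at h
  have p : ∀ β, pb (4 * (j : ℝ), I.o j) = (I.cK hj β).ψ (0, 0) := fun β => by
    rw [← I.cK_core hj β 0]
    exact ((I.far _ (by rwa [e])).1 ((I.cK hj β).mem _ (kk_W β 0)).1).eq
  exact I.cK_ne hj ((p true).symm.trans (p false))

lemma cK_off (β : Bool) {w : R2} (hw : w ∈ (kk β).W) (h0 : w.1 ≠ 0) : ∃ r : R2 → R2,
    DifferentiableAt ℝ r (p12 ((I.cK hj β).ψ w)) ∧
      ∀ᶠ w' in 𝓝 w, r (p12 ((I.cK hj β).ψ w')) = w' := by
  have hμ := (I.μ_pos j).ne'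
  have e : ∀ w ∈ (kk β).W, p12 ((I.cK hj β).ψ w) =
      (((kk β).ψ w).1 + 4 * j, I.μ j * ((kk β).ψ w).2.1 + I.o j) := fun w hw => by
    have h := kk_O β _ ((kk β).mem _ hw).2.1
    simp only [cK, mv, p12_apply, I.σ_fst hj h, I.σ_snd hj h]
  have ev := ((kk β).oW.eventually_mem hw).and (continuousAt_fst.eventually_ne h0)
  rw [e w hw]
  cases β
  · refine ⟨fun z => ((z.2 - I.o j) / I.μ j, (z.1 - 4 * j) / ((z.2 - I.o j) / I.μ j)), ?_,
      ev.mono fun w' h => ?_⟩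
    · fun_prop (disch := simp [kk, kC, cap, hμ, h0])
    · rw [e w' h.1]
      simp [kk, kC, cap, hμ, h.2]
  · refine ⟨fun z => (z.1 - 4 * j, (z.2 - I.o j) / I.μ j / (z.1 - 4 * j)), ?_,
      ev.mono fun w' h => ?_⟩
    · fun_prop (disch := simp [kk, kA, cap, h0])
    · rw [e w' h.1]
      simp [kk, kA, cap, hμ, h.2]

end Inn

namespace Cr

variable {n : ℕ} (P : Cr n)

lemma imm_swp {C : Chart P.S} (h : P.Imm C) : P.Imm (swp C) := fun w hw => by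
  obtain ⟨r, h1, h2⟩ := h _ hw
  refine ⟨fun y => ((r y).2, (r y).1), h1.snd.prodMk h1.fst, ?_⟩
  exact (continuous_swap.tendsto w).eventually h2 |>.mono fun w' e => congrArg Prod.swap e

/-- The chart followed by the projection to 4-space. -/
def Fc (C : Chart P.S) (w : R2) : R4 := (C.ψ w).1

/-- The last basis vector is tangent to the surface. -/
def Zr (C : Chart P.S) (w : R2) : Prop := ∃ v, fderiv ℝ (P.Fc C) w v = zz

lemma Fc_smooth (C : Chart P.S) {w : R2} (hw : w ∈ C.W) : ContDiffAt ℝ ∞ (P.Fc C) w :=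
  (C.sψ.contDiffAt (C.oW.mem_nhds hw)).fst

lemma Fc_inj {C : Chart P.S} (h : P.Imm C) {w : R2} (hw : w ∈ C.W) :
    Function.Injective (fderiv ℝ (P.Fc C) w) :=
  (h w hw).elim fun _ e => inj_of_left ((P.Fc_smooth C hw).differentiableAt (by simp)) e.1 e.2

lemma lf_fst (y : R4) : (P.lf y).1 = (P.q (nq y))⁻¹ • y := by
  simp only [lf, div_eq_inv_mul]; rfl

lemma up_ev (C : Chart P.I.Sg) {w : R2} (hw : w ∈ C.W) (h : nq (C.ψ w) < P.b) :
    ∀ᶠ w' in 𝓝 w, P.Fc (P.up C) w' = P.B⁻¹ • C.ψ w' := by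
  have hc : ContinuousAt C.ψ w := C.sψ.continuousOn.continuousAt (C.oW.mem_nhds hw)
  filter_upwards [(nq_cont.continuousAt.comp hc).eventually (gt_mem_nhds h)] with w' h1
  exact (P.lf_fst _).trans (by rw [P.q_in (s := nq (C.ψ w')) (le_of_lt h1)])

lemma up_no (C : Chart P.I.Sg) {w : R2} (hw : w ∈ C.W) (h : nq (C.ψ w) < P.b) {r : R2 → R2}
    (hr : DifferentiableAt ℝ r (p12 (C.ψ w))) (e : ∀ᶠ w' in 𝓝 w, r (p12 (C.ψ w')) = w') :
    ¬ P.Zr (P.up C) w := by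
  have ev := P.up_ev C hw h
  have hB := P.B_pos.ne'
  refine no_zero ((P.Fc_smooth (P.up C) hw).differentiableAt (by simp))
    (r := fun z => r (P.B • z)) (DifferentiableAt.comp (g := r) _ ?_ (by fun_prop)) ?_
  · rwa [ev.self_of_nhds, map_smul, smul_inv_smul₀ hB]
  · filter_upwards [ev, e] with w' a b
    rwa [a, map_smul, smul_inv_smul₀ hB]

/-- The two charts at infinity. -/
noncomputable def nn (β : Bool) : Chart P.S := swp (if β then P.n1 else P.n2)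

lemma imm_nn (β : Bool) : P.Imm (P.nn β) := by
  cases β
  exacts [P.imm_swp (C := P.n2) (P.imm 4), P.imm_swp (C := P.n1) (P.imm 3)]

lemma nn_W (β : Bool) (T : ℝ) : ((0, T) : R2) ∈ (P.nn β).W := by
  cases β <;> simp [nn, swp, n1, n2, Par.cN1, Par.cN2]

lemma nn_core (β : Bool) (T : ℝ) : Core (P.Fc (P.nn β))
    (fun w => (P.A * w.1 ^ 2 + (1 + w.2 ^ 2))⁻¹ • if β then (1, w.2) else (w.2, 1))
    (if β then 1 else -1) 1 T := by
  have hA := P.A_pos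
  refine ⟨P.Fc_smooth _ (P.nn_W β T), ?_, 0, 0, Eventually.of_forall fun w => ⟨?_, fun h => ?_⟩⟩
  · cases β <;> simp only [Bool.false_eq_true, ↓reduceIte] <;> fun_prop (disch := positivity)
  · cases β <;> simp [Fc, nn, swp, n1, n2, Par.cN1, Par.cN2, Par.J, Par.D] <;>
      constructor <;> field_simp <;> ring
  · cases β <;> simp [Fc, nn, swp, n1, n2, Par.cN1, Par.cN2, Par.J, Par.D, h] <;>
      constructor <;> field_simp <;> ring

lemma nn_idx (β : Bool) : P.Zr (P.nn β) (0, 0) ∧ ix (P.Fc (P.nn β)) (0, 0) < 0 := by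
  have d : HasDerivAt (fun t : ℝ => (P.A * 0 ^ 2 + (1 + t ^ 2))⁻¹) _ 0 :=
    (dq (φ := fun t : ℝ => P.A * 0 ^ 2 + (1 + t ^ 2)) 0 1 fun t => by simp).inv (by simp)
  have d2 : HasDerivAt (fun t : ℝ => if β then ((1 : ℝ), t) else (t, 1))
      (if β then (0, 1) else (1, 0)) 0 := dq _ 0 fun t => by cases β <;> simp
  obtain ⟨a, b⟩ := (P.nn_core β 0).idx (P.Fc_inj (P.imm_nn β) (P.nn_W β 0)) one_ne_zero (d.smul d2)
  refine ⟨a, b.trans_lt ?_⟩
  cases β <;> simp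

lemma nn_zero {x : E7} (hx : x ∈ P.S) (h : ¬ 0 < x.2.1) :
    ∃ β, x ∈ (P.nn β).O ∧ (P.Zr (P.nn β) ((P.nn β).ρ x) → x = (P.nn β).ψ (0, 0)) := by
  obtain ⟨β, hβ⟩ : ∃ β, x ∈ (P.nn β).O :=
    ((P.inf_cov hx).resolve_left h).elim (fun h => ⟨true, h⟩) fun h => ⟨false, h⟩
  refine ⟨β, hβ, fun hz => ?_⟩
  obtain ⟨h1, h2⟩ := (P.nn β).inv x hx hβ
  generalize (P.nn β).ρ x = w at *
  obtain ⟨ζ, T⟩ := w
  have hA := P.A_pos
  obtain rfl : ζ = 0 := by
    by_contra h0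
    refine h (h2 ▸ ?_)
    cases β <;> simp only [nn, swp, n1, n2, Par.cN1, Par.cN2, Par.J, Par.D, Bool.false_eq_true,
      ↓reduceIte] <;> positivity
  have : (1 + T ^ 2) ≠ 0 := by positivity
  rw [← h2, (P.nn_core β T).zero (by cases β <;> simp [this, Prod.ext_iff])
    (by cases β <;> simp) hz]

lemma Fc_far (w : R2) : P.Fc (P.up P.I.cF) w = (P.q (w.1 ^ 2 + w.2 ^ 2))⁻¹ • pb w := P.lf_fst _

/-- The four points on the fold. -/
noncomputable def fp (β : Bool × Bool) : R2 :=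
  ((if β.1 then 1 else -1) * √(P.A / 2), (if β.2 then 1 else -1) * √(P.A / 2))

lemma fp_sq (β : Bool × Bool) : (P.fp β).1 ^ 2 = P.A / 2 ∧ (P.fp β).2 ^ 2 = P.A / 2 := by
  have := Real.sq_sqrt (x := P.A / 2) (by linarith [P.A_pos])
  constructor <;> simp only [fp] <;> split_ifs <;> linarith

lemma fp_lt (β : Bool × Bool) : P.b + 2 < (P.fp β).1 ^ 2 + (P.fp β).2 ^ 2 := by
  have : P.A = 4 * (P.b + 2) := rfl
  linarith [P.fp_sq β, P.b_ge]

lemma fp_W (β : Bool × Bool) : P.fp β ∈ P.I.cF.W :=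
  lt_trans (by linarith [P.hc0, P.hcb]) (P.fp_lt β)

lemma fp_inj : Function.Injective P.fp := fun β β' h => by
  have : √(P.A / 2) ≠ 0 := (Real.sqrt_pos.2 (by linarith [P.A_pos])).ne'
  simp only [fp, Prod.mk.injEq, mul_left_inj' this] at h
  obtain ⟨h1, h2⟩ := h
  refine Prod.ext ?_ ?_
  · revert h1; cases β.1 <;> cases β'.1 <;> norm_num
  · revert h2; cases β.2 <;> cases β'.2 <;> norm_num

lemma fp_idx (β : Bool × Bool) :
    P.Zr (P.up P.I.cF) (P.fp β) ∧ 0 < ix (P.Fc (P.up P.I.cF)) (P.fp β) := by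
  have c : ContinuousAt (fun w : R2 => w.1 ^ 2 + w.2 ^ 2) (P.fp β) := by fun_prop
  refine fold_idx P.A_pos (P.Fc_smooth _ (P.fp_W β)) (P.Fc_inj (P.imm_up _) (P.fp_W β))
    ((c.eventually (lt_mem_nhds (P.fp_lt β))).mono fun w h => ?_) (by linarith [P.fp_sq β])
    (by linarith [P.fp_sq β])
  rw [P.Fc_far, P.q_out h.le]

lemma fp_zero {w : R2} (hw : w ∈ P.I.cF.W) (h : P.Zr (P.up P.I.cF) w) : ∃ β, w = P.fp β := by
  obtain ⟨h1, h2⟩ := far_zero P.toPar ((P.Fc_smooth (P.up P.I.cF) hw).differentiableAt (by simp))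
    P.Fc_far h
  have k : ∀ x : ℝ, x ^ 2 = P.A / 2 → ∃ β : Bool, x = (if β then 1 else -1) * √(P.A / 2) :=
    fun x hx => by
      rw [← hx, Real.sqrt_sq_eq_abs]
      rcases le_total 0 x with h | h
      · exact ⟨true, by simp [abs_of_nonneg h]⟩
      · exact ⟨false, by simp [abs_of_nonpos h]⟩
  obtain ⟨β1, e1⟩ := k w.1 (by linarith)
  obtain ⟨β2, e2⟩ := k w.2 (by linarith)
  exact ⟨(β1, β2), Prod.ext e1 e2⟩

variable (I : InnE n) (hP : P.I = I.toInn) {j : ℕ} (hj : j < n)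
include hP

lemma cK_form (β : Bool) (T : ℝ) : Core (P.Fc (P.up (P.I.cK hj β)))
    (fun w => P.B⁻¹ • if β then (1, (I.A j).μ * w.2) else (w.2, (I.A j).μ))
    ((if β then 1 else -1) * (P.B⁻¹ * (I.A j).m1 * I.G j 0)) (P.B⁻¹ * (I.A j).m2 * I.G j 0) T := by
  have c : ContinuousAt (fun w : R2 => w.1 ^ 2 * (1 + w.2 ^ 2)) (0, T) := by fun_prop
  refine ⟨P.Fc_smooth _ (kk_W β T), ?_, P.B⁻¹ • ((I.A j).p, (I.A j).o),
    P.B⁻¹ • ((I.A j).a1, (I.A j).a2), ?_⟩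
  · cases β <;> simp only [Bool.false_eq_true, ↓reduceIte] <;> fun_prop
  filter_upwards [P.up_ev (P.I.cK hj β) (kk_W β T) ((P.I.cK_lt hj β T).trans (P.hc0.trans P.hcb)),
    c.eventually (gt_mem_nhds (show _ < (2 : ℝ) by simp))] with w h1 h2
  have e : P.I.σ j = I.σ j := by rw [hP]
  rw [h1]
  cases β
  · simp only [Inn.cK, Inn.mv, kk, kC, Bool.false_eq_true, ↓reduceIte, e]
    rw [I.core j hj _ _ _ (by linarith)]
    refine ⟨?_, fun h => ?_⟩ <;> simp [Af.app, capG, *] <;> constructor <;> ring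
  · simp only [Inn.cK, Inn.mv, kk, kA, ↓reduceIte, e]
    rw [I.core j hj _ _ _ (by linarith)]
    refine ⟨?_, fun h => ?_⟩ <;> simp [Af.app, capG, *] <;> constructor <;> ring

lemma cK_idx (β : Bool) : P.Zr (P.up (P.I.cK hj β)) (0, 0) ∧
    ix (P.Fc (P.up (P.I.cK hj β))) (0, 0) * (I.A j).m2 < 0 := by
  have h1 := P.B_pos
  have h2 := (I.A j).m1_pos
  have h3 := (I.A j).m2_ne
  have h4 := (I.A j).μ_pos
  have h5 := (I.good j).pos 0
  obtain ⟨a, b⟩ := (P.cK_form I hP hj β 0).idx (P.Fc_inj (P.imm_up _) (kk_W β 0)) (by positivity)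
    (dq (P.B⁻¹ • if β then (0, (I.A j).μ) else (1, 0)) 0 fun t => by
      cases β <;> simp [mul_comm, mul_left_comm])
  refine ⟨a, lt_of_eq_of_lt (b := -(2 * (I.A j).m1 * (I.A j).μ / P.B ^ 2)) ?_
    (neg_lt_zero.2 (by positivity))⟩
  rw [b]
  cases β <;> simp <;> field_simp

lemma cK_zero (β : Bool) {w : R2} (hw : w ∈ (kk β).W) (h : nq ((P.I.cK hj β).ψ w) < P.b)
    (hz : P.Zr (P.up (P.I.cK hj β)) w) : w = (0, 0) := by
  obtain ⟨x, T⟩ := w
  obtain rfl : x = 0 := by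
    by_contra h0
    obtain ⟨r, h1, h2⟩ := P.I.cK_off hj β hw h0
    exact P.up_no _ hw h h1 h2 hz
  have h1 := P.B_pos
  have h2 := (I.A j).m1_pos
  have h4 := (I.A j).μ_pos
  have h5 := (I.good j).pos 0
  rw [(P.cK_form I hP hj β T).zero (by cases β <;> simp [h1.ne', h4.ne', Prod.ext_iff])
    (mul_ne_zero (by cases β <;> simp) (by positivity)) hz]

omit hP hj

/-- The index set of the zeros. -/
abbrev Ix (n : ℕ) := ((Bool × Bool) ⊕ (Fin n × Bool)) ⊕ Bool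

/-- The chart in which the zero is computed. -/
noncomputable def ch : Ix n → Chart P.S
  | .inl (.inl _) => P.up P.I.cF
  | .inl (.inr a) => P.up (P.I.cK a.1.2 a.2)
  | .inr β => P.nn β

/-- The coordinates of the zero. -/
noncomputable def co : Ix n → R2
  | .inl (.inl β) => P.fp β
  | _ => (0, 0)

/-- The sign of the zero. -/
noncomputable def sg : Ix n → ℤ
  | .inl (.inl _) => 1
  | .inl (.inr a) => if (I.A a.1).m2 < 0 then 1 else -1
  | .inr _ => -1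

lemma co_W : ∀ i, P.co i ∈ (P.ch i).W
  | .inl (.inl β) => P.fp_W β
  | .inl (.inr a) => kk_W a.2 0
  | .inr β => P.nn_W β 0

lemma ch_imm : ∀ i, P.Imm (P.ch i)
  | .inl (.inl _) => P.imm_up _
  | .inl (.inr _) => P.imm_up _
  | .inr β => P.imm_nn β

lemma pt_inj : Function.Injective fun i => (P.ch i).ψ (P.co i) := by
  have l : ∀ {y y'}, P.lf y = P.lf y' → y = y' := fun e => by
    simpa only [P.dn_lf] using congrArg dn e
  have k : ∀ y β, P.lf y ≠ (P.nn β).ψ (0, 0) := fun y β e => by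
    have := P.lf_pos y
    rw [e] at this
    cases β <;> simp [nn, swp, n1, n2, Par.cN1, Par.cN2, Par.J] at this
  have m : ∀ β (a : Fin n × Bool), pb (P.fp β) ≠ (P.I.cK a.1.2 a.2).ψ (0, 0) := fun β a e => by
    have := P.I.cK_lt a.1.2 a.2 0
    rw [← e] at this
    exact lt_asymm this (P.fp_W β)
  rintro ((a | ⟨a, β⟩) | a) ((b | ⟨b, γ⟩) | b) e
  · rw [P.fp_inj (congrArg (fun y : R4 => (y.1, y.2.1)) (l e))]
  · exact (m _ _ (l e)).elim
  · exact (k _ _ e).elim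
  · exact (m _ _ (l e).symm).elim
  · have e := l e
    have e1 := P.I.cK_core a.2 β 0
    rw [show (P.I.cK a.2 β).ψ (0, 0) = (P.I.cK b.2 γ).ψ (0, 0) from e, P.I.cK_core] at e1
    obtain rfl : b = a := Fin.ext (by simpa using congrArg Prod.fst e1)
    cases β <;> cases γ
    exacts [rfl, (P.I.cK_ne _ e.symm).elim, (P.I.cK_ne _ e).elim, rfl]
  · exact (k _ _ e).elim
  · exact (k _ _ e.symm).elim
  · exact (k _ _ e.symm).elim
  · have := congrArg (fun x : E7 => x.2.2.1) e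
    cases a <;> cases b <;>
      simp [ch, co, nn, swp, n1, n2, Par.cN1, Par.cN2, Par.J, Par.D] at this ⊢

include hP

lemma pt_idx : ∀ i, P.Zr (P.ch i) (P.co i) ∧ (0 < ix (P.Fc (P.ch i)) (P.co i) ∧ sg I i = 1 ∨
    ix (P.Fc (P.ch i)) (P.co i) < 0 ∧ sg I i = -1)
  | .inl (.inl β) => ⟨(P.fp_idx β).1, Or.inl ⟨(P.fp_idx β).2, rfl⟩⟩
  | .inl (.inr a) => by
    obtain ⟨h1, h2⟩ := P.cK_idx I hP a.1.2 a.2
    refine ⟨h1, ?_⟩
    rcases mul_neg_iff.1 h2 with h | h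
    exacts [Or.inl ⟨h.1, if_pos h.2⟩, Or.inr ⟨h.1, if_neg h.2.not_gt⟩]
  | .inr β => ⟨(P.nn_idx β).1, Or.inr ⟨(P.nn_idx β).2, rfl⟩⟩

lemma pt_all {x : E7} (hx : x ∈ P.S) : ∃ C : Chart P.S, P.Imm C ∧ x ∈ C.O ∧
    (P.Zr C (C.ρ x) → ∃ i, x = (P.ch i).ψ (P.co i)) := by
  by_cases h : 0 < x.2.1
  swap
  · obtain ⟨β, h1, h2⟩ := P.nn_zero hx h
    exact ⟨_, P.imm_nn β, h1, fun hz => ⟨.inr β, h2 hz⟩⟩
  obtain ⟨h1, h2⟩ := P.S_fin hx h
  suffices ∃ C : Chart P.I.Sg, dn x ∈ C.O ∧ ∀ w ∈ C.W, C.ψ w = dn x → P.Zr (P.up C) w →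
      ∃ i, P.lf (C.ψ w) = (P.ch i).ψ (P.co i) by
    obtain ⟨C, h3, h4⟩ := this
    obtain ⟨h5, h6⟩ := C.inv _ h1 h3
    exact ⟨_, P.imm_up C, ⟨h, h3⟩, fun hz => by simpa only [h6, h2] using h4 _ h5 h6 hz⟩
  rcases lt_or_ge P.I.c0 (nq (dn x)) with h3 | h3
  · refine ⟨P.I.cF, h3, fun w hw _ hz => ?_⟩
    obtain ⟨β, rfl⟩ := P.fp_zero hw hz
    exact ⟨.inl (.inl β), rfl⟩
  have h4 : nq (dn x) < P.b := h3.trans_lt (P.hc0.trans P.hcb)
  rcases P.I.cov h1 with h5 | h5 | ⟨j, hj, h5⟩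
  · exact ⟨P.I.cL, h5, fun w hw e hz => (P.up_no _ hw (e ▸ h4) (r := id) differentiableAt_id
      (Eventually.of_forall fun _ => rfl) hz).elim⟩
  · exact ⟨P.I.cR, h5, fun w hw e hz => (P.up_no _ hw (e ▸ h4) (r := id) differentiableAt_id
      (Eventually.of_forall fun _ => rfl) hz).elim⟩
  · have h6 : ((dn x).1 - 4 * j) ^ 2 < 25 / 4 := h5.elim And.left And.left
    obtain ⟨β, hβ⟩ := kk_cover ((P.I.strip j hj _ h6).1 h1) (by rwa [P.I.τ_fst])
    refine ⟨P.I.cK hj β, ⟨h6, hβ⟩, fun w hw e hz => ⟨.inl (.inr (⟨j, hj⟩, β)), ?_⟩⟩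
    rw [P.cK_zero I hP hj β hw (e ▸ h4) hz]
    rfl

theorem euler (x₀ : P.S) :
    letI := charted (fun C : {C : Chart P.S // P.Imm C} => C.1) x₀ P.cover
    ∃ s : P.S → EuclideanSpace ℝ (Fin 4), ContMDiff (𝓡 2) (𝓡 4) ∞ s ∧
      (∀ x i, inner ℝ (s x)
        (pd (fun x : P.S => c4 (ContinuousLinearMap.fst ℝ R4 R3 x)) x i) = 0) ∧
      ∃ Z : Finset P.S, (∀ x, s x = 0 ↔ x ∈ Z) ∧
        (∀ x ∈ Z, Idx (fun x : P.S => c4 (ContinuousLinearMap.fst ℝ R4 R3 x)) s x ≠ 0) ∧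
        ∑ x ∈ Z, (SignType.sign
          (Idx (fun x : P.S => c4 (ContinuousLinearMap.fst ℝ R4 R3 x)) s x) : ℤ) =
          ∑ i, sg I i := by
  let _ := charted (fun C : {C : Chart P.S // P.Imm C} => C.1) x₀ P.cover
  obtain ⟨s, h1, h2, h3⟩ := euler_pack (fun C : {C : Chart P.S // P.Imm C} => C.1) x₀ P.cover
    (ContinuousLinearMap.fst ℝ R4 R3) fun C => C.2
  let pt : Ix n ↪ P.S := ⟨fun i => ⟨_, ((P.ch i).mem _ (P.co_W i)).1⟩,
    fun i j e => P.pt_inj (congrArg Subtype.val e)⟩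
  have k : ∀ i, s (pt i) = 0 ∧
      (0 < Idx (fun x : P.S => c4 (ContinuousLinearMap.fst ℝ R4 R3 x)) s (pt i) ∧ sg I i = 1 ∨
        Idx (fun x : P.S => c4 (ContinuousLinearMap.fst ℝ R4 R3 x)) s (pt i) < 0 ∧
          sg I i = -1) := fun i => by
    obtain ⟨-, a, b⟩ := (P.ch i).mem _ (P.co_W i)
    obtain ⟨d, c, c0, e⟩ := h3 ⟨_, P.ch_imm i⟩ (pt i) a
    rw [show (P.ch i).ρ (pt i) = P.co i from b] at d e
    obtain ⟨f, g⟩ := P.pt_idx I hP i
    rw [e]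
    exact ⟨d.2 f, g.imp (fun g => ⟨mul_pos c0 g.1, g.2⟩)
      fun g => ⟨mul_neg_of_pos_of_neg c0 g.1, g.2⟩⟩
  refine ⟨s, h1, h2, Finset.univ.map pt, fun x => ⟨fun h => ?_, fun h => ?_⟩, fun x h => ?_, ?_⟩
  · obtain ⟨C, a, b, c⟩ := P.pt_all I hP x.2
    obtain ⟨i, e⟩ := c ((h3 ⟨C, a⟩ x b).1.1 h)
    exact Finset.mem_map.2 ⟨i, Finset.mem_univ i, Subtype.ext e.symm⟩
  · obtain ⟨i, -, rfl⟩ := Finset.mem_map.1 h
    exact (k i).1
  · obtain ⟨i, -, rfl⟩ := Finset.mem_map.1 h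
    exact (k i).2.elim (fun g => g.1.ne') fun g => g.1.ne
  · rw [Finset.sum_map]
    refine Finset.sum_congr rfl fun i _ => ?_
    rcases (k i).2 with g | g
    · rw [sign_pos g.1, g.2]; rfl
    · rw [sign_neg g.1, g.2]; rfl

end Cr

lemma sum_ite (a b : ℕ) :
    ∑ j ∈ Finset.range (b + 1 + a), (if 1 ≤ j ∧ j ≤ b then (1 : ℤ) else -1) = b - 1 - a := by
  induction a with
  | zero =>
    rw [add_zero, Finset.sum_range_succ', Finset.sum_congr rfl fun j hj =>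
      if_pos ⟨by omega, Finset.mem_range.1 hj⟩]
    simp [sub_eq_add_neg]
  | succ a ih =>
    rw [← add_assoc, Finset.sum_range_succ, ih, if_neg (by omega)]
    push_cast
    ring

lemma sum_sg {a b : ℕ} (I : InnE (b + 1 + a)) (h : ∀ j, (I.A j).m2 < 0 ↔ 1 ≤ j ∧ j ≤ b) :
    ∑ i, Cr.sg I i = 2 * (b - a) := by
  simp only [Fintype.sum_sum_type, Fintype.sum_prod_type, Cr.sg, h, Fintype.sum_bool,
    Finset.sum_add_distrib,
    Fin.sum_univ_eq_sum_range (fun j => if 1 ≤ j ∧ j ≤ b then (1 : ℤ) else -1), sum_ite]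
  ring

end Pool.Agent.P.MP_06bfdf_gt.Y
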