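import Pool.Agent.P.MP_06bfdf_gt.Y.Base

/-! Flattening the large cross-cap near an antiholomorphic saddle point. -/

open Set Topology Filter
open scoped ContDiff

namespace Pool.Agent.P.MP_06bfdf_gt.Y

open X

lemma line_bound {E F : Type} [NormedAddCommGroup E] [NormedSpace ℝ E] [NormedAddCommGroup F]
    [NormedSpace ℝ F] {Ψ : E → F} {U C : Set E} (hU : IsOpen U) (hΨ : ContDiffOn ℝ ∞ Ψ U)
    (hC : IsCompact C) (hCU : C ⊆ U) : ∃ k > 0, ∀ p ∈ C, ∀ v : E, ∃ (g : ℝ → F) (m : F),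
      (∀ᶠ t in 𝓝 (0 : ℝ), HasDerivAt (fun t : ℝ => Ψ (p + t • v)) (g t) t) ∧
        HasDerivAt g m 0 ∧ ‖m‖ ≤ k * ‖v‖ ^ 2 := by
  have h1 : ContDiffOn ℝ ∞ (fderiv ℝ Ψ) U := hΨ.fderiv_of_isOpen hU (by simp)
  have h2 : ContinuousOn (fderiv ℝ (fderiv ℝ Ψ)) U :=
    h1.continuousOn_fderiv_of_isOpen hU (by simp)
  obtain ⟨k, hk⟩ := hC.exists_bound_of_continuousOn (f := fderiv ℝ (fderiv ℝ Ψ))
    (by exact h2.mono hCU)
  refine ⟨|k| + 1, by positivity, fun p hp v => ⟨fun t => fderiv ℝ Ψ (p + t • v) v,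
    fderiv ℝ (fderiv ℝ Ψ) p v v, ?_, ?_, ?_⟩⟩
  · have c : ContinuousAt (fun t : ℝ => p + t • v) 0 := by fun_prop
    filter_upwards [c.eventually (hU.mem_nhds (by simpa using hCU hp))] with t ht
    have d : HasDerivAt (fun t : ℝ => p + t • v) v t := by
      simpa using ((hasDerivAt_id t).smul_const v).const_add p
    exact ((hΨ.contDiffAt (hU.mem_nhds ht)).differentiableAt (by simp)).hasFDerivAt.comp_hasDerivAt
      t d
  · have d : HasDerivAt (fun t : ℝ => p + t • v) v 0 := by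
      simpa using ((hasDerivAt_id (0 : ℝ)).smul_const v).const_add p
    have e := ((h1.contDiffAt (hU.mem_nhds (hCU hp))).differentiableAt (by simp)).hasFDerivAt
    have e' : HasFDerivAt (fderiv ℝ Ψ) (fderiv ℝ (fderiv ℝ Ψ) p) (p + (0 : ℝ) • v) := by
      simpa using e
    simpa using (e'.comp_hasDerivAt 0 d).clm_apply (hasDerivAt_const (0 : ℝ) v)
  · have := (fderiv ℝ (fderiv ℝ Ψ) p).le_opNorm₂ v v
    have h3 := (hk p hp).trans (le_abs_self k)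
    nlinarith [sq_nonneg ‖v‖]

lemma no_min {φ g : ℝ → ℝ} {m : ℝ} (h1 : ∀ᶠ t in 𝓝 (0 : ℝ), HasDerivAt φ (g t) t)
    (h2 : HasDerivAt g m 0) (hm : m < 0) : ¬ ∀ᶠ t in 𝓝 (0 : ℝ), t ≠ 0 → φ 0 < φ t := by
  intro h
  have h3 : IsLocalMin φ 0 := h.mono fun t ht => by
    rcases eq_or_ne t 0 with rfl | h0
    exacts [le_rfl, (ht h0).le]
  have h4 : deriv φ =ᶠ[𝓝 0] g := h1.mono fun t ht => ht.deriv
  have h5 : IsLocalMax φ 0 := isLocalMax_of_deriv_deriv_neg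
    (by rw [h4.deriv_eq, h2.deriv]; exact hm) h3.deriv_eq_zero h1.self_of_nhds.continuousAt
  obtain ⟨μ, hμ, h6, -⟩ := exists_pm (h.and h5)
  exact (h6.1 hμ.ne').not_ge h6.2

lemma der_fst {f : ℝ → R2} {m : R2} {t : ℝ} (h : HasDerivAt f m t) :
    HasDerivAt (fun t => (f t).1) m.1 t :=
  (ContinuousLinearMap.fst ℝ ℝ ℝ).hasFDerivAt.comp_hasDerivAt t h

lemma der_snd {f : ℝ → R2} {m : R2} {t : ℝ} (h : HasDerivAt f m t) :
    HasDerivAt (fun t => (f t).2) m.2 t :=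
  (ContinuousLinearMap.snd ℝ ℝ ℝ).hasFDerivAt.comp_hasDerivAt t h

/-- The cutoff. -/
noncomputable def cut (s : ℝ) : ℝ := Real.smoothTransition (2 - s)

@[fun_prop] lemma cut_smooth : ContDiff ℝ ∞ cut :=
  Real.smoothTransition.contDiff.comp (by fun_prop)

lemma cut_in {s : ℝ} (h : s ≤ 1) : cut s = 1 := Real.smoothTransition.one_of_one_le (by linarith)
lemma cut_out {s : ℝ} (h : 2 ≤ s) : cut s = 0 :=
  Real.smoothTransition.zero_of_nonpos (by linarith)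

/-- The antiholomorphic parabola that osculates the large cross-cap. -/
noncomputable def Qh (h : ℝ) (w : R2) : R2 :=
  (-(5 / 2) * h ^ 2 - h * (w.2 - h) + 9 / 2 * w.1 ^ 2 - (w.2 - h) ^ 2 / 2,
    5 * h * w.1 - 3 * w.1 * (w.2 - h))

/-- The correction term. -/
noncomputable def rho (h l : ℝ) (w : R2) : R2 :=
  cut ((w.1 ^ 2 + (w.2 - h) ^ 2) / l ^ 2) • (ph (Gh h) w - Qh h w)

/-- The flattened graph function. -/
noncomputable def Ph (h l : ℝ) (w : R2) : R2 := ph (Gh h) w - rho h l w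

/-- The rescaled remainder. -/
noncomputable def Ps (p : ℝ × R2) : R2 :=
  ((1 - cut (p.2.1 ^ 2 + p.2.2 ^ 2)) * (4 * p.2.1) /
      ((1 + p.1 * p.2.2) ^ 2 + p.1 ^ 2 * p.2.1 ^ 2)) •
    (-2 * p.2.1 * p.2.2 * (1 + p.1 * p.2.2) - p.1 * p.2.1 * (p.2.1 ^ 2 - p.2.2 ^ 2),
      2 * p.1 * p.2.1 ^ 2 * p.2.2 - (p.2.1 ^ 2 - p.2.2 ^ 2) * (1 + p.1 * p.2.2))

variable {h l : ℝ}

lemma rho_out {w : R2} (hl : 0 < l) (hw : 2 * l ^ 2 ≤ w.1 ^ 2 + (w.2 - h) ^ 2) :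
    rho h l w = 0 := by
  rw [rho, cut_out (by rwa [le_div_iff₀ (by positivity)]), zero_smul]

lemma Ph_in {w : R2} (hl : 0 < l) (hw : w.1 ^ 2 + (w.2 - h) ^ 2 ≤ l ^ 2) : Ph h l w = Qh h w := by
  rw [Ph, rho, cut_in (by rwa [div_le_one (by positivity)]), one_smul, sub_sub_cancel]

lemma rho_smooth (hl : 0 < l) (hh : 5 * l ≤ h) : ContDiff ℝ ∞ (rho h l) := by
  refine contDiff_iff_contDiffAt.2 fun w => ?_
  by_cases h0 : w.1 ^ 2 + w.2 ^ 2 = 0
  · have h1 : w.2 = 0 := by nlinarith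
    have c : ContinuousAt (fun w : R2 => w.1 ^ 2 + (w.2 - h) ^ 2) w := by fun_prop
    refine contDiffAt_const.congr_of_eventuallyEq ((c.eventually (lt_mem_nhds
      (show 2 * l ^ 2 < _ by simp only [h1]; nlinarith))).mono fun w' a => rho_out hl a.le)
  · have := ph_smooth (good_Gh (h := h) (by linarith)) h0
    unfold rho Qh
    fun_prop

lemma Ph_eq (hl : 0 < l) (hh : 5 * l ≤ h) {w : R2} (hw : w.1 ^ 2 + (w.2 - h) ^ 2 < 3 * l ^ 2) :
    Ph h l w = Qh h w + (l ^ 3 / h) • Ps (l / h, w.1 / l, (w.2 - h) / l) := by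
  have h0 : 0 < h := by linarith
  have h1 := abs_lt_of_sq_lt_sq' (show (w.2 - h) ^ 2 < (2 * l) ^ 2 by nlinarith) (by linarith)
  have h2 : 0 < w.2 := by linarith [h1.1]
  have h3 : 0 < w.1 ^ 2 + w.2 ^ 2 := by positivity
  have h4 := Gh_in h0 h3.le (by nlinarith [h1.2])
  have e : (1 + l / h * ((w.2 - h) / l)) ^ 2 + (l / h) ^ 2 * (w.1 / l) ^ 2 =
      (w.1 ^ 2 + w.2 ^ 2) / h ^ 2 := by field_simp; ring
  have e2 : (w.1 / l) ^ 2 + ((w.2 - h) / l) ^ 2 = (w.1 ^ 2 + (w.2 - h) ^ 2) / l ^ 2 := by ring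
  simp only [Ph, rho, Ps, ph, h4, e, e2, Qh]
  generalize cut _ = c
  refine Prod.ext ?_ ?_ <;>
    simp only [Prod.fst_add, Prod.snd_add, Prod.fst_sub, Prod.snd_sub, Prod.smul_fst,
      Prod.smul_snd, smul_eq_mul] <;> field_simp <;> ring

theorem flat_saddle : ∃ ε > 0, ε ≤ 1 / 5 ∧ ∀ h l : ℝ, 0 < l → l ≤ ε * h → ∀ (a : R4) (w : R2),
    w.1 ^ 2 + (w.2 - h) ^ 2 < 3 * l ^ 2 →
      ¬ ∀ᶠ w' in 𝓝 w, w' ≠ w → ht a (w.1, w.2, Ph h l w) < ht a (w'.1, w'.2, Ph h l w') := by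
  obtain ⟨k, hk, H⟩ := line_bound (Ψ := Ps)
    (U := {p | (1 + p.1 * p.2.2) ^ 2 + p.1 ^ 2 * p.2.1 ^ 2 ≠ 0}) (C := Icc (0, -2, -2) (1 / 5, 2, 2))
    (isOpen_ne_fun (by fun_prop) (by fun_prop))
    (by
      have : ∀ p ∈ {p : ℝ × R2 | (1 + p.1 * p.2.2) ^ 2 + p.1 ^ 2 * p.2.1 ^ 2 ≠ 0},
        (1 + p.1 * p.2.2) ^ 2 + p.1 ^ 2 * p.2.1 ^ 2 ≠ 0 := fun _ h => h
      unfold Ps
      fun_prop (disch := assumption)) isCompact_Icc
    (by
      rintro p ⟨⟨a, -, b⟩, c, -, -⟩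
      have : 0 < 1 + p.1 * p.2.2 := by simp only at a b c; nlinarith
      exact ne_of_gt (by positivity))
  refine ⟨min (1 / 5) (1 / (4 * k)), by positivity, min_le_left _ _,
    fun h l hl hlh a w hw hmin => ?_⟩
  have h0 : 0 < h := (mul_pos_iff_of_pos_left (by positivity)).1 (hl.trans_le hlh)
  have hh : 5 * l ≤ h := by nlinarith [min_le_left (1 / 5 : ℝ) (1 / (4 * k))]
  have hk' : l / h * k ≤ 1 / 4 := by
    have := hlh.trans (mul_le_mul_of_nonneg_right (min_le_right _ _) h0.le)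
    rw [div_mul_eq_mul_div, div_le_iff₀ h0]
    rw [div_mul_eq_mul_div, le_div_iff₀ (by positivity)] at this
    linarith
  obtain ⟨η, n, n1, n2, e1, e2, e3, e4⟩ : ∃ (η : R2) (n : ℝ), |a.2.2.1| ≤ n ∧ |a.2.2.2| ≤ n ∧
      |η.1| ≤ 1 ∧ |η.2| ≤ 1 ∧ η ≠ 0 ∧
      a.2.2.1 * (η.1 ^ 2 - η.2 ^ 2) - a.2.2.2 * (2 * η.1 * η.2) ≤ -n := by
    rcases le_total |a.2.2.1| |a.2.2.2| with p | p
    · rcases le_total 0 a.2.2.2 with q | q
      · exact ⟨(1, 1), _, p, le_rfl, by simp, by simp, by simp, by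
          rw [abs_of_nonneg q]; simp only; linarith⟩
      · exact ⟨(1, -1), _, p, le_rfl, by simp, by simp, by simp, by
          rw [abs_of_nonpos q]; simp only; linarith⟩
    · rcases le_total 0 a.2.2.1 with q | q
      · exact ⟨(0, 1), _, le_rfl, p, by simp, by simp, by simp, by
          rw [abs_of_nonneg q]; simp only; linarith⟩
      · exact ⟨(1, 0), _, le_rfl, p, by simp, by simp, by simp, by
          rw [abs_of_nonpos q]; simp only; linarith⟩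
  have c : ContinuousAt (fun t : ℝ => ((w.1 + t * η.1, w.2 + t * (3 * η.2)) : R2)) 0 := by fun_prop
  have hne : ∀ t : ℝ, t ≠ 0 → ((w.1 + t * η.1, w.2 + t * (3 * η.2)) : R2) ≠ w := fun t t0 e => by
    have a1 := congrArg Prod.fst e
    have a2 := congrArg Prod.snd e
    simp only [add_eq_left, mul_eq_zero, t0, false_or] at a1 a2
    exact e3 (Prod.ext a1 (by simpa using a2))
  have hm := (along hmin _ c (by simp)).mono fun t a t0 => a (hne t t0)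
  rcases (abs_nonneg _).trans n1 |>.eq_or_lt with rfl | npos
  · obtain ⟨μ, hμ, p, q⟩ := exists_pm hm
    have p := p hμ.ne'
    have q := q (neg_ne_zero.2 hμ.ne')
    simp only [ht, abs_nonpos_iff.1 n1, abs_nonpos_iff.1 n2] at p q
    linarith
  have b1 := abs_lt_of_sq_lt_sq' (show (w.2 - h) ^ 2 < (2 * l) ^ 2 by nlinarith) (by linarith)
  have b2 := abs_lt_of_sq_lt_sq' (show w.1 ^ 2 < (2 * l) ^ 2 by nlinarith) (by linarith)
  obtain ⟨g, m, g1, g2, g3⟩ := H (l / h, w.1 / l, (w.2 - h) / l)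
    ⟨⟨by positivity, by simp only; rw [le_div_iff₀ hl]; linarith [b2.1],
      by simp only; rw [le_div_iff₀ hl]; linarith [b1.1]⟩,
      by simp only; rw [div_le_iff₀ h0]; linarith,
      by simp only; rw [div_le_iff₀ hl]; linarith [b2.2],
      by simp only; rw [div_le_iff₀ hl]; linarith [b1.2]⟩ (0, η.1 / l, 3 * η.2 / l)
  have g4 : ‖((0, η.1 / l, 3 * η.2 / l) : ℝ × R2)‖ ≤ 3 / l := by
    simp only [Prod.norm_def, Real.norm_eq_abs, abs_div, abs_mul, abs_of_pos hl, max_le_iff]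
    refine ⟨by simp; positivity, ?_, ?_⟩ <;> gcongr
    · linarith
    · rw [abs_of_pos (by norm_num : (0 : ℝ) < 3)]; linarith
  have g5 : ‖m‖ * l ^ 2 ≤ 9 * k := by
    have := g3.trans (mul_le_mul_of_nonneg_left (pow_le_pow_left₀ (norm_nonneg _) g4 2) hk.le)
    rw [div_pow, ← mul_div_assoc, le_div_iff₀ (by positivity)] at this
    linarith
  obtain ⟨c1, c2, hc2, hc⟩ : ∃ c1 c2 : ℝ, c2 ≤ -(9 / 2) * n ∧ ∀ t : ℝ,
      ht a (w.1 + t * η.1, w.2 + t * (3 * η.2), Qh h (w.1 + t * η.1, w.2 + t * (3 * η.2))) =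
        ht a (w.1, w.2, Qh h w) + c1 * t + c2 * t ^ 2 :=
    ⟨a.1 * η.1 + a.2.1 * (3 * η.2) + a.2.2.1 * (9 * w.1 * η.1 - w.2 * (3 * η.2)) +
      a.2.2.2 * (5 * h * η.1 - 3 * (w.1 * (3 * η.2) + η.1 * (w.2 - h))),
      9 / 2 * (a.2.2.1 * (η.1 ^ 2 - η.2 ^ 2) - a.2.2.2 * (2 * η.1 * η.2)), by linarith,
      fun t => by simp only [ht, Qh]; ring⟩
  let ψ : ℝ → R2 := fun t =>
    Ps ((l / h, w.1 / l, (w.2 - h) / l) + t • ((0, η.1 / l, 3 * η.2 / l) : ℝ × R2))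
  refine no_min (φ := fun t => ht a (w.1, w.2, Qh h w) + c1 * t + c2 * t ^ 2 +
      l ^ 3 / h * (a.2.2.1 * (ψ t).1 + a.2.2.2 * (ψ t).2))
    (g := fun t => c1 + c2 * (2 * t) + l ^ 3 / h * (a.2.2.1 * (g t).1 + a.2.2.2 * (g t).2))
    (m := c2 * 2 + l ^ 3 / h * (a.2.2.1 * m.1 + a.2.2.2 * m.2)) ?_ ?_ ?_ ?_
  · filter_upwards [g1] with t a1
    have d1 := (((hasDerivAt_id t).const_mul c1).const_add (ht a (w.1, w.2, Qh h w))).add
      ((hasDerivAt_pow 2 t).const_mul c2)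
    have d2 := (((der_fst a1).const_mul a.2.2.1).add ((der_snd a1).const_mul a.2.2.2)).const_mul
      (l ^ 3 / h)
    exact (d1.add d2).congr_deriv (by simp)
  · have d1 := ((((hasDerivAt_id (0 : ℝ)).const_mul 2).const_mul c2).const_add c1)
    have d2 := (((der_fst g2).const_mul a.2.2.1).add ((der_snd g2).const_mul a.2.2.2)).const_mul
      (l ^ 3 / h)
    exact (d1.add d2).congr_deriv (by simp)
  · have m1 : a.2.2.1 * m.1 ≤ n * ‖m‖ := (le_abs_self _).trans (by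
      rw [abs_mul]; exact mul_le_mul n1 (norm_fst_le m) (abs_nonneg _) npos.le)
    have m2 : a.2.2.2 * m.2 ≤ n * ‖m‖ := (le_abs_self _).trans (by
      rw [abs_mul]; exact mul_le_mul n2 (norm_snd_le m) (abs_nonneg _) npos.le)
    have m3 : l ^ 3 / h * (a.2.2.1 * m.1 + a.2.2.2 * m.2) ≤ l ^ 3 / h * (2 * n * ‖m‖) := by
      gcongr; linarith
    have m4 : l ^ 3 / h * (2 * n * ‖m‖) = 2 * n * (l / h) * (‖m‖ * l ^ 2) := by ring
    have m5 : 2 * n * (l / h) * (‖m‖ * l ^ 2) ≤ 2 * n * (l / h) * (9 * k) := by gcongr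
    nlinarith
  · have o : ContinuousAt (fun t : ℝ => (w.1 + t * η.1) ^ 2 + (w.2 + t * (3 * η.2) - h) ^ 2) 0 := by
      fun_prop
    filter_upwards [hm, o.eventually (gt_mem_nhds (by simpa using hw))] with t a1 a2 t0
    have a3 := a1 t0
    rw [Ph_eq hl hh hw, Ph_eq hl hh (w := (w.1 + t * η.1, w.2 + t * (3 * η.2))) a2] at a3
    have a4 := hc t
    have a5 : ψ t = Ps (l / h, (w.1 + t * η.1) / l, (w.2 + t * (3 * η.2) - h) / l) := by
      simp only [ψ, Prod.smul_mk, Prod.mk_add_mk, smul_eq_mul]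
      congr 2
      · ring
      · congr 1 <;> ring
    have a6 : ψ 0 = Ps (l / h, w.1 / l, (w.2 - h) / l) := by simp [ψ]
    simp only [a5, a6]
    simp only [ht, Prod.fst_add, Prod.snd_add, Prod.smul_fst, Prod.smul_snd, smul_eq_mul]
      at a3 a4 ⊢
    linarith

end Pool.Agent.P.MP_06bfdf_gt.Y
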