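import Pool.Agent.P.MP_06bfdf_gt.X.Cnt

/-! The normal part of a constant vector along an immersed surface, and the sign of its zeros. -/

open Set Topology Filter
open scoped Manifold ContDiff

namespace Pool.Agent.P.MP_06bfdf_gt.Y

/-- The Gram determinant. -/
def gram (a b : R4) : ℝ := ht a a * ht b b - ht a b ^ 2

/-- The last basis vector. -/
def zz : R4 := (0, 0, 0, 1)

/-- First coefficient of the tangent part. -/
noncomputable def co1 (a b : R4) : ℝ := (ht b b * ht a zz - ht a b * ht b zz) / gram a b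
/-- Second coefficient of the tangent part. -/
noncomputable def co2 (a b : R4) : ℝ := (ht a a * ht b zz - ht a b * ht a zz) / gram a b

/-- The normal part of the last basis vector. -/
noncomputable def PL (L : R2 →L[ℝ] R4) : R4 :=
  zz - co1 (L (1, 0)) (L (0, 1)) • L (1, 0) - co2 (L (1, 0)) (L (0, 1)) • L (0, 1)

lemma ht_self_eq {v : R4} (h : ht v v = 0) : v = 0 := by
  obtain ⟨a, b, c, d⟩ := v
  simp only [ht] at h
  have h1 := mul_self_nonneg a
  have h2 := mul_self_nonneg b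
  have h3 := mul_self_nonneg c
  have h4 := mul_self_nonneg d
  have ha : a = 0 := mul_self_eq_zero.1 (by linarith)
  have hb : b = 0 := mul_self_eq_zero.1 (by linarith)
  have hc : c = 0 := mul_self_eq_zero.1 (by linarith)
  have hd : d = 0 := mul_self_eq_zero.1 (by linarith)
  simp [ha, hb, hc, hd]

lemma lin_apply {E : Type} [NormedAddCommGroup E] [NormedSpace ℝ E] (L : R2 →L[ℝ] E) (v : R2) :
    L v = v.1 • L (1, 0) + v.2 • L (0, 1) := by
  rw [← map_smul, ← map_smul, ← map_add]; simp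

lemma gram_ne {L : R2 →L[ℝ] R4} (hL : Function.Injective L) : gram (L (1, 0)) (L (0, 1)) ≠ 0 := by
  intro h
  have h1 : L (ht (L (0, 1)) (L (0, 1)), -ht (L (1, 0)) (L (0, 1))) = L 0 := by
    rw [map_zero, lin_apply]
    apply ht_self_eq
    generalize L (1, 0) = a at *
    generalize L (0, 1) = b at *
    simp only [gram, ht] at h
    simp only [ht, Prod.fst_add, Prod.snd_add, Prod.smul_fst, Prod.smul_snd, smul_eq_mul]
    linear_combination (b.1 * b.1 + b.2.1 * b.2.1 + b.2.2.1 * b.2.2.1 + b.2.2.2 * b.2.2.2) * h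
  have h2 := ht_self_eq (congrArg Prod.fst (hL h1))
  have h3 := hL (h2.trans (map_zero L).symm)
  simp at h3

lemma PL_orth {L : R2 →L[ℝ] R4} (hL : Function.Injective L) (v : R2) : ht (PL L) (L v) = 0 := by
  have h := gram_ne hL
  rw [lin_apply, PL]
  generalize L (1, 0) = a at *
  generalize L (0, 1) = b at *
  have e1 : co1 a b * gram a b = ht b b * ht a zz - ht a b * ht b zz := div_mul_cancel₀ _ h
  have e2 : co2 a b * gram a b = ht a a * ht b zz - ht a b * ht a zz := div_mul_cancel₀ _ h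
  refine mul_right_cancel₀ h ?_
  generalize co1 a b = p at *
  generalize co2 a b = q at *
  simp only [gram, ht, zz, Prod.fst_add, Prod.snd_add, Prod.fst_sub, Prod.snd_sub, Prod.smul_fst,
    Prod.smul_snd, smul_eq_mul] at *
  linear_combination
    (-(v.1 * (a.1 * a.1 + a.2.1 * a.2.1 + a.2.2.1 * a.2.2.1 + a.2.2.2 * a.2.2.2) +
      v.2 * (a.1 * b.1 + a.2.1 * b.2.1 + a.2.2.1 * b.2.2.1 + a.2.2.2 * b.2.2.2))) * e1 -
    (v.1 * (a.1 * b.1 + a.2.1 * b.2.1 + a.2.2.1 * b.2.2.1 + a.2.2.2 * b.2.2.2) +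
      v.2 * (b.1 * b.1 + b.2.1 * b.2.1 + b.2.2.1 * b.2.2.1 + b.2.2.2 * b.2.2.2)) * e2

lemma PL_add (L : R2 →L[ℝ] R4) :
    PL L + L (co1 (L (1, 0)) (L (0, 1)), co2 (L (1, 0)) (L (0, 1))) = zz := by
  rw [lin_apply L (_, _), PL]; abel

lemma PL_unique {L : R2 →L[ℝ] R4} (hL : Function.Injective L) {n : R4} {v : R2}
    (h1 : n + L v = zz) (h2 : ∀ u, ht n (L u) = 0) : PL L = n := by
  obtain ⟨u, hu⟩ : ∃ u, PL L + L u = zz := ⟨_, PL_add L⟩
  have e : PL L - n = L (v - u) := by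
    rw [map_sub, sub_eq_sub_iff_add_eq_add, hu, add_comm, h1]
  refine sub_eq_zero.1 (ht_self_eq ?_)
  have a1 := PL_orth hL (v - u)
  have a2 := h2 (v - u)
  rw [← e] at a1 a2
  simp only [ht, Prod.fst_sub, Prod.snd_sub] at *
  linear_combination a1 - a2

lemma PL_eq_zero {L : R2 →L[ℝ] R4} (hL : Function.Injective L) : PL L = 0 ↔ ∃ v, L v = zz :=
  ⟨fun h => ⟨_, by simpa [h] using PL_add L⟩, fun ⟨v, hv⟩ =>
    PL_unique hL (v := v) (by simpa using hv) fun u => by simp [ht]⟩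

lemma PL_comp {L : R2 →L[ℝ] R4} (hL : Function.Injective L) {A : R2 →L[ℝ] R2}
    (h : Function.Injective (L.comp A)) : PL (L.comp A) = PL L := by
  have hA : Function.Surjective A := LinearMap.surjective_of_injective (f := A.toLinearMap)
    (Function.Injective.of_comp (f := L) h)
  obtain ⟨v, hv⟩ := hA (co1 (L (1, 0)) (L (0, 1)), co2 (L (1, 0)) (L (0, 1)))
  exact PL_unique h (v := v) (by rw [ContinuousLinearMap.comp_apply, hv, PL_add])
    fun u => PL_orth hL _

/-- The determinant of four vectors. -/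
def det4 (a b c d : R4) : ℝ :=
  (a.1 * b.2.1 - a.2.1 * b.1) * (c.2.2.1 * d.2.2.2 - c.2.2.2 * d.2.2.1) -
  (a.1 * b.2.2.1 - a.2.2.1 * b.1) * (c.2.1 * d.2.2.2 - c.2.2.2 * d.2.1) +
  (a.1 * b.2.2.2 - a.2.2.2 * b.1) * (c.2.1 * d.2.2.1 - c.2.2.1 * d.2.1) +
  (a.2.1 * b.2.2.1 - a.2.2.1 * b.2.1) * (c.1 * d.2.2.2 - c.2.2.2 * d.1) -
  (a.2.1 * b.2.2.2 - a.2.2.2 * b.2.1) * (c.1 * d.2.2.1 - c.2.2.1 * d.1) +
  (a.2.2.1 * b.2.2.2 - a.2.2.2 * b.2.2.1) * (c.1 * d.2.1 - c.2.1 * d.1)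

/-- The normal field of a parametrised surface. -/
noncomputable def NF (F : R2 → R4) (w : R2) : R4 := PL (fderiv ℝ F w)

/-- The determinant whose sign is the index of a zero of the normal field. -/
noncomputable def ix (F : R2 → R4) (w : R2) : ℝ :=
  det4 (fderiv ℝ F w (1, 0)) (fderiv ℝ F w (0, 1)) (fderiv ℝ (NF F) w (1, 0))
    (fderiv ℝ (NF F) w (0, 1))

lemma fd_smooth {F : R2 → R4} {w : R2} (hF : ContDiffAt ℝ ∞ F w) (v : R2) :
    ContDiffAt ℝ ∞ (fun w => fderiv ℝ F w v) w :=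
  (hF.fderiv_right (m := ∞) (by simp)).clm_apply contDiffAt_const

lemma co_smooth {a b : R2 → R4} {w : R2} (ha : ContDiffAt ℝ ∞ a w) (hb : ContDiffAt ℝ ∞ b w)
    (h : gram (a w) (b w) ≠ 0) : ContDiffAt ℝ ∞ (fun w => co1 (a w) (b w)) w ∧
      ContDiffAt ℝ ∞ (fun w => co2 (a w) (b w)) w := by
  constructor
  · unfold co1
    refine ContDiffAt.div ?_ ?_ h <;> simp only [gram, ht] <;> fun_prop
  · unfold co2
    refine ContDiffAt.div ?_ ?_ h <;> simp only [gram, ht] <;> fun_prop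

lemma NF_smooth {F : R2 → R4} {w : R2} (hF : ContDiffAt ℝ ∞ F w)
    (hi : Function.Injective (fderiv ℝ F w)) : ContDiffAt ℝ ∞ (NF F) w := by
  have ha := fd_smooth hF (1, 0)
  have hb := fd_smooth hF (0, 1)
  obtain ⟨h1, h2⟩ := co_smooth ha hb (gram_ne hi)
  exact (contDiffAt_const.sub (h1.smul ha)).sub (h2.smul hb)

lemma ix_eq {F : R2 → R4} {w v : R2} (hF : ContDiffAt ℝ ∞ F w)
    (hi : Function.Injective (fderiv ℝ F w)) (hv : fderiv ℝ F w v = zz) :
    ix F w = det4 (fderiv ℝ F w (1, 0)) (fderiv ℝ F w (0, 1))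
      (fderiv ℝ (fun w => fderiv ℝ F w v) w (1, 0))
      (fderiv ℝ (fun w => fderiv ℝ F w v) w (0, 1)) := by
  have ha := fd_smooth hF (1, 0)
  have hb := fd_smooth hF (0, 1)
  obtain ⟨h1, h2⟩ := co_smooth ha hb (gram_ne hi)
  have e : (co1 (fderiv ℝ F w (1, 0)) (fderiv ℝ F w (0, 1)),
      co2 (fderiv ℝ F w (1, 0)) (fderiv ℝ F w (0, 1))) = v := by
    apply hi
    have := PL_add (fderiv ℝ F w)
    rw [(PL_eq_zero hi).2 ⟨v, hv⟩, zero_add] at this
    rw [this, hv]
  have ha' := (ha.differentiableAt (by simp)).hasFDerivAt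
  have hb' := (hb.differentiableAt (by simp)).hasFDerivAt
  have h1' := (h1.differentiableAt (by simp)).hasFDerivAt
  have h2' := (h2.differentiableAt (by simp)).hasFDerivAt
  have d1 : HasFDerivAt (NF F) _ w :=
    ((hasFDerivAt_const zz w).sub (h1'.smul ha')).sub (h2'.smul hb')
  have d2 : HasFDerivAt (fun w => fderiv ℝ F w v) _ w :=
    ((ha'.const_smul v.1).add (hb'.const_smul v.2)).congr_of_eventuallyEq
      (Eventually.of_forall fun w => lin_apply _ v)
  rw [ix, d1.fderiv, d2.fderiv]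
  rw [← e]
  simp only [sub_apply, add_apply, smul_apply, ContinuousLinearMap.smulRight_apply,
    zero_apply, det4, Prod.fst_add, Prod.snd_add, Prod.fst_sub, Prod.snd_sub,
    Prod.smul_fst, Prod.smul_snd, smul_eq_mul, Prod.fst_zero, Prod.snd_zero]
  ring

lemma ix_comp {F G : R2 → R4} {φ : R2 → R2} {w : R2} (hF : ContDiffAt ℝ ∞ F (φ w))
    (h : ∀ᶠ w' in 𝓝 w, Function.Injective (fderiv ℝ G w') ∧
      Function.Injective (fderiv ℝ F (φ w')) ∧ DifferentiableAt ℝ F (φ w') ∧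
      DifferentiableAt ℝ φ w' ∧ G w' = F (φ w')) :
    NF G w = NF F (φ w) ∧ ∃ c > 0, ix G w = c * ix F (φ w) := by
  have h1 : ∀ᶠ w' in 𝓝 w, fderiv ℝ G w' = (fderiv ℝ F (φ w')).comp (fderiv ℝ φ w') := by
    filter_upwards [h, h.eventually_nhds] with w' a b
    rw [← fderiv_comp _ a.2.2.1 a.2.2.2.1]
    exact EventuallyEq.fderiv_eq (b.mono fun _ c => c.2.2.2.2)
  have h2 : NF G =ᶠ[𝓝 w] NF F ∘ φ := by
    filter_upwards [h, h1] with w' a b
    have := a.1
    simp only [NF, Function.comp]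
    rw [b] at this ⊢
    exact PL_comp a.2.1 this
  obtain ⟨a1, a2, a3, a4, -⟩ := h.self_of_nhds
  refine ⟨h2.self_of_nhds, ?_⟩
  rw [ix, h2.fderiv_eq, fderiv_comp _ ((NF_smooth hF a2).differentiableAt (by simp)) a4,
    h1.self_of_nhds]
  rw [h1.self_of_nhds] at a1
  have hA : Function.Injective (fderiv ℝ φ w) :=
    Function.Injective.of_comp (f := fderiv ℝ F (φ w)) a1
  generalize fderiv ℝ φ w = A at *
  refine ⟨((A (1, 0)).1 * (A (0, 1)).2 - (A (1, 0)).2 * (A (0, 1)).1) ^ 2, ?_, ?_⟩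
  · refine sq_pos_iff.2 fun h0 => ?_
    have key : ∀ v : R2, v.1 * (A (1, 0)).1 + v.2 * (A (0, 1)).1 = 0 →
        v.1 * (A (1, 0)).2 + v.2 * (A (0, 1)).2 = 0 → v = 0 := fun v p q =>
      hA (by rw [map_zero, lin_apply]; exact Prod.ext p q)
    have k1 := key ((A (0, 1)).2, -(A (1, 0)).2) (by linear_combination h0) (by ring)
    have k2 := key ((A (0, 1)).1, -(A (1, 0)).1) (by ring) (by linear_combination -h0)
    simp only [Prod.mk_eq_zero, neg_eq_zero] at k1 k2
    simpa using key (1, 0) (by simp [k2.2]) (by simp [k1.2])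
  · simp only [ContinuousLinearMap.comp_apply]
    rw [lin_apply _ (A (1, 0)), lin_apply _ (A (0, 1)), lin_apply (fderiv ℝ (NF F) _) (A (1, 0)),
      lin_apply (fderiv ℝ (NF F) _) (A (0, 1)), ix]
    simp only [det4, Prod.fst_add, Prod.snd_add, Prod.smul_fst, Prod.smul_snd, smul_eq_mul]
    ring

lemma inj_of_left {F : R2 → R4} {w : R2} (hF : DifferentiableAt ℝ F w) {r : R4 → R2}
    (hr : DifferentiableAt ℝ r (F w)) (h : ∀ᶠ w' in 𝓝 w, r (F w') = w') :
    Function.Injective (fderiv ℝ F w) := by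
  have hc := HasFDerivAt.comp w hr.hasFDerivAt hF.hasFDerivAt
  have huniq := hc.unique ((hasFDerivAt_id _).congr_of_eventuallyEq h)
  exact Function.LeftInverse.injective (g := fderiv ℝ r (F w)) fun a => DFunLike.congr_fun huniq a

/-- A partial derivative in the chart at the point. -/
noncomputable def pd {M : Type} [TopologicalSpace M] [ChartedSpace (EuclideanSpace ℝ (Fin 2)) M]
    (g : M → EuclideanSpace ℝ (Fin 4)) (x : M) (i : Fin 2) : EuclideanSpace ℝ (Fin 4) :=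
  mfderiv (𝓡 2) (𝓡 4) g x (EuclideanSpace.single i 1)

/-- The determinant of the derivatives of `f` and `s` on a surface. -/
noncomputable def Idx {M : Type} [TopologicalSpace M] [ChartedSpace (EuclideanSpace ℝ (Fin 2)) M]
    (f s : M → EuclideanSpace ℝ (Fin 4)) (x : M) : ℝ :=
  Matrix.det (Matrix.of fun i j : Fin 4 => ![pd f x 0, pd f x 1, pd s x 0, pd s x 1] i j)

lemma det_c4 (a b c d : R4) : Matrix.det (Matrix.of fun i j : Fin 4 =>
    ![c4 a, c4 b, c4 c, c4 d] i j) = det4 a b c d := by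
  simp [Matrix.det_succ_row_zero, Fin.sum_univ_succ, c4, det4, Fin.succAbove]
  ring

theorem euler_pack {E : Type} [NormedAddCommGroup E] [NormedSpace ℝ E] {S : Set E} {ι : Type}
    (C : ι → Chart S) (x₀ : S) (cov : ∀ x ∈ S, ∃ i, x ∈ (C i).O) (π : E →L[ℝ] R4)
    (imm : ∀ i, ∀ w ∈ (C i).W, ∃ r : R4 → R2, DifferentiableAt ℝ r (π ((C i).ψ w)) ∧
      ∀ᶠ w' in 𝓝 w, r (π ((C i).ψ w')) = w') :
    letI := charted C x₀ cov
    ∃ s : S → EuclideanSpace ℝ (Fin 4), ContMDiff (𝓡 2) (𝓡 4) ∞ s ∧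
      (∀ x i, inner ℝ (s x) (pd (fun x : S => c4 (π x)) x i) = 0) ∧
      ∀ i (x : S), x.1 ∈ (C i).O →
        (s x = 0 ↔ ∃ v, fderiv ℝ (fun w => π ((C i).ψ w)) ((C i).ρ x) v = zz) ∧
        ∃ c > 0, Idx (fun x : S => c4 (π x)) s x = c * ix (fun w => π ((C i).ψ w)) ((C i).ρ x) := by
  let _ := charted C x₀ cov
  let F : ι → R2 → R4 := fun i w => π ((C i).ψ w)
  have sm : ∀ i, ∀ w ∈ (C i).W, ContDiffAt ℝ ∞ (F i) w := fun i w hw =>
    π.contDiff.contDiffAt.comp _ ((C i).sψ.contDiffAt ((C i).oW.mem_nhds hw))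
  have inj : ∀ i, ∀ w ∈ (C i).W, Function.Injective (fderiv ℝ (F i) w) := fun i w hw =>
    let ⟨_, h1, h2⟩ := imm i w hw
    inj_of_left ((sm i w hw).differentiableAt (by simp)) h1 h2
  have tr : ∀ i j (x : S), x.1 ∈ (C i).O → x.1 ∈ (C j).O →
      NF (F i) ((C i).ρ x) = NF (F j) ((C j).ρ x) ∧
        ∃ c > 0, ix (F i) ((C i).ρ x) = c * ix (F j) ((C j).ρ x) := by
    intro i j x hi hj
    obtain ⟨a1, a2⟩ := (C i).inv x x.2 hi
    have := ix_comp (F := F j) (G := F i) (φ := fun w => (C j).ρ ((C i).ψ w)) (w := (C i).ρ x)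
      (by simp only [a2]; exact sm j _ ((C j).inv x x.2 hj).1) ?_
    · simpa only [a2] using this
    have c : ContinuousAt (C i).ψ ((C i).ρ x) :=
      (C i).sψ.continuousOn.continuousAt ((C i).oW.mem_nhds a1)
    filter_upwards [(C i).oW.mem_nhds a1, c.eventually ((C j).oO.mem_nhds (by rwa [a2]))]
      with w h1 h2
    obtain ⟨b1, b2⟩ := (C j).inv _ ((C i).mem w h1).1 h2
    refine ⟨inj i w h1, inj j _ b1, (sm j _ b1).differentiableAt (by simp), ?_, ?_⟩
    · exact (((C j).sρ.contDiffAt ((C j).oO.mem_nhds h2)).comp w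
        ((C i).sψ.contDiffAt ((C i).oW.mem_nhds h1))).differentiableAt (by simp)
    · simp only [F, b2]
  let ch : S → ι := fun x => (cov x x.2).choose
  have hch : ∀ x : S, x.1 ∈ (C (ch x)).O := fun x => (cov x x.2).choose_spec
  have hW : ∀ x : S, (C (ch x)).ρ x ∈ (C (ch x)).W := fun x => ((C _).inv x x.2 (hch x)).1
  have gen : ∀ (g : S → R4) (G : ι → R2 → R4), (∀ i, ∀ w ∈ (C i).W, ContDiffAt ℝ ∞ (G i) w) →
      (∀ i (x : S), x.1 ∈ (C i).O → g x = G i ((C i).ρ x)) → ∀ x : S,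
      ContMDiffAt (𝓡 2) (𝓡 4) ∞ (fun x => c4 (g x)) x ∧ ∀ v,
        (mfderiv (𝓡 2) (𝓡 4) (fun x => c4 (g x)) x v : EuclideanSpace ℝ (Fin 4)) =
          c4 (fderiv ℝ (G (ch x)) ((C (ch x)).ρ x) (c2 v)) := by
    intro g G hG hg x
    have h1 : extChartAt (𝓡 2) x x = c2.symm ((C (ch x)).ρ x) := rfl
    have h2 : writtenInExtChartAt (𝓡 2) (𝓡 4) x (fun x => c4 (g x)) =ᶠ[𝓝 (c2.symm ((C (ch x)).ρ x))]
        fun y => c4 (G (ch x) (c2 y)) := by
      have hW : c2 ⁻¹' (C (ch x)).W ∈ 𝓝 (c2.symm ((C (ch x)).ρ x)) :=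
        ((C _).oW.preimage c2.continuous).mem_nhds (by simpa using hW x)
      filter_upwards [hW] with y hy
      show c4 (g ((C (ch x)).par x₀ (c2 y))) = _
      have e := (C (ch x)).par_val x₀ hy
      rw [hg (ch x) _ (by rw [e]; exact ((C _).mem _ hy).2.1), e, ((C _).mem _ hy).2.2]
    have h3 : ContDiffAt ℝ ∞ (G (ch x)) (c2 (c2.symm ((C (ch x)).ρ x))) := by
      rw [c2.apply_symm_apply]; exact hG _ _ (hW x)
    have h4 : ContDiffAt ℝ ∞ (fun y => c4 (G (ch x) (c2 y))) (c2.symm ((C (ch x)).ρ x)) :=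
      c4.contDiff.contDiffAt.comp _ (h3.comp _ c2.contDiff.contDiffAt)
    have h5 : ContinuousAt (fun x => c4 (g x)) x := by
      have o := ((C (ch x)).oO.preimage continuous_subtype_val).mem_nhds (hch x)
      refine ContinuousAt.congr (f := fun y : S => c4 (G (ch x) ((C (ch x)).ρ y))) ?_ ?_
      · exact c4.continuous.continuousAt.comp ((hG _ _ (hW x)).continuousAt.comp
          (f := fun y : S => (C (ch x)).ρ y) (((C _).sρ.continuousOn.continuousAt
            ((C _).oO.mem_nhds (hch x))).comp continuous_subtype_val.continuousAt))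
      · filter_upwards [o] with y hy
        rw [hg _ y hy]
    have h6 : ContMDiffAt (𝓡 2) (𝓡 4) ∞ (fun x => c4 (g x)) x := by
      rw [contMDiffAt_iff]
      refine ⟨h5, ?_⟩
      rw [h1]
      exact (h4.congr_of_eventuallyEq h2).contDiffWithinAt
    refine ⟨h6, fun v => ?_⟩
    rw [(h6.mdifferentiableAt (by simp)).mfderiv, h1]
    simp only [modelWithCornersSelf_coe, range_id, fderivWithin_univ]
    rw [h2.fderiv_eq]
    have h7 := c4.hasFDerivAt.comp (c2.symm ((C (ch x)).ρ x))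
      ((h3.differentiableAt (by simp)).hasFDerivAt.comp _ c2.toContinuousLinearMap.hasFDerivAt)
    rw [c2.apply_symm_apply] at h7
    exact DFunLike.congr_fun h7.fderiv v
  have gf := gen (fun x => π x) F sm fun i x hx => by simp only [F, ((C i).inv x x.2 hx).2]
  have gs := gen (fun x => NF (F (ch x)) ((C (ch x)).ρ x)) (fun i => NF (F i))
    (fun i w hw => NF_smooth (sm i w hw) (inj i w hw)) fun i x hx => (tr _ _ x (hch x) hx).1
  refine ⟨fun x => c4 (NF (F (ch x)) ((C (ch x)).ρ x)), fun x => (gs x).1, fun x v => ?_,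
    fun i x hx => ⟨?_, ?_⟩⟩
  · rw [pd, (gf x).2, inner_c4]
    have := PL_orth (inj _ _ (hW x)) (c2 (EuclideanSpace.single v 1))
    simpa [ht, c4, NF] using this
  · refine Iff.trans ?_ (PL_eq_zero (inj i _ ((C i).inv x x.2 hx).1))
    simp only [(tr _ _ x (hch x) hx).1]
    exact ⟨fun h => by simpa [d4_c4, NF] using congrArg d4 h, fun h => by
      rw [show NF (F i) ((C i).ρ x) = 0 from h, map_zero]⟩
  · have e0 : c2 (EuclideanSpace.single 0 1) = (1, 0) := by simp [c2]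
    have e1 : c2 (EuclideanSpace.single 1 1) = (0, 1) := by simp [c2]
    simp only [Idx, pd, (gf x).2, (gs x).2, e0, e1, det_c4]
    exact (tr _ _ x (hch x) hx).2

end Pool.Agent.P.MP_06bfdf_gt.Y
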