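import Pool.Agent.P.MP_06bfdf_gt.Y.Gen

/-! Local computations of the zeros of the normal field and of their signs. -/

open Set Topology Filter
open scoped ContDiff

namespace Pool.Agent.P.MP_06bfdf_gt.Y

open X

section gen

variable {E : Type} [NormedAddCommGroup E] [NormedSpace ℝ E]

lemma dq {φ : ℝ → E} (b c : E) (h : ∀ t, φ t = φ 0 + t • b + t ^ 2 • c) : HasDerivAt φ b 0 := by
  have := (((hasDerivAt_id (0 : ℝ)).smul_const b).const_add (φ 0)).add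
    ((hasDerivAt_pow 2 (0 : ℝ)).smul_const c)
  exact (this.congr_deriv (by simp)).congr_of_eventuallyEq (Eventually.of_forall h)

lemma line_der (w v : R2) : HasDerivAt (fun t : ℝ => w + t • v) v 0 := dq v 0 (by simp)

lemma der_line {F : R2 → E} {w : R2} (hF : DifferentiableAt ℝ F w) (v : R2) :
    HasDerivAt (fun t : ℝ => F (w + t • v)) (fderiv ℝ F w v) 0 :=
  HasFDerivAt.comp_hasDerivAt (l := F) 0 (by simpa using hF.hasFDerivAt) (line_der w v)

lemma line_ev {Q : R2 → Prop} {w : R2} (h : ∀ᶠ w' in 𝓝 w, Q w') (v : R2) :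
    ∀ᶠ t in 𝓝 (0 : ℝ), Q (w + t • v) := along h _ (by fun_prop) (by simp)

lemma der_lin {F : Type} [NormedAddCommGroup F] [NormedSpace ℝ F] (L : E →L[ℝ] F) {f : ℝ → E}
    {m : E} {t : ℝ} (h : HasDerivAt f m t) : HasDerivAt (fun t => L (f t)) (L m) t :=
  L.hasFDerivAt.comp_hasDerivAt t h

end gen

/-- The first two coordinates. -/
noncomputable def p12 : R4 →L[ℝ] R2 := (ContinuousLinearMap.fst ℝ _ _).prod
  ((ContinuousLinearMap.fst ℝ _ _).comp (ContinuousLinearMap.snd ℝ _ _))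
/-- The last two coordinates. -/
noncomputable def p34 : R4 →L[ℝ] R2 :=
  (ContinuousLinearMap.snd ℝ _ _).comp (ContinuousLinearMap.snd ℝ _ _)

@[simp] lemma p12_apply (y : R4) : p12 y = (y.1, y.2.1) := rfl
@[simp] lemma p34_apply (y : R4) : p34 y = y.2.2 := rfl

lemma no_zero {F : R2 → R4} {w : R2} (hF : DifferentiableAt ℝ F w) {r : R2 → R2}
    (hr : DifferentiableAt ℝ r (p12 (F w))) (h : ∀ᶠ w' in 𝓝 w, r (p12 (F w')) = w') :
    ¬ ∃ v, fderiv ℝ F w v = zz := by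
  rintro ⟨v, hv⟩
  have h1 := hr.hasFDerivAt.comp w (p12.hasFDerivAt.comp w hF.hasFDerivAt)
  have h2 := DFunLike.congr_fun (h1.unique ((hasFDerivAt_id _).congr_of_eventuallyEq h)) v
  simp only [ContinuousLinearMap.comp_apply, hv, ContinuousLinearMap.id_apply] at h2
  rw [show p12 zz = 0 from rfl, map_zero] at h2
  rw [← h2, map_zero] at hv
  simpa [zz] using congrArg (fun y : R4 => y.2.2.2) hv

/-- The form of the surface along a curve that is contracted by the projection. -/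
structure Core (F : R2 → R4) (H : R2 → R2) (c1 c2 T : ℝ) : Prop where
  sF : ContDiffAt ℝ ∞ F (0, T)
  sH : ContDiffAt ℝ ∞ H (0, T)
  ex : ∃ q r : R2, ∀ᶠ w in 𝓝 ((0, T) : R2), p12 (F w) = q + w.1 • H w ∧ (w.1 = 0 →
    p34 (F w) = r + (c1 * ((1 - w.2 ^ 2) / (1 + w.2 ^ 2)), c2 * (2 * w.2 / (1 + w.2 ^ 2))))

/-- The tangent vector of the core. -/
noncomputable def cv (c1 c2 T : ℝ) : R2 :=
  (c1 * (-4 * T / (1 + T ^ 2) ^ 2), c2 * (2 * (1 - T ^ 2) / (1 + T ^ 2) ^ 2))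

lemma cv_der (c1 c2 T : ℝ) : HasDerivAt (fun t : ℝ => ((c1 * ((1 - (T + t) ^ 2) / (1 + (T + t) ^ 2)),
    c2 * (2 * (T + t) / (1 + (T + t) ^ 2))) : R2)) (cv c1 c2 T) 0 := by
  have d0 : HasDerivAt (fun t : ℝ => 1 + (T + t) ^ 2) (2 * T) 0 := dq _ 1 fun t => by simp; ring
  have d1 : HasDerivAt (fun t : ℝ => 1 - (T + t) ^ 2) (-2 * T) 0 := dq _ (-1) fun t => by simp; ring
  have d2 : HasDerivAt (fun t : ℝ => 2 * (T + t)) 2 0 := dq _ 0 fun t => by simp; ring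
  have h : 1 + (T + 0) ^ 2 ≠ 0 := by positivity
  refine (((d1.div d0 h).const_mul c1).prodMk ((d2.div d0 h).const_mul c2)).congr_deriv ?_
  simp only [cv, add_zero]
  congr 3 <;> ring

namespace Core

variable {F : R2 → R4} {H : R2 → R2} {c1 c2 T : ℝ}

lemma ev (h : Core F H c1 c2 T) : ∀ᶠ w in 𝓝 ((0, T) : R2),
    p12 (fderiv ℝ F w (0, 1)) = w.1 • fderiv ℝ H w (0, 1) ∧
      (w.1 = 0 → p34 (fderiv ℝ F w (0, 1)) = cv c1 c2 w.2) := by
  obtain ⟨q, r, e⟩ := h.ex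
  filter_upwards [e.eventually_nhds, (h.sF.of_le (m := 1) (by simp)).eventually (by simp),
    (h.sH.of_le (m := 1) (by simp)).eventually (by simp)] with w a b c
  have d1 := der_line (b.differentiableAt (by simp)) (0, 1)
  have d2 := der_line (c.differentiableAt (by simp)) (0, 1)
  refine ⟨(der_lin p12 d1).unique (((d2.const_smul w.1).const_add q).congr_of_eventuallyEq ?_),
    fun h0 => (der_lin p34 d1).unique (((cv_der c1 c2 w.2).const_add r).congr_of_eventuallyEq ?_)⟩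
  · exact (line_ev a (0, 1)).mono fun t ht => by simpa using ht.1
  · exact (line_ev a (0, 1)).mono fun t ht => by simpa using ht.2 (by simpa using h0)

lemma d1 (h : Core F H c1 c2 T) : p12 (fderiv ℝ F (0, T) (1, 0)) = H (0, T) := by
  obtain ⟨q, r, e⟩ := h.ex
  have d1 := der_line (h.sF.differentiableAt (by simp)) (1, 0)
  have d2 := der_line (h.sH.differentiableAt (by simp)) (1, 0)
  refine (der_lin p12 d1).unique (((((hasDerivAt_id (0 : ℝ)).smul d2).const_add q).congr_deriv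
    (by simp)).congr_of_eventuallyEq ?_)
  exact (line_ev e (1, 0)).mono fun t ht => by simpa using ht.1

lemma zero (h : Core F H c1 c2 T) (h0 : H (0, T) ≠ 0) (h1 : c1 ≠ 0)
    (hv : ∃ v, fderiv ℝ F (0, T) v = zz) : T = 0 := by
  obtain ⟨v, hv⟩ := hv
  obtain ⟨a, b⟩ := h.ev.self_of_nhds
  rw [lin_apply] at hv
  have e1 := congrArg p12 hv
  have e2 := congrArg p34 hv
  rw [map_add, map_smul, map_smul, a, h.d1] at e1
  have e3 : v.1 = 0 := (smul_eq_zero.1 (show v.1 • H (0, T) = 0 by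
    rw [← Prod.mk_zero_zero]; simpa [zz] using e1)).resolve_right h0
  rw [map_add, map_smul, map_smul, b rfl, e3] at e2
  simp only [zero_smul, zero_add, cv, zz, p34_apply, Prod.smul_mk, Prod.mk.injEq, smul_eq_mul,
    mul_eq_zero, div_eq_zero_iff, h1, false_or] at e2
  have p : (1 + T ^ 2) ^ 2 ≠ 0 := by positivity
  rcases e2.1 with e | (e | e) | e
  · simp [e] at e2
  · norm_num at e
  · exact e
  · exact absurd e p

lemma idx (h : Core F H c1 c2 0) (hi : Function.Injective (fderiv ℝ F (0, 0))) (h2 : c2 ≠ 0)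
    {H' : R2} (hH : HasDerivAt (fun t : ℝ => H (0, t)) H' 0) :
    (∃ v, fderiv ℝ F (0, 0) v = zz) ∧
      ix F (0, 0) = -(2 * c1 / c2) * ((H (0, 0)).1 * H'.2 - (H (0, 0)).2 * H'.1) := by
  obtain ⟨a, b⟩ := h.ev.self_of_nhds
  have e0 : fderiv ℝ F (0, 0) (0, 1) = (0, 0, 0, 2 * c2) := by
    have b := b rfl
    simp only [p12_apply, p34_apply, zero_smul, Prod.mk_eq_zero] at a b
    exact Prod.ext a.1 (Prod.ext a.2 (by rw [b]; simp [cv, mul_comm]))
  have e1 : ∀ w, fderiv ℝ F w (0, (2 * c2)⁻¹) = (2 * c2)⁻¹ • fderiv ℝ F w (0, 1) := fun w => by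
    rw [← map_smul]; simp
  have hv : fderiv ℝ F (0, 0) (0, (2 * c2)⁻¹) = zz := by
    rw [e1, e0]; simp [zz]; field_simp
  refine ⟨⟨_, hv⟩, ?_⟩
  have sV := (fd_smooth h.sF (0, 1)).differentiableAt (by simp)
  have sW : DifferentiableAt ℝ (fun w => fderiv ℝ H w (0, 1)) (0, 0) :=
    ((h.sH.fderiv_right (m := ∞) (by simp)).clm_apply contDiffAt_const).differentiableAt (by simp)
  have e2 : fderiv ℝ H (0, 0) (0, 1) = H' :=
    (der_line (h.sH.differentiableAt (by simp)) (0, 1)).unique (by simpa using hH)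
  have m1 : p12 (fderiv ℝ (fun w => fderiv ℝ F w (0, 1)) (0, 0) (1, 0)) = H' := by
    refine (der_lin p12 (der_line sV (1, 0))).unique ((((hasDerivAt_id (0 : ℝ)).smul
      (der_line sW (1, 0))).congr_deriv (by simp [← e2])).congr_of_eventuallyEq ?_)
    exact (line_ev h.ev (1, 0)).mono fun t ht => by simpa using ht.1
  have m2 : p12 (fderiv ℝ (fun w => fderiv ℝ F w (0, 1)) (0, 0) (0, 1)) = 0 := by
    refine (der_lin p12 (der_line sV (0, 1))).unique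
      ((hasDerivAt_const (0 : ℝ) (0 : R2)).congr_of_eventuallyEq ?_)
    exact (line_ev h.ev (0, 1)).mono fun t ht => by simpa using ht.1
  have m3 : (p34 (fderiv ℝ (fun w => fderiv ℝ F w (0, 1)) (0, 0) (0, 1))).1 = -4 * c1 := by
    have d0 : HasDerivAt (fun t : ℝ => 1 + t ^ 2) 0 0 := dq _ 1 fun t => by simp
    have d1 : HasDerivAt (fun t : ℝ => -4 * t) (-4) 0 := dq _ 0 fun t => by simp [mul_comm]
    refine (der_lin (ContinuousLinearMap.fst ℝ ℝ ℝ) (der_lin p34 (der_line sV (0, 1)))).unique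
      ((((d1.div (d0.pow 2) (by simp)).const_mul c1).congr_deriv
        (by simp [mul_comm])).congr_of_eventuallyEq ?_)
    exact (line_ev h.ev (0, 1)).mono fun t ht => by
      simpa [cv] using congrArg Prod.fst (ht.2 (by simp))
  have m4 := h.d1
  rw [ix_eq h.sF hi hv, funext e1, fderiv_fun_const_smul sV, e0]
  simp only [p12_apply, p34_apply, Prod.ext_iff, Prod.fst_zero, Prod.snd_zero] at m1 m2 m3 m4
  simp only [det4, smul_apply, Prod.smul_fst, Prod.smul_snd, smul_eq_mul, m1, m2, m3, m4]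
  field_simp
  ring

end Core

/-- The derivative of the parabola. -/
def dpb (w d : R2) : R4 := (d.1, d.2, 2 * (w.1 * d.1 - w.2 * d.2), 2 * (w.1 * d.2 + w.2 * d.1))

lemma pb_der (w d : R2) : HasDerivAt (fun t : ℝ => pb (w + t • d)) (dpb w d) 0 :=
  dq _ (0, 0, d.1 ^ 2 - d.2 ^ 2, 2 * d.1 * d.2) fun t => by
    simp only [pb, dpb, Prod.ext_iff]; simp; constructor <;> ring

lemma sq_der (w d : R2) : HasDerivAt (fun t : ℝ => (w + t • d).1 ^ 2 + (w + t • d).2 ^ 2)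
    (2 * (w.1 * d.1 + w.2 * d.2)) 0 := dq _ (d.1 ^ 2 + d.2 ^ 2) fun t => by simp; ring

lemma far_der {q : ℝ → ℝ} {q' : ℝ} {w : R2} (hq : HasDerivAt q q' (w.1 ^ 2 + w.2 ^ 2))
    (h0 : q (w.1 ^ 2 + w.2 ^ 2) ≠ 0) (d : R2) :
    HasDerivAt (fun t : ℝ => (q ((w + t • d).1 ^ 2 + (w + t • d).2 ^ 2))⁻¹ • pb (w + t • d))
      ((q (w.1 ^ 2 + w.2 ^ 2))⁻¹ • dpb w d -
        (q' * (2 * (w.1 * d.1 + w.2 * d.2)) / q (w.1 ^ 2 + w.2 ^ 2) ^ 2) • pb w) 0 := by
  have d1 := HasDerivAt.comp (h₂ := q) 0 (by simpa using hq) (sq_der w d)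
  refine ((d1.inv (by simpa using h0)).smul (pb_der w d)).congr_deriv ?_
  simp [neg_div, sub_eq_add_neg]

lemma far_zero (P : Par) {F : R2 → R4} {w : R2} (hF : DifferentiableAt ℝ F w)
    (e : ∀ w, F w = (P.q (w.1 ^ 2 + w.2 ^ 2))⁻¹ • pb w) (hv : ∃ v, fderiv ℝ F w v = zz) :
    w.1 ^ 2 + w.2 ^ 2 = P.A ∧ w.1 ^ 2 = w.2 ^ 2 := by
  obtain ⟨v, hv⟩ := hv
  have hq : HasDerivAt P.q (stp (w.1 ^ 2 + w.2 ^ 2 - P.b - 1)) (w.1 ^ 2 + w.2 ^ 2) := by
    exact (((ramp_hasDerivAt _).comp (w.1 ^ 2 + w.2 ^ 2)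
      (((hasDerivAt_id _).sub_const P.b).sub_const 1)).const_add P.B).congr_deriv (mul_one _)
  have h1 := (der_line hF v).unique ((far_der hq (P.q_ne _) v).congr_of_eventuallyEq
    (Eventually.of_forall fun t => e _))
  have h2 := P.q_pos (w.1 ^ 2 + w.2 ^ 2)
  have h3 := P.le_q (w.1 ^ 2 + w.2 ^ 2)
  have h4 : stp (w.1 ^ 2 + w.2 ^ 2 - P.b - 1) ≤ 1 := Real.smoothTransition.le_one _
  have hA : P.A = 4 * (P.b + 2) := rfl
  have hb := P.b_ge
  rw [hv] at h1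
  simp only [zz, dpb, pb, Prod.ext_iff, Prod.fst_sub, Prod.snd_sub, Prod.smul_fst, Prod.smul_snd,
    smul_eq_mul] at h1
  obtain ⟨a1, a2, a3, a4⟩ := h1
  field_simp at a1 a2 a3 a4
  obtain ⟨δ, hδ⟩ : ∃ δ, δ = w.1 * v.1 + w.2 * v.2 := ⟨_, rfl⟩
  rw [← hδ] at a1 a2 a3 a4
  have δ0 : δ ≠ 0 := by
    rintro rfl
    have b1 : v.1 = 0 := by simpa [h2.ne'] using a1
    have b2 : v.2 = 0 := by simpa [h2.ne'] using a2
    simp [b1, b2, h2.ne'] at a4
  have b3 : P.q (w.1 ^ 2 + w.2 ^ 2) =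
      2 * (w.1 ^ 2 + w.2 ^ 2) * stp (w.1 ^ 2 + w.2 ^ 2 - P.b - 1) :=
    mul_left_cancel₀ δ0 (by linear_combination -w.1 * a1 - w.2 * a2 + P.q (w.1 ^ 2 + w.2 ^ 2) * hδ)
  have b4 : P.A ≤ w.1 ^ 2 + w.2 ^ 2 := by nlinarith [sq_nonneg w.1, sq_nonneg w.2]
  have b5 : stp (w.1 ^ 2 + w.2 ^ 2 - P.b - 1) = 1 :=
    Real.smoothTransition.one_of_one_le (by linarith)
  rw [b5] at a1 a2 a3 b3
  refine ⟨by linarith [P.q_out (s := w.1 ^ 2 + w.2 ^ 2) (by linarith)],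
    mul_left_cancel₀ δ0 (by linear_combination w.1 * a1 - w.2 * a2 - a3 / 2)⟩

lemma fold_idx {A : ℝ} (hA : 0 < A) {F : R2 → R4} {w : R2} (hF : ContDiffAt ℝ ∞ F w)
    (hi : Function.Injective (fderiv ℝ F w))
    (e : ∀ᶠ w' in 𝓝 w, F w' = (A + (w'.1 ^ 2 + w'.2 ^ 2))⁻¹ • pb w')
    (h1 : w.1 ^ 2 + w.2 ^ 2 = A) (h2 : w.1 ^ 2 = w.2 ^ 2) :
    (∃ v, fderiv ℝ F w v = zz) ∧ 0 < ix F w := by
  have ev : ∀ᶠ w' in 𝓝 w, ∀ d, fderiv ℝ F w' d = (A + (w'.1 ^ 2 + w'.2 ^ 2))⁻¹ • dpb w' d -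
      (1 * (2 * (w'.1 * d.1 + w'.2 * d.2)) / (A + (w'.1 ^ 2 + w'.2 ^ 2)) ^ 2) • pb w' := by
    filter_upwards [e.eventually_nhds, (hF.of_le (m := 1) (by simp)).eventually (by simp)]
      with w' a b d
    exact (der_line (b.differentiableAt (by simp)) d).unique ((far_der (q := fun s => A + s)
      ((hasDerivAt_id _).const_add A) (by positivity) d).congr_of_eventuallyEq (line_ev a d))
  have w1 : w.1 ≠ 0 := fun h => by rw [h] at h1 h2; nlinarith
  have w2 : w.2 ≠ 0 := fun h => by rw [h] at h1 h2; nlinarith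
  obtain ⟨v, hv⟩ : ∃ v : R2, v = (A / (w.1 * w.2)) • w := ⟨_, rfl⟩
  have v1 : v.1 = A / w.2 := by rw [hv]; simp; field_simp
  have v2 : v.2 = A / w.1 := by rw [hv]; simp; field_simp
  have h3 : A = 2 * w.1 ^ 2 := by linarith
  have h4 : w.2 = w.1 ∨ w.2 = -w.1 := sq_eq_sq_iff_eq_or_eq_neg.1 h2.symm
  have hz : fderiv ℝ F w v = zz := by
    rw [ev.self_of_nhds]
    simp only [zz, dpb, pb, Prod.ext_iff, Prod.fst_sub, Prod.snd_sub, Prod.smul_fst, Prod.smul_snd,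
      smul_eq_mul, v1, v2, h3]
    rcases h4 with h | h <;> rw [h] <;> refine ⟨?_, ?_, ?_, ?_⟩ <;> field_simp <;> ring
  refine ⟨⟨v, hz⟩, ?_⟩
  have sV := (fd_smooth hF v).differentiableAt (by simp)
  have m : ∀ d : R2, fderiv ℝ (fun w => fderiv ℝ F w v) w d = _ := fun d => by
    have d0 := (sq_der w d).const_add A
    have p : A + ((w + (0 : ℝ) • d).1 ^ 2 + (w + (0 : ℝ) • d).2 ^ 2) ≠ 0 := by positivity
    have d1 : HasDerivAt (fun t : ℝ => dpb (w + t • d) v)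
        (0, 0, 2 * (d.1 * v.1 - d.2 * v.2), 2 * (d.1 * v.2 + d.2 * v.1)) 0 :=
      dq _ 0 fun t => by simp only [dpb, Prod.ext_iff]; simp; constructor <;> ring
    have d2 : HasDerivAt (fun t : ℝ => 1 * (2 * ((w + t • d).1 * v.1 + (w + t • d).2 * v.2)))
        (2 * (d.1 * v.1 + d.2 * v.2)) 0 := dq _ 0 fun t => by simp; ring
    exact (der_line sV d).unique ((((d0.inv p).smul d1).sub ((d2.div (d0.pow 2)
      (pow_ne_zero 2 p)).smul (pb_der w d))).congr_of_eventuallyEq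
        ((line_ev ev d).mono fun t ht => ht v))
  rw [ix_eq hF hi hz, m, m, ev.self_of_nhds, ev.self_of_nhds]
  refine lt_of_lt_of_eq (b := 1 / (16 * w.1 ^ 6)) (by positivity) ?_
  simp only [det4, dpb, pb, Prod.fst_sub, Prod.snd_sub, Prod.fst_add, Prod.snd_add, Prod.smul_fst,
    Prod.smul_snd, smul_eq_mul, v1, v2, h3, Pi.pow_apply, Pi.inv_apply, Pi.div_apply, zero_mul,
    add_zero]
  rcases h4 with h | h <;> rw [h] <;> field_simp <;> ring

end Pool.Agent.P.MP_06bfdf_gt.Y
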