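import Pool.Agent.P.MP_06bfdf_gt.Y.Inn

/-! The closed surface over an abstract inner surface and its two-piece property. -/

open Set Topology Filter
open scoped ContDiff

namespace Pool.Agent.P.MP_06bfdf_gt.Y

open X

theorem exists_cr {n : ℕ} (I : Inn n) : ∃ P : Cr n, P.I = I := by
  obtain ⟨P⟩ := exists_par
  have ha := P.a_ge
  have hb := P.hb
  have hn := abs_nonneg I.c0
  obtain ⟨R, hR⟩ := (I.cpt (P.a + |I.c0|)).bddAbove_image
    (f := fun y : R4 => y.2.2.1 ^ 2 + y.2.2.2 ^ 2) (by fun_prop)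
  have h0 := abs_nonneg R
  refine ⟨⟨⟨P.toInner, P.b + |I.c0| + |R|, ?_, fun p hp h => ?_⟩, I,
    P.a + |I.c0|, ?_, ?_, ?_, fun y hy h => ?_⟩, rfl⟩
  · linarith
  · nlinarith [P.hK p hp h]
  · simp only; linarith
  · linarith [le_abs_self I.c0]
  · simp only; linarith
  · have := hR (mem_image_of_mem _ ⟨hy, h⟩)
    simp only at this ⊢
    nlinarith [le_abs_self R]

namespace Cr

variable {n : ℕ} (P : Cr n)

/-- The map to the ambient space. -/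
noncomputable def lf (y : R4) : E7 :=
  ((y.1 / P.q (nq y), y.2.1 / P.q (nq y), y.2.2.1 / P.q (nq y), y.2.2.2 / P.q (nq y)),
    (1 / P.q (nq y), y.1 ^ 2 / P.q (nq y), y.2.1 ^ 2 / P.q (nq y)))

/-- The closed surface. -/
def S : Set E7 := P.lf '' P.I.Sg ∪ P.J '' {s | s.2.2 = 0 ∧ 0 < s.1 ^ 2 + s.2.1 ^ 2}

@[fun_prop] lemma lf_smooth : ContDiff ℝ ∞ P.lf := by
  have h : ∀ y : R4, P.q (nq y) ≠ 0 := fun p => P.q_ne _
  unfold lf
  fun_prop (disch := assumption)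

@[fun_prop] lemma lf_cont : Continuous P.lf := P.lf_smooth.continuous

lemma dn_lf (y : R4) : dn (P.lf y) = y := by
  have := P.q_ne (nq y)
  simp only [dn, lf]
  refine Prod.ext ?_ (Prod.ext ?_ (Prod.ext ?_ ?_)) <;> simp only <;> field_simp

lemma lf_pos (y : R4) : 0 < (P.lf y).2.1 := one_div_pos.2 (P.q_pos _)

lemma lf_mem {y : R4} (h : y ∈ P.I.Sg) : P.lf y ∈ P.S := Or.inl ⟨y, h, rfl⟩

lemma lf_le (y : R4) (r : ℝ) :
    r * (P.lf y).2.1 ≤ (P.lf y).2.2.1 + (P.lf y).2.2.2 ↔ r ≤ nq y := by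
  simp only [lf, mul_one_div, ← add_div, div_le_div_iff_of_pos_right (P.q_pos _)]; rfl

lemma lf_pb {w : R2} (h : P.a ≤ w.1 ^ 2 + w.2 ^ 2) : P.lf (pb w) = P.lift (P.gr w) := by
  simp only [lf, pb, nq, Par.lift, Inner.gr, Prod.mk.eta, P.u_far h, P.v_far h]

lemma S_far {x : E7} (h : P.c * x.2.1 ≤ x.2.2.1 + x.2.2.2) : x ∈ P.S ↔ x ∈ P.M := by
  have ha := P.a_ge
  have hc := P.hca
  constructor
  · rintro (⟨y, hy, rfl⟩ | hx)
    · rw [lf_le] at h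
      rw [← ((P.I.far _ (P.hc0.le.trans h)).1 hy).eq,
        P.lf_pb (w := (y.1, y.2.1)) (hc.trans h)]
      exact P.lift_mem (Or.inl ⟨_, Par.far_mem_G (le_trans (by linarith) h), rfl⟩)
    · exact Or.inr hx
  · rintro (⟨p, hp, rfl⟩ | hx)
    · simp only [Par.lift, mul_one_div, ← add_div, div_le_div_iff_of_pos_right (P.q_pos _)] at h
      rw [← P.Sig_far hp (by linarith), ← P.lf_pb (w := (p.1, p.2.1)) (hc.trans h)]
      exact P.lf_mem ((P.I.far (pb (p.1, p.2.1)) (P.hc0.le.trans h)).2 (Pb_pb _))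
    · exact Or.inr hx

lemma S_fin {x : E7} (hx : x ∈ P.S) (ht : 0 < x.2.1) : dn x ∈ P.I.Sg ∧ P.lf (dn x) = x := by
  rcases hx with ⟨p, hp, rfl⟩ | ⟨s, hs, rfl⟩
  · rw [P.dn_lf]; exact ⟨hp, rfl⟩
  · simp [Par.J, hs.1] at ht

lemma S_near {x : E7} (hx : x ∈ P.S) {r : ℝ} (h : x.2.2.1 + x.2.2.2 ≤ r * x.2.1) :
    ∃ y ∈ P.I.Sg, nq y ≤ r ∧ P.lf y = x := by
  rcases hx with ⟨y, hy, rfl⟩ | ⟨s, hs, rfl⟩
  · refine ⟨y, hy, ?_, rfl⟩
    simp only [lf, mul_one_div, ← add_div, div_le_div_iff_of_pos_right (P.q_pos _)] at h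
    exact h
  · have := div_pos hs.2 (P.D_pos hs.2)
    simp only [Par.J, hs.1, ← add_div] at h
    norm_num at h
    linarith

lemma J_mem' {s : R3} (h0 : 0 < s.1 ^ 2 + s.2.1 ^ 2)
    (h : (P.b + 2) * s.2.2 ^ 2 ≤ s.1 ^ 2 + s.2.1 ^ 2) : P.J s ∈ P.S := by
  refine (P.S_far ?_).2 (P.J_mem h0 h)
  simp only [Par.J, ← mul_div_assoc, ← add_div, div_le_div_iff_of_pos_right (P.D_pos h0)]
  nlinarith [P.hcb, sq_nonneg s.2.2]

lemma isCompact_S : IsCompact P.S := by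
  convert ((P.I.cpt P.c).image P.lf_cont).union (P.isCompact_M.inter_right
    (isClosed_le (f := fun x : E7 => P.c * x.2.1) (g := fun x => x.2.2.1 + x.2.2.2)
      (by fun_prop) (by fun_prop))) using 1
  refine Subset.antisymm (fun x hx => ?_) ?_
  · rcases le_total (P.c * x.2.1) (x.2.2.1 + x.2.2.2) with h | h
    · exact Or.inr ⟨(P.S_far h).1 hx, h⟩
    · obtain ⟨y, h1, h2, rfl⟩ := P.S_near hx h
      exact Or.inl ⟨y, ⟨h1, h2⟩, rfl⟩
  · rintro x (⟨y, hy, rfl⟩ | hx)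
    exacts [P.lf_mem hy.1, (P.S_far hx.2).2 hx.1]

lemma T_nonneg {x : E7} (hx : x ∈ P.S) : 0 ≤ x.2.1 ∧ 0 ≤ x.2.2.1 ∧ 0 ≤ x.2.2.2 := by
  rcases hx with ⟨y, -, rfl⟩ | ⟨s, hs, rfl⟩
  · have := P.q_pos (nq y)
    simp only [lf]
    refine ⟨?_, ?_, ?_⟩ <;> positivity
  · have := P.D_pos hs.2
    simp only [Par.J]
    refine ⟨?_, ?_, ?_⟩ <;> positivity

lemma inj : InjOn (ContinuousLinearMap.fst ℝ R4 R3) P.S := by
  have key : ∀ x ∈ P.S, ∀ x' ∈ P.S, x.2.2.1 + x.2.2.2 ≤ P.c * x.2.1 → x.1 = x'.1 → x = x' := by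
    intro x hx x' hx' h e
    obtain ⟨y, h1, h2, rfl⟩ := P.S_near hx h
    have hB := P.B_pos
    have q1 := P.q_in (h2.trans P.hcb.le)
    rcases le_total (x'.2.2.1 + x'.2.2.2) (P.b * x'.2.1) with h' | h'
    · obtain ⟨y', -, h4, rfl⟩ := P.S_near hx' h'
      simp only [lf, q1, P.q_in h4, Prod.mk.injEq, div_left_inj' hB.ne'] at e
      rw [show y = y' from Prod.ext e.1 (Prod.ext e.2.1 (Prod.ext e.2.2.1 e.2.2.2))]
    · have h3 := big_UV P.toPar ((P.S_far (le_trans (mul_le_mul_of_nonneg_right P.hcb.le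
        (P.T_nonneg hx').1) h')).1 hx') h'
      rw [← e] at h3
      simp only [lf, q1, div_pow, ← add_div] at h3
      exact absurd (div_lt_div_of_pos_right (P.hS y h1 h2) (by positivity)) h3.not_gt
  intro x hx x' hx' e
  rcases le_total (P.c * x.2.1) (x.2.2.1 + x.2.2.2) with h | h
  · rcases le_total (P.c * x'.2.1) (x'.2.2.1 + x'.2.2.2) with h' | h'
    · exact P.injOn_fst ((P.S_far h).1 hx) ((P.S_far h').1 hx') e
    · exact (key x' hx' x hx h' e.symm).symm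
  · exact key x hx x' hx' h e

/-- A chart of the parabola with cross-caps gives a chart of the closed surface. -/
noncomputable def up (C : Chart P.I.Sg) : Chart P.S where
  W := C.W
  O := {x | 0 < x.2.1} ∩ dn ⁻¹' C.O
  ψ := P.lf ∘ C.ψ
  ρ := C.ρ ∘ dn
  oW := C.oW
  oO := by
    refine ContinuousOn.isOpen_inter_preimage ?_ (isOpen_lt (by fun_prop) (by fun_prop)) C.oO
    have h : ∀ x ∈ {x : E7 | 0 < x.2.1}, x.2.1 ≠ 0 := fun x hx => ne_of_gt hx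
    unfold dn
    fun_prop (disch := assumption)
  sψ := P.lf_smooth.comp_contDiffOn C.sψ
  sρ := by
    refine C.sρ.comp ?_ fun x hx => hx.2
    have h : ∀ x ∈ {x : E7 | 0 < x.2.1} ∩ dn ⁻¹' C.O, x.2.1 ≠ 0 := fun x hx => ne_of_gt hx.1
    unfold dn at h ⊢
    fun_prop (disch := assumption)
  mem w hw := by
    obtain ⟨h1, h2, h3⟩ := C.mem w hw
    refine ⟨P.lf_mem h1, ⟨P.lf_pos _, ?_⟩, ?_⟩
    · simpa [P.dn_lf] using h2
    · simpa [P.dn_lf] using h3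
  inv x hx hO := by
    obtain ⟨h1, h2⟩ := P.S_fin hx hO.1
    obtain ⟨h3, h4⟩ := C.inv _ h1 hO.2
    exact ⟨h3, by simp only [Function.comp]; rw [h4, h2]⟩

lemma far_of {x : E7} (hx : x ∈ P.S)
    (h : (P.b + 2) * x.2.1 < x.2.2.1 ∨ (P.b + 2) * x.2.1 < x.2.2.2) : x ∈ P.M := by
  obtain ⟨h1, h2, h3⟩ := P.T_nonneg hx
  refine (P.S_far ?_).1 hx
  rcases h with h | h <;> nlinarith [P.hcb]

/-- First chart at infinity. -/
noncomputable def n1 : Chart P.S :=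
  { P.cN1 with
    mem := fun w hw => ⟨P.J_mem' (by positivity) (by
      have : (P.b + 2) * w.2 ^ 2 < 1 := hw
      simp only; nlinarith [sq_nonneg w.1]), (P.cN1.mem w hw).2⟩
    inv := fun x hx hO => P.cN1.inv x (P.far_of hx (Or.inl hO.1)) hO }

/-- Second chart at infinity. -/
noncomputable def n2 : Chart P.S :=
  { P.cN2 with
    mem := fun w hw => ⟨P.J_mem' (by positivity) (by
      have : (P.b + 2) * w.2 ^ 2 < 1 := hw
      simp only; nlinarith [sq_nonneg w.1]), (P.cN2.mem w hw).2⟩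
    inv := fun x hx hO => P.cN2.inv x (P.far_of hx (Or.inr hO.1)) hO }

lemma inf_cov {x : E7} (hx : x ∈ P.S) : 0 < x.2.1 ∨ x ∈ P.n1.O ∨ x ∈ P.n2.O := by
  rcases hx with ⟨p, hp, rfl⟩ | hx
  · exact Or.inl (P.lf_pos p)
  · exact P.inf_cover (Or.inr hx)

/-- The projection of the chart to 4-space has a differentiable local left inverse. -/
def Imm (C : Chart P.S) : Prop := ∀ w ∈ C.W, ∃ r : R4 → R2,
  DifferentiableAt ℝ r (C.ψ w).1 ∧ ∀ᶠ w' in 𝓝 w, r (C.ψ w').1 = w'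

lemma imm_up (C : Chart P.I.Sg) : P.Imm (P.up C) := by
  intro w hw
  obtain ⟨h1, h2, -⟩ := C.mem w hw
  obtain ⟨θ, t1, t2⟩ : ∃ θ : R4 → R4, DifferentiableAt ℝ θ (P.lf (C.ψ w)).1 ∧
      ∀ᶠ y in 𝓝 (C.ψ w), y ∈ P.I.Sg → θ (P.lf y).1 = y := by
    have hB := P.B_pos
    by_cases h : nq (C.ψ w) < P.b
    · refine ⟨fun z => P.B • z, by fun_prop, ?_⟩
      filter_upwards [nq_cont.continuousAt.eventually (gt_mem_nhds h)] with y h3 _
      simp only [lf, P.q_in h3.le, Prod.smul_mk, smul_eq_mul, mul_div_cancel₀ _ hB.ne']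
    have h3 : P.c < nq (C.ψ w) := P.hcb.trans_le (not_lt.1 h)
    have h0 : 0 < P.c := by linarith [P.hca, P.a_ge]
    refine ⟨fun y => pb ((y.2.2.1 * y.1 + y.2.2.2 * y.2.1) / (y.1 ^ 2 + y.2.1 ^ 2),
      (y.2.2.2 * y.1 - y.2.2.1 * y.2.1) / (y.1 ^ 2 + y.2.1 ^ 2)), ?_, ?_⟩
    · have : (P.lf (C.ψ w)).1.1 ^ 2 + (P.lf (C.ψ w)).1.2.1 ^ 2 ≠ 0 := by
        simp only [lf, div_pow, ← add_div]
        exact (div_pos (h0.trans h3) (pow_pos (P.q_pos _) 2)).ne'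
      unfold pb
      fun_prop (disch := assumption)
    · filter_upwards [nq_cont.continuousAt.eventually (lt_mem_nhds h3)] with y h4 h5
      have h6 := (P.I.far _ (P.hc0.le.trans h4.le)).1 h5
      have hq := P.q_ne (nq y)
      have h7 : y.1 ^ 2 + y.2.1 ^ 2 ≠ 0 := (h0.trans h4).ne'
      refine Eq.trans (congrArg pb ?_) h6.eq
      simp only [lf, h6.1, h6.2]
      refine Prod.ext ?_ ?_ <;> simp only <;> field_simp <;> ring
  have hc : ContinuousAt C.ψ w := C.sψ.continuousOn.continuousAt (C.oW.mem_nhds hw)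
  refine ⟨fun z => C.ρ (θ z), DifferentiableAt.comp (g := C.ρ) _ ?_ t1, ?_⟩
  · rw [show θ ((P.up C).ψ w).1 = C.ψ w from t2.self_of_nhds h1]
    exact (C.sρ.contDiffAt (C.oO.mem_nhds h2)).differentiableAt (by simp)
  · filter_upwards [C.oW.mem_nhds hw, hc.eventually t2] with w' h3 h4
    rw [show θ ((P.up C).ψ w').1 = C.ψ w' from h4 (C.mem w' h3).1, (C.mem w' h3).2.2]

lemma cover : ∀ x ∈ P.S, ∃ C : {C : Chart P.S // P.Imm C}, x ∈ C.1.O := by
  intro x hx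
  rcases P.inf_cov hx with h | h | h
  · suffices ∃ C : Chart P.I.Sg, dn x ∈ C.O from
      this.elim fun C hC => ⟨⟨_, P.imm_up C⟩, h, hC⟩
    rcases P.I.cov (P.S_fin hx h).1 with h2 | h2 | ⟨j, hj, h2 | h2⟩
    exacts [⟨_, h2⟩, ⟨_, h2⟩, ⟨_, h2⟩, ⟨_, h2⟩]
  · exact ⟨⟨P.n1, P.imm 3⟩, h⟩
  · exact ⟨⟨P.n2, P.imm 4⟩, h⟩

lemma key (a : R4) {p : E7} (hp : p ∈ P.S)
    (h : ∀ᶠ y in 𝓝 p, y ∈ P.S → y ≠ p → ht a p.1 < ht a y.1) :
    ∃ s₀ ≠ 0, p = P.J s₀ ∧ ∀ s ≠ 0, ht a p.1 ≤ ht a (P.J s).1 := by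
  rcases lt_or_ge (P.c * p.2.1) (p.2.2.1 + p.2.2.2) with h1 | h1
  · have h2 : P.SLM a p := by
      filter_upwards [h, (isOpen_lt (f := fun x : E7 => P.c * x.2.1)
        (g := fun x => x.2.2.1 + x.2.2.2) (by fun_prop) (by fun_prop)).mem_nhds h1] with y h3 h4 h5
      exact h3 ((P.S_far (le_of_lt h4)).2 h5)
    rcases P.M_cases ((P.S_far h1.le).1 hp) with ⟨p', hp', h3, rfl⟩ | ⟨s₀, hs₀, rfl⟩
    · exact (P.saddle _ hp' h3 h2).elim
    · exact ⟨s₀, Par.ne_zero_of_pos (lt_of_le_of_lt (by have := P.b_ge; positivity) hs₀), rfl,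
        fun s hs => P.global_of_local _ hs₀ h2 hs⟩
  · obtain ⟨y, hy, h2, rfl⟩ := P.S_near hp h1
    have h3 := h2.trans_lt P.hcb
    refine (P.I.saddle a _ hy ?_).elim
    have e : ∀ z, nq z < P.b → ht a (P.lf z).1 = ht a z / P.B := fun z hz => by
      simp only [ht, lf, P.q_in hz.le]; ring
    filter_upwards [(P.lf_cont.tendsto y).eventually h,
      nq_cont.continuousAt.eventually (gt_mem_nhds h3)] with z h4 h5 h6 h7
    have := h4 (P.lf_mem h6) fun e => h7 (by rw [← P.dn_lf z, e, P.dn_lf])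
    rwa [e _ h3, e _ h5, div_lt_div_iff_of_pos_right P.B_pos] at this

lemma core_min' (a : R4) {δ : ℝ} (hδ : 0 < δ) {C : Set E7} (hC : IsCompact C) (hCM : C ⊆ P.S)
    {b : E7} (hb : b ∈ C) : ∃ p ∈ C, ht a p.1 - δ * ht p.1 p.1 ≤ ht a b.1 ∧
      ((∀ᶠ y in 𝓝 p, y ∈ P.S → y ∈ C) → ∃ s₀ ≠ 0, p = P.J s₀ ∧
        ∀ s ≠ 0, ht a p.1 - 2 * δ * ht p.1 p.1 ≤ ht a (P.J s).1 - 2 * δ * ht p.1 (P.J s).1) := by
  obtain ⟨p, hp, hmin⟩ := hC.exists_isMinOn ⟨b, hb⟩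
    (f := fun y : E7 => ht a y.1 - δ * ht y.1 y.1) (by fun_prop)
  have hmin := isMinOn_iff.1 hmin
  have nonneg : ∀ y : R4, 0 ≤ ht y y := fun y => by
    unfold ht; nlinarith [mul_self_nonneg y.1, mul_self_nonneg y.2.1, mul_self_nonneg y.2.2.1,
      mul_self_nonneg y.2.2.2]
  refine ⟨p, hp, by nlinarith [hmin b hb, nonneg b.1], fun hev => ?_⟩
  have lin : ∀ y : R4, ht (a - (2 * δ) • p.1) y = ht a y - 2 * δ * ht p.1 y := fun y => by
    simp [ht]; ring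
  have slm : ∀ᶠ y in 𝓝 p, y ∈ P.S → y ≠ p →
      ht (a - (2 * δ) • p.1) p.1 < ht (a - (2 * δ) • p.1) y.1 := by
    filter_upwards [hev] with y h1 h2 h3
    have h4 := hmin y (h1 h2)
    have h5 : y.1 ≠ p.1 := fun e => h3 (P.inj h2 (hCM hp) e)
    have h6 : 0 < ht (y.1 - p.1) (y.1 - p.1) := by
      refine lt_of_le_of_ne (nonneg _) fun e => h5 ?_
      simp only [ht, Prod.fst_sub, Prod.snd_sub] at e
      refine Prod.ext ?_ (Prod.ext ?_ (Prod.ext ?_ ?_)) <;>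
        nlinarith [mul_self_nonneg (y.1.1 - p.1.1), mul_self_nonneg (y.1.2.1 - p.1.2.1),
          mul_self_nonneg (y.1.2.2.1 - p.1.2.2.1), mul_self_nonneg (y.1.2.2.2 - p.1.2.2.2)]
    have h7 : ht (y.1 - p.1) (y.1 - p.1) = ht y.1 y.1 - 2 * ht p.1 y.1 + ht p.1 p.1 := by
      simp [ht]; ring
    rw [lin, lin]
    nlinarith
  simpa only [lin] using P.key _ (hCM hp) slm

theorem tpp_ne' {a : R4} (ha : a ≠ 0) (k : ℝ) : IsPreconnected (P.S ∩ {x | ht a x.1 ≤ k}) := by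
  obtain ⟨m, ⟨z, hz0, hz⟩, hQ⟩ := P.exists_min a
  obtain ⟨R₀, hR₀⟩ := P.isCompact_S.bddAbove_image (f := fun y : E7 => ht y.1 y.1) (by fun_prop)
  obtain ⟨R, hR0, hR⟩ : ∃ R > 0, ∀ y ∈ P.S, ht y.1 y.1 ≤ R :=
    ⟨|R₀| + 1, by positivity, fun y hy => by
      linarith [hR₀ (mem_image_of_mem _ hy), le_abs_self R₀]⟩
  have ZM : ∀ s ≠ 0, P.Qf a m s = 0 → P.J s ∈ P.S := fun s hs h0 =>
    have := P.null_far ha hQ hs h0
    P.J_mem' (lt_of_le_of_lt (by have := P.b_ge; positivity) this) this.le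
  have star : ∀ x ∈ P.S, m ≤ ht a x.1 := by
    intro x hx
    by_contra hlt
    rw [not_le] at hlt
    obtain ⟨p, hp, h1, h2⟩ := P.core_min' a (δ := (m - ht a x.1) / (2 * R))
      (div_pos (by linarith) (by linarith)) P.isCompact_S Subset.rfl hx
    obtain ⟨s₀, hs₀, rfl, -⟩ := h2 (Eventually.of_forall fun _ h => h)
    have h3 := (P.le_ht_J_iff a m hs₀).2 (hQ s₀)
    have h4 : (m - ht a x.1) / (2 * R) * ht (P.J s₀).1 (P.J s₀).1 ≤ (m - ht a x.1) / (2 * R) * R :=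
      mul_le_mul_of_nonneg_left (hR _ hp) (div_pos (by linarith) (by linarith)).le
    have h5 : (m - ht a x.1) / (2 * R) * R = (m - ht a x.1) / 2 := by field_simp
    linarith
  have hKc : IsClosed (P.S ∩ {x | ht a x.1 ≤ k}) :=
    P.isCompact_S.isClosed.inter (isClosed_le (by fun_prop) (by fun_prop))
  have key : ∀ u v : Set E7, IsClosed u → IsClosed v → P.S ∩ {x | ht a x.1 ≤ k} ⊆ u ∪ v →
      P.S ∩ {x | ht a x.1 ≤ k} ∩ (u ∩ v) = ∅ → m ≤ k →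
      P.J '' {s | s ≠ 0 ∧ P.Qf a m s = 0} ⊆ u → P.S ∩ {x | ht a x.1 ≤ k} ⊆ u := by
    intro u v hu hv cov dis hmk hZ b hb
    by_contra hbu
    have hbv : b ∈ v := (cov hb).resolve_left hbu
    obtain ⟨N, hNo, hAN, hNB⟩ := normal_exists_closure_subset (hKc.inter hu)
      (hKc.inter hv).isOpen_compl (t := (P.S ∩ {x | ht a x.1 ≤ k} ∩ v)ᶜ)
      (fun x hx hx' => (eq_empty_iff_forall_notMem.1 dis x) ⟨hx.1, hx.2, hx'.2⟩)
    have hC : IsCompact (P.S \ N) := P.isCompact_S.diff hNo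
    obtain ⟨γ₁, hγ₁, g₁⟩ := exists_gap (hC.inter_right (isClosed_closure (s := N)))
      (h := fun y : E7 => ht a y.1) (by fun_prop) (c := k) (by
        intro x hx
        by_contra hle
        have hxK : x ∈ P.S ∩ {x | ht a x.1 ≤ k} := ⟨hx.1.1, not_lt.1 hle⟩
        rcases cov hxK with h | h
        · exact hx.1.2 (hAN ⟨hxK, h⟩)
        · exact hNB hx.2 ⟨hxK, h⟩)
    obtain ⟨γ₂, hγ₂, g₂⟩ := exists_gap (hC.inter_right P.isCompact_Ver.isClosed)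
      (h := fun y : E7 => ht a y.1) (by fun_prop) (c := m) (by
        rintro _ ⟨hx, s, hs, rfl⟩
        refine lt_of_le_of_ne (star _ hx.1) fun e => hx.2 (hAN ⟨⟨hx.1, ?_⟩, ?_⟩)
        · exact e.symm.le.trans hmk
        · exact hZ ⟨s, ⟨Par.sphere_ne hs, (P.ht_J_eq_iff a m (Par.sphere_ne hs)).1 e.symm⟩, rfl⟩)
    set δ := min γ₁ γ₂ / (8 * R) with hδ
    have hγ : 0 < min γ₁ γ₂ := lt_min hγ₁ hγ₂
    have hδ0 : 0 < δ := by positivity
    have hδR : δ * R = min γ₁ γ₂ / 8 := by rw [hδ]; field_simp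
    obtain ⟨p, hp, h1, h2⟩ := P.core_min' a hδ0 hC sdiff_subset (b := b)
      ⟨hb.1, fun hN => hNB (subset_closure hN) ⟨hb, hbv⟩⟩
    have h3 : δ * ht p.1 p.1 ≤ δ * R := mul_le_mul_of_nonneg_left (hR _ hp.1) hδ0.le
    have hpN : p ∉ closure N := by
      intro h
      have := g₁ p ⟨hp, h⟩
      have := hb.2
      simp only [mem_ofPred_eq] at this
      linarith [min_le_left γ₁ γ₂]
    obtain ⟨s₀, hs₀, rfl, h4⟩ := h2 (by
      filter_upwards [isClosed_closure.isOpen_compl.mem_nhds hpN] with y hy hyM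
      exact ⟨hyM, fun h => hy (subset_closure h)⟩)
    have h5 := h4 z hz0
    rw [(P.ht_J_eq_iff a m hz0).2 hz] at h5
    obtain ⟨s', hs', e⟩ := P.J_normalize hs₀
    have h6 := g₂ _ ⟨hp, s', hs', e⟩
    have h7 : -R ≤ ht (P.J s₀).1 (P.J z).1 := by
      have r1 := hR _ hp.1
      have r2 := hR _ (ZM z hz0 hz)
      generalize (P.J s₀).1 = y at *
      generalize (P.J z).1 = y' at *
      unfold ht at r1 r2 ⊢
      nlinarith [sq_nonneg (y.1 + y'.1), sq_nonneg (y.2.1 + y'.2.1), sq_nonneg (y.2.2.1 + y'.2.2.1),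
        sq_nonneg (y.2.2.2 + y'.2.2.2)]
    have h8 : δ * -R ≤ δ * ht (P.J s₀).1 (P.J z).1 := mul_le_mul_of_nonneg_left h7 hδ0.le
    linarith [min_le_right γ₁ γ₂]
  rw [isPreconnected_iff_subset_of_disjoint_closed]
  intro u v hu hv cov dis
  rcases lt_or_ge k m with hmk | hmk
  · exact Or.inl fun x hx => absurd (star x hx.1) (not_le.2 (lt_of_le_of_lt hx.2 hmk))
  have ZK : P.J '' {s | s ≠ 0 ∧ P.Qf a m s = 0} ⊆ P.S ∩ {x | ht a x.1 ≤ k} := by
    rintro _ ⟨s, hs, rfl⟩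
    exact ⟨ZM s hs.1 hs.2, ((P.ht_J_eq_iff a m hs.1).2 hs.2).le.trans hmk⟩
  rcases isPreconnected_iff_subset_of_disjoint_closed.1 (P.isPreconnected_null hQ) u v hu hv
    (ZK.trans cov) (subset_eq_empty (inter_subset_inter_left _ ZK) dis) with h | h
  · exact Or.inl (key u v hu hv cov dis hmk h)
  · exact Or.inr (key v u hv hu (by rwa [union_comm]) (by rwa [inter_comm v u]) hmk h)

theorem isPreconnected_S : IsPreconnected P.S := by
  obtain ⟨R, hR⟩ := P.isCompact_S.bddAbove_image (f := fun y : E7 => ht (1, 0, 0, 0) y.1)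
    (by fun_prop)
  have := P.tpp_ne' (a := (1, 0, 0, 0)) (by simp) R
  rwa [show P.S ∩ {x | ht (1, 0, 0, 0) x.1 ≤ R} = P.S from
    inter_eq_left.2 fun y hy => hR (mem_image_of_mem _ hy)] at this

theorem tpp' (a : R4) (k : ℝ) :
    IsPreconnected {x : P.S | ht a (ContinuousLinearMap.fst ℝ R4 R3 x) ≤ k} := by
  rw [← Topology.IsInducing.subtypeVal.isPreconnected_image]
  have : Subtype.val '' {x : P.S | ht a (ContinuousLinearMap.fst ℝ R4 R3 x) ≤ k} =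
      P.S ∩ {x | ht a x.1 ≤ k} := by
    ext x; simp [and_comm]
  rw [this]
  by_cases ha : a = 0
  · subst ha
    rcases le_or_gt 0 k with hk | hk
    · rw [inter_eq_left.2 fun y _ => by simpa [ht] using hk]
      exact P.isPreconnected_S
    · rw [show P.S ∩ {x | ht 0 x.1 ≤ k} = ∅ from by ext x; simp [ht, hk]]
      exact isPreconnected_empty
  · exact P.tpp_ne' ha k

end Cr

end Pool.Agent.P.MP_06bfdf_gt.Y
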